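import Pool.Agent.H76.GD.Defs
import Pool.Graph.R_pool_sql_team_seeded_b677cdb8.E8helper66.GB.Fin

set_option autoImplicit false

/-!
# Lower bounds for the distances
-/

namespace Pool.Agent.H76.GD

open Pool.Agent.E8helper66.GB (OP OP_three OP_odd struct)

/-- the adjacency of the halves (necessary conditions) -/
def A (a b : ℕ) : Prop := OP (a + b) ∧ OP (Nat.dist a b)

lemma A_symm {a b : ℕ} (h : A a b) : A b a := by
  unfold A at *
  rw [add_comm b a, Nat.dist_comm b a]
  exact h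

lemma A_parity {a b : ℕ} (h : A a b) : (a + b) % 2 = 1 := OP_odd h.1

lemma OP_prime {m : ℕ} (h : OP m) (hm : 2 ≤ m) : m.Prime := by
  rcases h with rfl | h
  · omega
  · exact h.1

lemma OP_five {m : ℕ} (h : OP m) (h5 : 5 ∣ m) : m = 5 := by
  rcases h with rfl | ⟨h, -⟩
  · norm_num at h5
  · exact ((Nat.prime_dvd_prime_iff_eq Nat.prime_five h).1 h5).symm

/-- the first linear form -/
def F1 (i x y : ℕ) : ℕ :=
  match i with
  | 0 => x + y
  | 1 => 2 * y + 3
  | 2 => 2 * y - 3
  | 3 => 2 * x + 3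
  | 4 => 2 * x - 3
  | 5 => x
  | 6 => x + 3
  | 7 => x + 1
  | 8 => x + 2
  | 9 => x + 1
  | 10 => x + 4
  | 11 => 2 * x + 5
  | 12 => 2 * x - 5
  | 13 => 2 * y + 5
  | 14 => 2 * y - 5
  | 15 => 2 * y + 5
  | 16 => 2 * y - 5
  | 17 => 2 * x + 5
  | 18 => 2 * x - 5
  | _ => 0

/-- the second linear form -/
def F2 (i x y : ℕ) : ℕ :=
  match i with
  | 0 => Nat.dist x y
  | 1 => x + y + 3
  | 2 => x + y - 3
  | 3 => x + y + 3
  | 4 => x + y - 3
  | 5 => y + 3
  | 6 => y
  | 7 => y + 2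
  | 8 => y + 1
  | 9 => y + 4
  | 10 => y + 1
  | 11 => x + y + 8
  | 12 => x + y - 2
  | 13 => x + y + 2
  | 14 => x + y - 8
  | 15 => x + y + 8
  | 16 => x + y - 2
  | 17 => x + y + 2
  | 18 => x + y - 8
  | _ => 0

/-- the exceptional pairs -/
def Ex (x y : ℕ) : Prop :=
  x ≤ 20 ∨ y ≤ 20 ∨ Nat.dist x y ≤ 20 ∨ ∃ i, (F1 i x y).Prime ∧ (F2 i x y).Prime

lemma Ex_of (i : ℕ) {x y : ℕ} (h1 : (F1 i x y).Prime) (h2 : (F2 i x y).Prime) : Ex x y :=
  Or.inr (Or.inr (Or.inr ⟨i, h1, h2⟩))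

/-- two adjacent numbers not divisible by three, one of them large -/
lemma nn {x b : ℕ} (hx : 21 ≤ x) (hb : 1 ≤ b) (h : A x b) (h3 : ¬ 3 ∣ x) (h3' : ¬ 3 ∣ b) :
    (b = x + 3 ∧ (2 * x + 3).Prime) ∨ (b = x - 3 ∧ (2 * x - 3).Prime) := by
  obtain ⟨-, -, h5⟩ := struct (by omega) hb h.1 h.2
  rcases h5 h3 h3' with h6 | h6
  · omega
  · simp only [Nat.dist] at h6
    have h7 : b = x + 3 ∨ b + 3 = x := by omega
    rcases h7 with h7 | h7
    · left
      refine ⟨h7, ?_⟩
      have h8 := OP_prime h.1 (by omega)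
      have e : x + b = 2 * x + 3 := by omega
      rwa [e] at h8
    · right
      refine ⟨by omega, ?_⟩
      have h8 := OP_prime h.1 (by omega)
      have e : x + b = 2 * x - 3 := by omega
      rwa [e] at h8

lemma nn_SP {x b : ℕ} (hx : 21 ≤ x) (hb : 1 ≤ b) (h : A x b) (h3 : ¬ 3 ∣ x) (h3' : ¬ 3 ∣ b) : SP x := by
  rcases nn hx hb h h3 h3' with h1 | h1
  · exact Or.inl h1.2
  · exact Or.inr h1.2

/-- zero is not adjacent to a large multiple of three -/
lemma not_zero {x : ℕ} (hx : 21 ≤ x) (h3 : 3 ∣ x) (h : A x 0) : False := by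
  have h1 := OP_three (m := x + 0) h.1 (by simpa using h3)
  omega

/-- a multiple of three is not adjacent to another one -/
lemma not_mm {x b : ℕ} (hx : 21 ≤ x) (h3 : 3 ∣ x) (h : A x b) : 1 ≤ b ∧ ¬ 3 ∣ b := by
  rcases Nat.eq_zero_or_pos b with rfl | hb
  · exact (not_zero hx h3 h).elim
  · obtain ⟨-, h4, -⟩ := struct (by omega) hb h.1 h.2
    exact ⟨hb, fun h5 => h4 ⟨h3, h5⟩⟩

lemma two_aux {x y b : ℕ} (hx : 21 ≤ x) (hy : 21 ≤ y) (h3x : 3 ∣ x) (h3y : ¬ 3 ∣ y) (h1 : A x b) (h2 : A y b) :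
    ((2 * y + 3).Prime ∧ (x + y + 3).Prime) ∨ ((2 * y - 3).Prime ∧ (x + y - 3).Prime) := by
  obtain ⟨hb, h3b⟩ := not_mm hx h3x h1
  have h8 := OP_prime h1.1 (by omega)
  rcases nn hy hb h2 h3y h3b with ⟨h4, h5⟩ | ⟨h4, h5⟩
  · left
    refine ⟨h5, ?_⟩
    have e : x + b = x + y + 3 := by omega
    rwa [e] at h8
  · right
    refine ⟨h5, ?_⟩
    have e : x + b = x + y - 3 := by omega
    rwa [e] at h8

lemma mm_aux {x y u v : ℕ} (hx : 21 ≤ x) (hy : 21 ≤ y) (hx5 : x % 5 = 2 ∨ x % 5 = 3) (hy5 : y % 5 = 2 ∨ y % 5 = 3)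
    (h1 : A x u) (h2 : A u v) (h3 : A y v) (huv : v = u + 3) :
    ((2 * x + 5).Prime ∧ (x + y + 8).Prime) ∨ ((2 * x - 5).Prime ∧ (x + y - 2).Prime) ∨
    ((2 * y + 5).Prime ∧ (x + y + 2).Prime) ∨ ((2 * y - 5).Prime ∧ (x + y - 8).Prime) ∨
    ((x + 1).Prime ∧ (y + 4).Prime) := by
  have p1 := OP_prime h1.1 (by omega)
  have p3 := OP_prime h3.1 (by omega)
  have key : 5 ∣ x + u ∨ 5 ∣ Nat.dist x u ∨ 5 ∣ y + v ∨ 5 ∣ Nat.dist y v ∨ 5 ∣ u + v := by
    simp only [Nat.dist]
    have e1 : u % 5 = 0 ∨ u % 5 = 1 ∨ u % 5 = 2 ∨ u % 5 = 3 ∨ u % 5 = 4 := by omega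
    rcases e1 with e | e | e | e | e <;> rcases hx5 with e2 | e2 <;> rcases hy5 with e3 | e3 <;> omega
  rcases key with k | k | k | k | k
  · have := OP_five h1.1 k
    omega
  · have k1 := OP_five h1.2 k
    simp only [Nat.dist] at k1
    have k2 : u = x + 5 ∨ u + 5 = x := by omega
    rcases k2 with k2 | k2
    · left
      have e1 : x + u = 2 * x + 5 := by omega
      have e2 : y + v = x + y + 8 := by omega
      rw [e1] at p1
      rw [e2] at p3
      exact ⟨p1, p3⟩
    · right; left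
      have e1 : x + u = 2 * x - 5 := by omega
      have e2 : y + v = x + y - 2 := by omega
      rw [e1] at p1
      rw [e2] at p3
      exact ⟨p1, p3⟩
  · have := OP_five h3.1 k
    omega
  · have k1 := OP_five h3.2 k
    simp only [Nat.dist] at k1
    have k2 : v = y + 5 ∨ v + 5 = y := by omega
    rcases k2 with k2 | k2
    · right; right; left
      have e1 : y + v = 2 * y + 5 := by omega
      have e2 : x + u = x + y + 2 := by omega
      rw [e1] at p3
      rw [e2] at p1
      exact ⟨p3, p1⟩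
    · right; right; right; left
      have e1 : y + v = 2 * y - 5 := by omega
      have e2 : x + u = x + y - 8 := by omega
      rw [e1] at p3
      rw [e2] at p1
      exact ⟨p3, p1⟩
  · have k1 := OP_five h2.1 k
    right; right; right; right
    have e1 : x + u = x + 1 := by omega
    have e2 : y + v = y + 4 := by omega
    rw [e1] at p1
    rw [e2] at p3
    exact ⟨p1, p3⟩

lemma D'_le (x y : ℕ) : D' x y ≤ 5 := by
  unfold D' D
  split_ifs <;> omega

lemma D'_same {x y : ℕ} (h : x % 2 = y % 2) : D' x y ≤ 4 := by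
  have h1 : ¬ Sht x y := fun hs => hs.1 h
  unfold D' D
  rw [if_neg h1, if_pos h]
  split_ifs <;> omega

lemma D'_same2 {x y : ℕ} (h : x % 2 = y % 2) (h3 : 3 ∣ x ↔ 3 ∣ y) : D' x y ≤ 2 := by
  have h1 : ¬ Sht x y := fun hs => hs.1 h
  unfold D' D
  rw [if_neg h1, if_pos h, if_pos h3]

lemma two_path {x y b : ℕ} (h1 : A x b) (h2 : A b y) (hE : ¬ Ex x y) : D' x y ≤ 2 := by
  have hx : 21 ≤ x := by
    by_contra h
    exact hE (Or.inl (by omega))
  have hy : 21 ≤ y := by
    by_contra h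
    exact hE (Or.inr (Or.inl (by omega)))
  have q1 := A_parity h1
  have q2 := A_parity h2
  by_cases h3 : 3 ∣ x ↔ 3 ∣ y
  · exact D'_same2 (by omega) h3
  · exfalso
    apply hE
    by_cases h3x : 3 ∣ x
    · have h3y : ¬ 3 ∣ y := by tauto
      rcases two_aux hx hy h3x h3y h1 (A_symm h2) with h | h
      · exact Ex_of 1 h.1 h.2
      · exact Ex_of 2 h.1 h.2
    · have h3y : 3 ∣ y := by tauto
      have h := two_aux hy hx h3y h3x (A_symm h2) h1
      rw [add_comm y x] at h
      rcases h with h | h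
      · exact Ex_of 3 h.1 h.2
      · exact Ex_of 4 h.1 h.2

lemma three_path {x y u v : ℕ} (h1 : A x u) (h2 : A u v) (h3 : A v y) (hE : ¬ Ex x y) : D' x y ≤ 3 := by
  have hx : 21 ≤ x := by
    by_contra h
    exact hE (Or.inl (by omega))
  have hy : 21 ≤ y := by
    by_contra h
    exact hE (Or.inr (Or.inl (by omega)))
  have q1 := A_parity h1
  have q2 := A_parity h2
  have q3 := A_parity h3
  by_contra hcon
  have hS : ¬ Sht x y := by
    intro h
    apply hcon
    unfold D'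
    rw [if_pos h]
  have hD : 3 < D x y := by
    unfold D' at hcon
    rw [if_neg hS] at hcon
    omega
  have hpar : x % 2 ≠ y % 2 := by omega
  unfold D at hD
  rw [if_neg hpar] at hD
  by_cases h33 : 3 ∣ x ↔ 3 ∣ y
  · rw [if_neg (not_not.2 h33)] at hD
    by_cases h3x : 3 ∣ x
    · -- both divisible by three
      have h3y := h33.1 h3x
      have h5 : (x % 5 = 2 ∨ x % 5 = 3) ∧ (y % 5 = 2 ∨ y % 5 = 3) := by
        by_contra h
        rw [if_pos ⟨h3x, h⟩] at hD
        omega
      obtain ⟨hu, h3u⟩ := not_mm hx h3x h1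
      obtain ⟨hv, h3v⟩ := not_mm hy h3y (A_symm h3)
      obtain ⟨-, -, h6⟩ := struct hu hv h2.1 h2.2
      rcases h6 h3u h3v with h7 | h7
      · have p1 := OP_prime h1.1 (by omega)
        have p3 := OP_prime h3.1 (by omega)
        have h8 : (u = 1 ∧ v = 2) ∨ (u = 2 ∧ v = 1) := by omega
        apply hE
        rcases h8 with ⟨rfl, rfl⟩ | ⟨rfl, rfl⟩
        · rw [add_comm 2 y] at p3
          exact Ex_of 7 p1 p3
        · rw [add_comm 1 y] at p3
          exact Ex_of 8 p1 p3
      · simp only [Nat.dist] at h7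
        have h8 : v = u + 3 ∨ u = v + 3 := by omega
        apply hE
        rcases h8 with h8 | h8
        · rcases mm_aux hx hy h5.1 h5.2 h1 h2 (A_symm h3) h8 with h | h | h | h | h
          · exact Ex_of 11 h.1 h.2
          · exact Ex_of 12 h.1 h.2
          · exact Ex_of 13 h.1 h.2
          · exact Ex_of 14 h.1 h.2
          · exact Ex_of 9 h.1 h.2
        · have h := mm_aux hy hx h5.2 h5.1 (A_symm h3) (A_symm h2) h1 h8
          rw [add_comm y x] at h
          rcases h with h | h | h | h | h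
          · exact Ex_of 15 h.1 h.2
          · exact Ex_of 16 h.1 h.2
          · exact Ex_of 17 h.1 h.2
          · exact Ex_of 18 h.1 h.2
          · exact Ex_of 10 h.2 h.1
    · -- both not divisible by three
      have h3y : ¬ 3 ∣ y := fun h => h3x (h33.2 h)
      have n1 : ¬ SP x := fun h => hS ⟨hpar, h3x, h3y, Or.inl h⟩
      have n2 : ¬ SP y := fun h => hS ⟨hpar, h3x, h3y, Or.inr h⟩
      have hu : u = 0 ∨ 3 ∣ u := by
        by_contra h
        push Not at h
        exact n1 (nn_SP hx (by omega) h1 h3x h.2)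
      have hv : v = 0 ∨ 3 ∣ v := by
        by_contra h
        push Not at h
        exact n2 (nn_SP hy (by omega) (A_symm h3) h3y h.2)
      have h3u : 3 ∣ u := by
        rcases hu with rfl | h
        · exact dvd_zero 3
        · exact h
      have h3v : 3 ∣ v := by
        rcases hv with rfl | h
        · exact dvd_zero 3
        · exact h
      have e1 := OP_three h2.1 (Dvd.dvd.add h3u h3v)
      have e2 : (u = 0 ∧ v = 3) ∨ (u = 3 ∧ v = 0) := by omega
      have p1 := OP_prime h1.1 (by omega)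
      have p3 := OP_prime h3.1 (by omega)
      apply hE
      rcases e2 with ⟨rfl, rfl⟩ | ⟨rfl, rfl⟩
      · rw [add_zero] at p1
        rw [add_comm] at p3
        exact Ex_of 5 p1 p3
      · rw [zero_add] at p3
        exact Ex_of 6 p1 p3
  · rw [if_pos h33] at hD
    omega

theorem walk_lower {V : Type} (G : SimpleGraph V) (h : V → ℕ)
    (hG : ∀ u v, G.Adj u v → A (h u) (h v)) (u v : V) (w : G.Walk u v) (hE : ¬ Ex (h u) (h v)) :
    D' (h u) (h v) ≤ w.length := by
  match w with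
  | .nil =>
    exfalso
    apply hE
    right; right; left
    rw [Nat.dist_self]
    omega
  | .cons h1 .nil =>
    exfalso
    have a1 := hG _ _ h1
    have hx : 21 ≤ h u := by
      by_contra h
      exact hE (Or.inl (by omega))
    have hd : 21 ≤ Nat.dist (h u) (h v) := by
      by_contra h
      exact hE (Or.inr (Or.inr (Or.inl (by omega))))
    have p1 : (h u + h v).Prime := OP_prime a1.1 (by omega)
    have p2 : (Nat.dist (h u) (h v)).Prime := OP_prime a1.2 (by omega)
    exact hE (Ex_of 0 p1 p2)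
  | .cons h1 (.cons h2 .nil) =>
    exact two_path (hG _ _ h1) (hG _ _ h2) hE
  | .cons h1 (.cons h2 (.cons h3 .nil)) =>
    exact three_path (hG _ _ h1) (hG _ _ h2) (hG _ _ h3) hE
  | .cons h1 (.cons h2 (.cons h3 (.cons h4 .nil))) =>
    have a1 := A_parity (hG _ _ h1)
    have a2 := A_parity (hG _ _ h2)
    have a3 := A_parity (hG _ _ h3)
    have a4 := A_parity (hG _ _ h4)
    exact D'_same (by omega)
  | .cons h1 (.cons h2 (.cons h3 (.cons h4 (.cons h5 w')))) =>
    simp only [SimpleGraph.Walk.length_cons]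
    have := D'_le (h u) (h v)
    omega

theorem edist_lower {V : Type} (G : SimpleGraph V) (h : V → ℕ)
    (hG : ∀ u v, G.Adj u v → A (h u) (h v)) (u v : V) (hE : ¬ Ex (h u) (h v)) :
    (D' (h u) (h v) : ℕ∞) ≤ G.edist u v := by
  unfold SimpleGraph.edist
  apply le_iInf
  intro w
  exact_mod_cast walk_lower G h hG u v w hE

end Pool.Agent.H76.GD
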