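import Pool.Graph.R_seed8.H442R2.EHI.PntErr
import Pool.Graph.R_seed8.Helper112.PairSieve

set_option autoImplicit false

/-!
# The number of the primes up to `2 n` and of the prime pairs
-/

namespace Pool.Agent.H76.GD

open Finset

lemma evN (P : ℕ → Prop) (h : ∀ᶠ n : ℕ in Filter.atTop, P n) : ∃ n₀ : ℕ, ∀ n : ℕ, n₀ ≤ n → P n := by
  rw [Filter.eventually_atTop] at h
  exact h

lemma evLog (c : ℝ) : ∃ N0 : ℕ, ∀ N : ℕ, N0 ≤ N → c ≤ Real.log N :=
  evN _ ((Real.tendsto_log_atTop.comp (tendsto_natCast_atTop_atTop (R := ℝ))).eventually (Filter.eventually_ge_atTop c))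

/-- the prime number theorem with an error term -/
lemma pi_asym : ∃ (C : ℝ) (N : ℕ), 0 < C ∧ ∀ y : ℕ, N ≤ y →
    |(Nat.primeCounting y : ℝ) - y / Real.log y| ≤ C * (y / Real.log y ^ 2) := by
  obtain ⟨C₁, hC₁, h1⟩ := Pool.Agent.H442R2.EHI.PntErrAux.thetaU 1
  obtain ⟨C₂, h2⟩ := Chebyshev.primeCounting_sub_theta_div_log_isBigO.bound
  obtain ⟨N₂, h2'⟩ := evN _ ((tendsto_natCast_atTop_atTop (R := ℝ)).eventually h2)
  refine ⟨C₁ + |C₂|, N₂ + 3, by positivity, fun y hy => ?_⟩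
  have hy1 : (1 : ℝ) < y := by exact_mod_cast (by omega : 1 < y)
  have hl : 0 < Real.log y := Real.log_pos hy1
  have a1 := h1 y (by omega)
  have a2 := h2' y (by omega)
  rw [Nat.floor_natCast, Real.norm_eq_abs, Real.norm_of_nonneg (by positivity)] at a2
  rw [pow_one] at a1
  have a3 : |Chebyshev.theta (y : ℝ) / Real.log y - y / Real.log y| ≤ C₁ * (y / Real.log y ^ 2) := by
    rw [← sub_div, abs_div, abs_of_pos hl, div_le_iff₀ hl]
    refine a1.trans (le_of_eq ?_)
    field_simp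
  have a4 : C₂ * (y / Real.log y ^ 2) ≤ |C₂| * (y / Real.log y ^ 2) :=
    mul_le_mul_of_nonneg_right (le_abs_self _) (by positivity)
  have e : (Nat.primeCounting y : ℝ) - y / Real.log y = ((Nat.primeCounting y : ℝ) - Chebyshev.theta (y : ℝ) / Real.log y) +
    (Chebyshev.theta (y : ℝ) / Real.log y - y / Real.log y) := by ring
  rw [e]
  refine (abs_add_le _ _).trans ?_
  linarith

lemma pi_two : ∃ (C : ℝ) (N : ℕ), 0 < C ∧ ∀ n : ℕ, N ≤ n → ∀ m : ℕ, 2 * n ≤ m + 10 → m ≤ 2 * n + 10 →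
    |(Nat.primeCounting m : ℝ) - 2 * (n / Real.log n)| ≤ C * (n / Real.log n ^ 2) := by
  obtain ⟨C, N, hC, h⟩ := pi_asym
  obtain ⟨N₂, h2⟩ := evLog 2
  refine ⟨3 * C + 14, N + N₂ + 20, by positivity, fun n hn m hm1 hm2 => ?_⟩
  have hl := h2 n (by omega)
  have a1 := h m (by omega)
  set L := Real.log n with hL
  have hL0 : 0 < L := by linarith
  have hn0 : (0 : ℝ) < n := by exact_mod_cast (by omega : 0 < n)
  have hmn : (n : ℝ) ≤ m := by exact_mod_cast (by omega : n ≤ m)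
  have hmn3 : (m : ℝ) ≤ 3 * n := by exact_mod_cast (by omega : m ≤ 3 * n)
  have hm0 : (0 : ℝ) < m := hn0.trans_le hmn
  have k1 : L ≤ Real.log m := Real.log_le_log hn0 hmn
  have k2 : Real.log m ≤ 2 + L := by
    have e1 := Real.log_le_log hm0 hmn3
    rw [Real.log_mul (by norm_num) (by positivity)] at e1
    have e2 : Real.log 3 ≤ 2 := by
      have := Real.log_le_sub_one_of_pos (show (0 : ℝ) < 3 by norm_num)
      linarith
    linarith
  set K := Real.log m with hK
  have hK0 : 0 < K := by linarith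
  have hLn : L ≤ n := by
    have := Real.log_le_sub_one_of_pos hn0
    linarith
  have a2 : C * (m / K ^ 2) ≤ 3 * C * (n / L ^ 2) := by
    have e1 : (m : ℝ) / K ^ 2 ≤ (3 * n) / L ^ 2 :=
      div_le_div₀ (by positivity) hmn3 (by positivity) (pow_le_pow_left₀ hL0.le k1 2)
    have e2 := mul_le_mul_of_nonneg_left e1 hC.le
    refine e2.trans (le_of_eq ?_)
    ring
  have a3 : |(m : ℝ) / K - 2 * (n / L)| ≤ 14 * (n / L ^ 2) := by
    have e0 : (m : ℝ) / K - 2 * (n / L) = (m - 2 * n) / K + 2 * n * (1 / K - 1 / L) := by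
      field_simp
      ring
    have e1 : |((m : ℝ) - 2 * n) / K| ≤ 10 * (n / L ^ 2) := by
      rw [abs_div, abs_of_pos hK0, div_le_iff₀ hK0]
      have f1 : |(m : ℝ) - 2 * n| ≤ 10 := by
        rw [abs_le]
        have g1 : (2 : ℝ) * n ≤ m + 10 := by exact_mod_cast hm1
        have g2 : (m : ℝ) ≤ 2 * n + 10 := by exact_mod_cast hm2
        constructor <;> linarith
      have f2 : 1 ≤ (n / L ^ 2) * K := by
        have f3 : (n / L ^ 2) * L = n / L := by field_simp
        have f4 : (n / L ^ 2) * L ≤ (n / L ^ 2) * K := mul_le_mul_of_nonneg_left k1 (by positivity)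
        have f5 : 1 ≤ (n : ℝ) / L := by rw [le_div_iff₀ hL0]; linarith
        linarith
      linarith
    have e2 : |2 * (n : ℝ) * (1 / K - 1 / L)| ≤ 4 * (n / L ^ 2) := by
      rw [abs_mul, abs_of_pos (by positivity : (0 : ℝ) < 2 * n)]
      have f1 : |1 / K - 1 / L| ≤ 2 / L ^ 2 := by
        have f2 : 1 / K ≤ 1 / L := one_div_le_one_div_of_le hL0 k1
        rw [abs_of_nonpos (by linarith)]
        have f3 : -(1 / K - 1 / L) = (K - L) / (K * L) := by
          field_simp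
          ring
        rw [f3, div_le_div_iff₀ (by positivity) (by positivity)]
        have f4 : (K - L) * L ^ 2 ≤ 2 * L ^ 2 := mul_le_mul_of_nonneg_right (by linarith) (by positivity)
        have f5 : L ^ 2 ≤ K * L := by nlinarith
        linarith
      have f6 := mul_le_mul_of_nonneg_left f1 (by positivity : (0 : ℝ) ≤ 2 * n)
      refine f6.trans (le_of_eq ?_)
      ring
    rw [e0]
    refine (abs_add_le _ _).trans ?_
    linarith
  have e : (Nat.primeCounting m : ℝ) - 2 * (n / L) = ((Nat.primeCounting m : ℝ) - m / K) + (m / K - 2 * (n / L)) := by ring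
  rw [e]
  refine (abs_add_le _ _).trans ?_
  linarith

/-- prime pairs with difference six -/
lemma pairs_six : ∃ (C : ℝ) (N : ℕ), 0 < C ∧ ∀ n : ℕ, N ≤ n →
    (((Icc 1 n).filter (fun x => (2 * x + 3).Prime ∧ (2 * x - 3).Prime)).card : ℝ) ≤ C * (n / Real.log n ^ 2) := by
  obtain ⟨C, hC, h⟩ := Pool.Agent.Helper112.E456.sieve_two
  obtain ⟨N₁, h1⟩ := evLog 1
  have hbig : ∃ N : ℕ, ∀ n : ℕ, N ≤ n → Real.log n ^ 2 ≤ n := by
    have h3 := (Real.isLittleO_pow_log_id_atTop (n := 2)).bound (c := 1) (by norm_num)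
    obtain ⟨n₀, h0⟩ := evN _ ((tendsto_natCast_atTop_atTop (R := ℝ)).eventually h3)
    refine ⟨n₀ + 3, fun n hn => ?_⟩
    have h6 := h0 n (by omega)
    rw [Real.norm_of_nonneg (by positivity), id, Real.norm_of_nonneg (by positivity), one_mul] at h6
    exact h6
  obtain ⟨N₂, h2⟩ := hbig
  refine ⟨3 + C * 9, N₁ + N₂ + 2, by positivity, fun n hn => ?_⟩
  have hl := h1 n (by omega)
  have hl2 := h2 n (by omega)
  have a1 := h 2 9 2 3 n (by norm_num) (by norm_num) (by norm_num) (by norm_num) (by norm_num) (by omega)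
  have hD : ((2 * 2 * (((2 * 3 : ℕ) : ℤ) - ((2 * 9 : ℕ) : ℤ)).natAbs : ℕ) : ℝ) /
        ((Nat.totient (2 * 2 * (((2 * 3 : ℕ) : ℤ) - ((2 * 9 : ℕ) : ℤ)).natAbs) : ℕ) : ℝ) = 3 := by
    have e1 : (2 * 2 * (((2 * 3 : ℕ) : ℤ) - ((2 * 9 : ℕ) : ℤ)).natAbs : ℕ) = 48 := by decide
    have e2 : Nat.totient 48 = 16 := by decide
    rw [e1, e2]
    norm_num
  rw [hD] at a1
  have h3 : ((Icc 1 n).filter (fun x => (2 * x + 3).Prime ∧ (2 * x - 3).Prime)).card ≤
      3 + ((Icc 1 n).filter (fun m => (2 * m + 9).Prime ∧ (2 * m + 3).Prime)).card := by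
    have e1 : (Icc 1 n).filter (fun x => (2 * x + 3).Prime ∧ (2 * x - 3).Prime) ⊆
        Icc 1 3 ∪ ((Icc 1 n).filter (fun m => (2 * m + 9).Prime ∧ (2 * m + 3).Prime)).image (fun m => m + 3) := by
      intro x hx
      rw [mem_filter, mem_Icc] at hx
      rw [mem_union, mem_Icc, mem_image]
      rcases Nat.lt_or_ge 3 x with h4 | h4
      · right
        obtain ⟨m, rfl⟩ : ∃ m, x = m + 3 := ⟨x - 3, by omega⟩
        refine ⟨m, ?_, rfl⟩
        rw [mem_filter, mem_Icc]
        have e2 : 2 * (m + 3) + 3 = 2 * m + 9 := by ring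
        have e3 : 2 * (m + 3) - 3 = 2 * m + 3 := by omega
        rw [e2, e3] at hx
        exact ⟨⟨by omega, by omega⟩, hx.2⟩
      · left
        exact ⟨hx.1.1, h4⟩
    refine (card_le_card e1).trans ((card_union_le _ _).trans ?_)
    rw [Nat.card_Icc]
    exact Nat.add_le_add_left card_image_le _
  have h4 : (((Icc 1 n).filter (fun x => (2 * x + 3).Prime ∧ (2 * x - 3).Prime)).card : ℝ) ≤
      3 + (((Icc 1 n).filter (fun m => (2 * m + 9).Prime ∧ (2 * m + 3).Prime)).card : ℝ) := by exact_mod_cast h3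
  have hL0 : 0 < Real.log n := by linarith
  have h5 : 1 ≤ (n : ℝ) / Real.log n ^ 2 := by
    rw [le_div_iff₀ (by positivity), one_mul]
    exact hl2
  have h6 : C * 3 ^ 2 * n / Real.log n ^ 2 = C * 9 * (n / Real.log n ^ 2) := by ring
  rw [h6] at a1
  linarith

end Pool.Agent.H76.GD
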