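import Pool.Agent.H76.GD.Upper
import Pool.Agent.H76.GD.Lower
import Pool.Agent.H76.GD.Pi

set_option autoImplicit false

/-!
# Counting
-/

namespace Pool.Agent.H76.GD

open Finset

lemma FF_mono {n : ℕ} {P Q : ℕ × ℕ → Prop} (h : ∀ p, p.1 ∈ Icc 1 n → p.2 ∈ Icc 1 n → P p → Q p) :
    (FF n P).card ≤ (FF n Q).card := by
  apply card_le_card
  intro p hp
  rw [mem_FF] at hp ⊢
  exact ⟨hp.1, h p hp.1.1 hp.1.2 hp.2⟩

lemma FF_or {n : ℕ} {P Q W : ℕ × ℕ → Prop} (h : ∀ p, p.1 ∈ Icc 1 n → p.2 ∈ Icc 1 n → P p → Q p ∨ W p) :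
    (FF n P).card ≤ (FF n Q).card + (FF n W).card := by
  classical
  refine (card_le_card ?_).trans (card_union_le _ _)
  intro p hp
  rw [mem_FF] at hp
  rw [mem_union, mem_FF, mem_FF]
  rcases h p hp.1.1 hp.1.2 hp.2 with h1 | h1
  · exact Or.inl ⟨hp.1, h1⟩
  · exact Or.inr ⟨hp.1, h1⟩

lemma card_primes (M : ℕ) : ((range (M + 1)).filter Nat.Prime).card = Nat.primeCounting M := by
  rw [Nat.primeCounting, Nat.primeCounting', Nat.count_eq_card_filter_range]

lemma two_primes (n M : ℕ) (f g : ℕ → ℕ → ℕ) (hf : ∀ x y, x ≤ n → y ≤ n → f x y ≤ M)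
    (hg : ∀ x y, x ≤ n → y ≤ n → g x y ≤ M)
    (hinj : ∀ x y x' y', 2 ≤ f x y → 2 ≤ g x y → 2 ≤ f x' y' → 2 ≤ g x' y' → f x y = f x' y' → g x y = g x' y' →
      x = x' ∧ y = y') :
    (FF n (fun p => (f p.1 p.2).Prime ∧ (g p.1 p.2).Prime)).card ≤ Nat.primeCounting M ^ 2 := by
  rw [← card_primes, sq, ← card_product]
  apply card_le_card_of_injOn (fun p => (f p.1 p.2, g p.1 p.2))
  · rintro ⟨x, y⟩ hp
    have hp' := mem_FF.1 (mem_coe.1 hp)
    obtain ⟨⟨h1, h2⟩, h3, h4⟩ := hp'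
    simp only at h1 h2 h3 h4
    rw [mem_Icc] at h1 h2
    simp only [coe_product, coe_filter, Set.mem_prod, Set.mem_ofPred_eq, mem_range]
    exact ⟨⟨Nat.lt_succ_of_le (hf x y h1.2 h2.2), h3⟩, ⟨Nat.lt_succ_of_le (hg x y h1.2 h2.2), h4⟩⟩
  · rintro ⟨x, y⟩ hp ⟨x', y'⟩ hq hpq
    have hp' := (mem_FF.1 (mem_coe.1 hp)).2
    have hq' := (mem_FF.1 (mem_coe.1 hq)).2
    simp only [Prod.mk.injEq] at hpq hp' hq'
    obtain ⟨e1, e2⟩ := hinj x y x' y' hp'.1.two_le hp'.2.two_le hq'.1.two_le hq'.2.two_le hpq.1 hpq.2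
    rw [e1, e2]

lemma F_card (n i : ℕ) (hi : i < 19) :
    (FF n (fun p => (F1 i p.1 p.2).Prime ∧ (F2 i p.1 p.2).Prime)).card ≤ 2 * Nat.primeCounting (2 * n + 8) ^ 2 := by
  have hz : 0 ≤ Nat.primeCounting (2 * n + 8) ^ 2 := Nat.zero_le _
  rcases Nat.eq_zero_or_pos i with rfl | hi0
  · have h1 : (FF n (fun p => (F1 0 p.1 p.2).Prime ∧ (F2 0 p.1 p.2).Prime)).card ≤
        (FF n (fun p => (p.1 + p.2).Prime ∧ (p.1 - p.2).Prime)).card +
        (FF n (fun p => (p.1 + p.2).Prime ∧ (p.2 - p.1).Prime)).card := by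
      apply FF_or
      rintro ⟨x, y⟩ _ _ ⟨h1, h2⟩
      simp only [F1, F2, Nat.dist] at h1 h2 ⊢
      rcases le_total x y with h | h
      · right
        have e : x - y = 0 := by omega
        rw [e, zero_add] at h2
        exact ⟨h1, h2⟩
      · left
        have e : y - x = 0 := by omega
        rw [e, add_zero] at h2
        exact ⟨h1, h2⟩
    have h2 := two_primes n (2 * n + 8) (fun x y => x + y) (fun x y => x - y) (by intros; omega)
      (by intros; omega) (by intros; omega)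
    have h3 := two_primes n (2 * n + 8) (fun x y => x + y) (fun x y => y - x) (by intros; omega)
      (by intros; omega) (by intros; omega)
    omega
  · have h := two_primes n (2 * n + 8) (F1 i) (F2 i) (by
      intro x y hx hy
      interval_cases i <;> simp only [F1] <;> omega) (by
      intro x y hx hy
      interval_cases i <;> simp only [F2] <;> omega) (by
      intro x y x' y' h1 h2 h3 h4 h5 h6
      interval_cases i <;> simp only [F1, F2] at h1 h2 h3 h4 h5 h6 <;> omega)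
    omega

lemma F1_big {i x y : ℕ} (h : (F1 i x y).Prime) : i < 19 := by
  by_contra hc
  have h1 : F1 i x y = 0 := by
    unfold F1
    split <;> first | rfl | omega
  rw [h1] at h
  exact Nat.not_prime_zero h

lemma FF_x (n : ℕ) : (FF n (fun p => p.1 ≤ 20)).card ≤ 20 * n := by
  have h : FF n (fun p => p.1 ≤ 20) ⊆ (Icc 1 20) ×ˢ (Icc 1 n) := by
    intro p hp
    rw [mem_FF] at hp
    rw [mem_product, mem_Icc]
    have := mem_Icc.1 hp.1.1
    exact ⟨⟨this.1, hp.2⟩, hp.1.2⟩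
  refine (card_le_card h).trans ?_
  rw [card_product, Nat.card_Icc, Nat.card_Icc]
  simp

lemma FF_y (n : ℕ) : (FF n (fun p => p.2 ≤ 20)).card ≤ 20 * n := by
  have h : FF n (fun p => p.2 ≤ 20) ⊆ (Icc 1 n) ×ˢ (Icc 1 20) := by
    intro p hp
    rw [mem_FF] at hp
    rw [mem_product]
    have := mem_Icc.1 hp.1.2
    exact ⟨hp.1.1, mem_Icc.2 ⟨this.1, hp.2⟩⟩
  refine (card_le_card h).trans ?_
  rw [card_product, Nat.card_Icc, Nat.card_Icc]
  simp [mul_comm]

lemma FF_d (n : ℕ) : (FF n (fun p => Nat.dist p.1 p.2 ≤ 20)).card ≤ 41 * n := by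
  have h : FF n (fun p => Nat.dist p.1 p.2 ≤ 20) ⊆
      ((Icc 1 n) ×ˢ (range 41)).image (fun q => (q.1, q.1 + q.2 - 20)) := by
    rintro ⟨x, y⟩ hp
    rw [mem_FF] at hp
    obtain ⟨⟨h1, h2⟩, h3⟩ := hp
    simp only [Nat.dist] at h1 h2 h3
    rw [mem_Icc] at h1 h2
    rw [mem_image]
    refine ⟨(x, y + 20 - x), ?_, ?_⟩
    · rw [mem_product, mem_Icc, mem_range]
      exact ⟨h1, by simp only; omega⟩
    · simp only [Prod.mk.injEq, true_and]
      omega
  refine (card_le_card h).trans (card_image_le.trans ?_)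
  rw [card_product, Nat.card_Icc, card_range]
  simp [mul_comm]

/-- the number of the exceptional pairs -/
lemma Ex_card (n : ℕ) : (FF n (fun p => Ex p.1 p.2)).card ≤ 81 * n + 38 * Nat.primeCounting (2 * n + 8) ^ 2 := by
  classical
  have h1 : (FF n (fun p => Ex p.1 p.2)).card ≤ (FF n (fun p => p.1 ≤ 20)).card + ((FF n (fun p => p.2 ≤ 20)).card +
      ((FF n (fun p => Nat.dist p.1 p.2 ≤ 20)).card +
      (FF n (fun p => ∃ i, (F1 i p.1 p.2).Prime ∧ (F2 i p.1 p.2).Prime)).card)) := by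
    refine (FF_or (fun p _ _ h => h)).trans (Nat.add_le_add_left ?_ _)
    refine (FF_or (fun p _ _ h => h)).trans (Nat.add_le_add_left ?_ _)
    exact FF_or (fun p _ _ h => h)
  have h2 : (FF n (fun p => ∃ i, (F1 i p.1 p.2).Prime ∧ (F2 i p.1 p.2).Prime)).card ≤
      ∑ i ∈ range 19, (FF n (fun p => (F1 i p.1 p.2).Prime ∧ (F2 i p.1 p.2).Prime)).card := by
    refine (card_le_card ?_).trans card_biUnion_le
    intro p hp
    rw [mem_FF] at hp
    obtain ⟨hp, i, hi⟩ := hp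
    rw [mem_biUnion]
    exact ⟨i, mem_range.2 (F1_big hi.1), mem_FF.2 ⟨hp, hi⟩⟩
  have h3 : ∑ i ∈ range 19, (FF n (fun p => (F1 i p.1 p.2).Prime ∧ (F2 i p.1 p.2).Prime)).card ≤
      ∑ i ∈ range 19, 2 * Nat.primeCounting (2 * n + 8) ^ 2 :=
    sum_le_sum (fun i hi => F_card n i (mem_range.1 hi))
  rw [sum_const, card_range, smul_eq_mul] at h3
  have h4 := FF_x n
  have h5 := FF_y n
  have h6 := FF_d n
  omega

/-- the number of the elements of a residue class -/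
lemma cls (n r v : ℕ) (hr : 0 < r) (hv : v < r) :
    |(((Icc 1 n).filter (fun x => x % r = v)).card : ℝ) - n / r| ≤ 1 := by
  have h1 : (Icc 1 n).filter (fun x => x % r = v) = (Ioc 0 n).filter (fun x => x ≡ v [MOD r]) := by
    ext x
    rw [mem_filter, mem_filter, mem_Icc, mem_Ioc, Nat.ModEq, Nat.mod_eq_of_lt hv]
    exact ⟨fun h => ⟨⟨by omega, h.1.2⟩, h.2⟩, fun h => ⟨⟨by omega, h.1.2⟩, h.2⟩⟩
  have h2 := Nat.Ioc_filter_modEq_card 0 n hr v
  rw [← h1] at h2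
  have hr0 : (0 : ℚ) < r := by exact_mod_cast hr
  have e0 : (((Icc 1 n).filter (fun x => x % r = v)).card : ℚ) =
      ((max (⌊((n : ℚ) - v) / r⌋ - ⌊(((0 : ℕ) : ℚ) - v) / r⌋) 0 : ℤ) : ℚ) := by
    rw [← h2]
    push_cast
    rfl
  have f1 := Int.floor_le (((n : ℚ) - v) / r)
  have f2 := Int.lt_floor_add_one (((n : ℚ) - v) / r)
  have f3 := Int.floor_le ((((0 : ℕ) : ℚ) - v) / r)
  have f4 := Int.lt_floor_add_one ((((0 : ℕ) : ℚ) - v) / r)
  have e1 : ((n : ℚ) - v) / r - (((0 : ℕ) : ℚ) - v) / r = n / r := by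
    push_cast
    ring
  have e2 : (0 : ℚ) ≤ (n : ℚ) / r := by positivity
  have key : |(((Icc 1 n).filter (fun x => x % r = v)).card : ℚ) - n / r| ≤ 1 := by
    rw [e0]
    push_cast
    rw [abs_le]
    have g1 : ((⌊((n : ℚ) - v) / r⌋ : ℤ) : ℚ) - ((⌊(((0 : ℕ) : ℚ) - v) / r⌋ : ℤ) : ℚ) ≤ n / r + 1 := by linarith
    have g2 : (n : ℚ) / r - 1 ≤ ((⌊((n : ℚ) - v) / r⌋ : ℤ) : ℚ) - ((⌊(((0 : ℕ) : ℚ) - v) / r⌋ : ℤ) : ℚ) := by linarith
    push_cast at g1 g2
    constructor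
    · have := le_max_left (((⌊((n : ℚ) - v) / r⌋ : ℤ) : ℚ) - ((⌊((0 : ℚ) - v) / r⌋ : ℤ) : ℚ)) 0
      linarith
    · have : max (((⌊((n : ℚ) - v) / r⌋ : ℤ) : ℚ) - ((⌊((0 : ℚ) - v) / r⌋ : ℤ) : ℚ)) 0 ≤ n / r + 1 :=
        max_le g1 (by linarith)
      linarith
  have := key
  have h5 : ((|(((Icc 1 n).filter (fun x => x % r = v)).card : ℚ) - n / r| : ℚ) : ℝ) ≤ ((1 : ℚ) : ℝ) := by
    exact_mod_cast this
  push_cast at h5
  exact h5

/-- the number of the pairs in a set of residue classes -/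
lemma res_card (n r : ℕ) (hr : 0 < r) (P : ℕ → ℕ → Prop) [DecidablePred (fun q : ℕ × ℕ => P q.1 q.2)]
    (hP : ∀ x y, P x y ↔ P (x % r) (y % r)) (hn : 1 ≤ n) :
    |((FF n (fun p => P p.1 p.2)).card : ℝ) -
      (((range r) ×ˢ (range r)).filter (fun q : ℕ × ℕ => P q.1 q.2)).card * (n / r) ^ 2| ≤ r ^ 2 * (3 * n) := by
  classical
  set N : ℕ → ℝ := fun i => (((Icc 1 n).filter (fun x => x % r = i)).card : ℝ) with hN
  set Q := ((range r) ×ˢ (range r)).filter (fun q : ℕ × ℕ => P q.1 q.2) with hQ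
  have h1 : (FF n (fun p => P p.1 p.2)).card = ∑ q ∈ Q, ((Icc 1 n).filter (fun x => x % r = q.1)).card *
      ((Icc 1 n).filter (fun x => x % r = q.2)).card := by
    rw [card_eq_sum_card_fiberwise (f := fun p => (p.1 % r, p.2 % r)) (t := Q)]
    · apply sum_congr rfl
      rintro ⟨i, j⟩ hq
      rw [hQ, mem_filter] at hq
      rw [← card_product]
      congr 1
      ext ⟨x, y⟩
      rw [mem_filter, mem_FF, mem_product, mem_filter, mem_filter]
      simp only [Prod.mk.injEq]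
      constructor
      · rintro ⟨⟨h1, -⟩, h2, h3⟩
        exact ⟨⟨h1.1, h2⟩, h1.2, h3⟩
      · rintro ⟨⟨h1, h2⟩, h3, h4⟩
        refine ⟨⟨⟨h1, h3⟩, ?_⟩, h2, h4⟩
        rw [hP, h2, h4]
        exact hq.2
    · rintro ⟨x, y⟩ hp
      have hp' := mem_FF.1 (mem_coe.1 hp)
      rw [hQ, mem_coe, mem_filter, mem_product, mem_range, mem_range]
      exact ⟨⟨Nat.mod_lt _ hr, Nat.mod_lt _ hr⟩, (hP _ _).1 hp'.2⟩
  rw [h1]
  push_cast
  have h2 : (Q.card : ℝ) * ((n : ℝ) / r) ^ 2 = ∑ q ∈ Q, ((n : ℝ) / r) ^ 2 := by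
    rw [sum_const, nsmul_eq_mul]
  rw [h2, ← sum_sub_distrib]
  refine (abs_sum_le_sum_abs _ _).trans ?_
  have h3 : ∀ q ∈ Q, |(((Icc 1 n).filter (fun x => x % r = q.1)).card : ℝ) *
      (((Icc 1 n).filter (fun x => x % r = q.2)).card : ℝ) - ((n : ℝ) / r) ^ 2| ≤ 3 * n := by
    rintro ⟨i, j⟩ hq
    rw [hQ, mem_filter, mem_product, mem_range, mem_range] at hq
    have a1 := cls n r i hr hq.1.1
    have a2 := cls n r j hr hq.1.2
    simp only
    set a := (((Icc 1 n).filter (fun x => x % r = i)).card : ℝ)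
    set b := (((Icc 1 n).filter (fun x => x % r = j)).card : ℝ)
    set t := (n : ℝ) / r with ht
    have hn1 : (1 : ℝ) ≤ n := by exact_mod_cast hn
    have hr1 : (1 : ℝ) ≤ r := by exact_mod_cast hr
    have ht0 : 0 ≤ t := by positivity
    have htn : t ≤ n := div_le_self (by linarith) hr1
    have e : a * b - t ^ 2 = (a - t) * (b - t) + t * (a - t) + t * (b - t) := by ring
    rw [e]
    have b1 : |(a - t) * (b - t)| ≤ 1 := by
      rw [abs_mul]
      exact mul_le_one₀ a1 (abs_nonneg _) a2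
    have b2 : |t * (a - t)| ≤ t := by
      rw [abs_mul, abs_of_nonneg ht0]
      exact mul_le_of_le_one_right ht0 a1
    have b3 : |t * (b - t)| ≤ t := by
      rw [abs_mul, abs_of_nonneg ht0]
      exact mul_le_of_le_one_right ht0 a2
    refine (abs_add_le _ _).trans ?_
    have := abs_add_le ((a - t) * (b - t)) (t * (a - t))
    linarith
  refine (sum_le_sum h3).trans ?_
  rw [sum_const, nsmul_eq_mul]
  have h4 : (Q.card : ℝ) ≤ r ^ 2 := by
    have : Q.card ≤ r * r := (card_filter_le _ _).trans (by rw [card_product, card_range])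
    have h5 : (Q.card : ℝ) ≤ (r : ℝ) * r := by exact_mod_cast this
    nlinarith
  exact mul_le_mul_of_nonneg_right h4 (by positivity)

lemma D_mod (x y : ℕ) : D x y = D (x % 30) (y % 30) := by
  have e1 : x % 30 % 2 = x % 2 := by omega
  have e2 : y % 30 % 2 = y % 2 := by omega
  have e3 : (3 ∣ x % 30) ↔ 3 ∣ x := by omega
  have e4 : (3 ∣ y % 30) ↔ 3 ∣ y := by omega
  have e5 : x % 30 % 5 = x % 5 := by omega
  have e6 : y % 30 % 5 = y % 5 := by omega
  unfold D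
  simp only [e1, e2, e3, e4, e5, e6]

lemma D2 : (((range 30) ×ˢ (range 30)).filter (fun q : ℕ × ℕ => D q.1 q.2 = 2)).card = 250 := by decide +kernel
lemma D3 : (((range 30) ×ˢ (range 30)).filter (fun q : ℕ × ℕ => D q.1 q.2 = 3)).card = 242 := by decide +kernel
lemma D4 : (((range 30) ×ˢ (range 30)).filter (fun q : ℕ × ℕ => D q.1 q.2 = 4)).card = 200 := by decide +kernel
lemma D5 : (((range 30) ×ˢ (range 30)).filter (fun q : ℕ × ℕ => D q.1 q.2 = 5)).card = 208 := by decide +kernel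

lemma D_card (n d : ℕ) (hn : 1 ≤ n) : |((FF n (fun p => D p.1 p.2 = d)).card : ℝ) -
      ((((range 30) ×ˢ (range 30)).filter (fun q : ℕ × ℕ => D q.1 q.2 = d)).card : ℝ) / 900 * (n : ℝ) ^ 2| ≤
      2700 * (n : ℝ) := by
  have h := res_card n 30 (by norm_num) (fun x y => D x y = d) (fun x y => by rw [← D_mod]) hn
  have e1 : ((((range 30) ×ˢ (range 30)).filter (fun q : ℕ × ℕ => D q.1 q.2 = d)).card : ℝ) * ((n : ℝ) / ((30 : ℕ) : ℝ)) ^ 2 =
      ((((range 30) ×ˢ (range 30)).filter (fun q : ℕ × ℕ => D q.1 q.2 = d)).card : ℝ) / 900 * (n : ℝ) ^ 2 := by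
    push_cast
    ring
  rw [e1] at h
  refine h.trans (le_of_eq ?_)
  push_cast
  ring

end Pool.Agent.H76.GD
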