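import Pool.Graph.R_pool_sql_team_seeded_b677cdb8.E8helper28.GB.Five

set_option autoImplicit false

/-!
# The combinatorial part for the upper bounds: paths of length three, four and five
-/

namespace Pool.Agent.H76.GD

open Finset
open Pool.Agent.R521.GG (R dg)
open Pool.Agent.E8helper66.GB (Same Path S_TWO S_BR)
open Pool.Agent.E8helper28.GB

/-- enlarge the set of the inner vertices -/
theorem path_sub {X Y : Finset ℕ} (h : X ⊆ Y) : ∀ {r a b : ℕ}, Path X r a b → Path Y r a b := by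
  intro r
  induction r with
  | zero => intro a b h1; exact h1
  | succ r ih =>
    intro a b h1
    rcases h1 with h1 | ⟨v, hv, h3, h4⟩
    · exact Or.inl (ih h1)
    · exact Or.inr ⟨v, h hv, h3, ih h4⟩

/-- the combinatorial part for given numbers -/
theorem core {X : Finset ℕ} {n : ℕ} {m : ℝ} (hX : X ⊆ Icc 1 n) (hm : 0 < m)
    (h2 : ∀ a ∈ X, ∀ S ⊆ Icc 1 n, (∀ x ∈ S, Same a x) → m ≤ S.card → ∃ x ∈ S, ∃ b ∈ X, R a b ∧ R x b)
    (hN : ∀ a ∈ X, m ≤ ((NX X a).card : ℝ))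
    (hB : ∀ a ∈ X, 3 ∣ a → m ≤ ((X.filter (fun b => b + 3 ∈ X ∧ R a b ∧ (2 * b + 3).Prime)).card : ℝ)) :
    (∀ a ∈ X, ∀ c ∈ X, a % 2 ≠ c % 2 → ¬ (3 ∣ a ↔ 3 ∣ c) → Path X 3 a c) ∧
    (∀ a ∈ X, ∀ c ∈ X, a % 2 = c % 2 → ¬ (3 ∣ a ↔ 3 ∣ c) → Path X 4 a c) ∧
    ∀ a ∈ X, ∀ c ∈ X, Path X 5 a c := by
  have hpos : ∀ a ∈ X, 1 ≤ a := fun a ha => (mem_Icc.1 (hX ha)).1
  have hsub : ∀ a, NX X a ⊆ Icc 1 n := fun a b hb => hX (mem_NX.1 hb).1
  -- case (ii)
  have hii : ∀ a ∈ X, ∀ c ∈ X, a % 2 ≠ c % 2 → (3 ∣ a ↔ ¬ 3 ∣ c) → Path X 3 a c := by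
    intro a ha c hc hac1 hac2
    obtain ⟨x, hx, b, hb, hub, hxb⟩ := h2 a ha (NX X c) (hsub c) (by
      intro x hx
      have hx' := mem_NX.1 hx
      have hpx := R_parity hx'.2.1
      refine ⟨by omega, ?_⟩
      rw [hx'.2.2, hac2]) (hN c hc)
    have hx' := mem_NX.1 hx
    exact path_cons hb hub (path_cons hx'.1 (R_symm hxb) (path_one hc (R_symm hx'.2.1)))
  -- case (iv)
  have hiv : ∀ a ∈ X, ∀ c ∈ X, a % 2 = c % 2 → 3 ∣ a → ¬ 3 ∣ c → Path X 4 a c := by
    intro a ha c hc hpar h3a h3c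
    obtain ⟨x, hx, w, hw, hcw, hxw⟩ := h2 c hc
      ((X.filter (fun b => b + 3 ∈ X ∧ R a b ∧ (2 * b + 3).Prime)).image (fun b => b + 3)) (by
        intro y hy
        rw [mem_image] at hy
        obtain ⟨b, hb, rfl⟩ := hy
        rw [mem_filter] at hb
        exact hX hb.2.1) (by
        intro y hy
        rw [mem_image] at hy
        obtain ⟨b, hb, rfl⟩ := hy
        rw [mem_filter] at hb
        have h6 := R_three (hpos a ha) (hpos b hb.1) hb.2.2.1 h3a
        have h7 := R_parity hb.2.2.1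
        refine ⟨by omega, ?_⟩
        constructor
        · intro h8
          exact absurd h8 h3c
        · intro h8
          exact absurd ((Nat.dvd_add_left (dvd_refl 3)).1 h8) h6) (by
        rw [card_image_of_injective _ (add_left_injective 3)]
        exact hB a ha h3a)
    rw [mem_image] at hx
    obtain ⟨b, hb, rfl⟩ := hx
    rw [mem_filter] at hb
    have hR : R b (b + 3) := by
      have h8 : b + (b + 3) = 2 * b + 3 := by ring
      have h9 : Nat.dist b (b + 3) = 3 := by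
        rw [Nat.dist_eq_sub_of_le (by omega)]
        omega
      unfold R
      rw [h8, h9]
      exact ⟨⟨hb.2.2.2, ⟨b + 1, by ring⟩⟩, Nat.prime_three, by decide⟩
    exact path_cons hb.1 hb.2.2.1 (path_cons hb.2.1 hR (path_cons hw hxw (path_one hc (R_symm hcw))))
  refine ⟨fun a ha c hc h1 h3 => hii a ha c hc h1 (by tauto), fun a ha c hc h1 h3 => ?_, five_core hX hm h2 hN hB⟩
  by_cases h3a : 3 ∣ a
  · exact hiv a ha c hc h1 h3a (by tauto)
  · exact path_symm hc (hiv c hc a ha h1.symm (by tauto) h3a)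

theorem core_of (h1 : S_TWO) (h2 : S_BR) (U : ℕ) : ∃ n₀ : ℕ, ∀ n : ℕ, n₀ ≤ n → ∃ E ⊆ Icc 1 n,
    (E.card : ℝ) ≤ n / Real.log n ^ U ∧
    (∀ X ⊆ Icc 1 n, Disjoint X E → ((Icc 1 n \ X).card : ℝ) ≤ n / Real.log n ^ 6 →
    (∀ a ∈ X, (n : ℝ) / Real.log n ^ 3 ≤ dg X a) →
    (∀ a ∈ X, ∀ c ∈ X, a % 2 ≠ c % 2 → ¬ (3 ∣ a ↔ 3 ∣ c) → Path X 3 a c) ∧
    (∀ a ∈ X, ∀ c ∈ X, a % 2 = c % 2 → ¬ (3 ∣ a ↔ 3 ∣ c) → Path X 4 a c) ∧
    ∀ a ∈ X, ∀ c ∈ X, Path X 5 a c) ∧
    ∀ a ∈ Icc 1 n, a ∉ E → ∀ S ⊆ Icc 1 n, (∀ x ∈ S, Same a x) → (n : ℝ) / Real.log n ^ U ≤ S.card →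
      ∃ x ∈ S, ∃ b ∈ Icc 1 n, R a b ∧ R x b := by
  obtain ⟨n₁, hn₁⟩ := h1 (max U 10 + 2)
  obtain ⟨n₂, hn₂⟩ := h2 (max U 10 + 2)
  have hlog : Filter.Tendsto (fun n : ℕ => Real.log n) Filter.atTop Filter.atTop :=
    Real.tendsto_log_atTop.comp tendsto_natCast_atTop_atTop
  have ht : Filter.Tendsto (fun n : ℕ => Real.log n ^ 3 / (n : ℝ)) Filter.atTop (nhds 0) := by
    have h3 := Real.isLittleO_pow_log_id_atTop (n := 3)
    have h4 := h3.tendsto_div_nhds_zero.comp tendsto_natCast_atTop_atTop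
    exact h4
  obtain ⟨n₃, hn₃⟩ := Filter.eventually_atTop.1 ((hlog.eventually (Filter.eventually_ge_atTop 2)).and
    (ht.eventually (gt_mem_nhds (show (0 : ℝ) < 1 / 6 by norm_num))))
  refine ⟨max (max n₁ n₂) (max n₃ 1), fun n hn => ?_⟩
  have hna : n₁ ≤ n := (le_max_left _ _).trans ((le_max_left _ _).trans hn)
  have hnb : n₂ ≤ n := (le_max_right _ _).trans ((le_max_left _ _).trans hn)
  have hnc : n₃ ≤ n := (le_max_left _ _).trans ((le_max_right _ _).trans hn)
  have hnd : 1 ≤ n := (le_max_right _ _).trans ((le_max_right _ _).trans hn)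
  obtain ⟨hL, hL3⟩ := hn₃ n hnc
  obtain ⟨E1, hE1, hE1c, hE1p⟩ := hn₁ n hna
  obtain ⟨E2, hE2, hE2c, hE2p⟩ := hn₂ n hnb
  set L := Real.log n with hLdef
  have hn0 : (0 : ℝ) < n := by exact_mod_cast hnd
  have hL0 : 0 < L := by linarith
  set V := max U 10 + 2 with hV
  have hVU : U + 2 ≤ V := by
    have := le_max_left U 10
    omega
  have hV12 : 12 ≤ V := by
    have := le_max_right U 10
    omega
  have hpow : ∀ k l : ℕ, k ≤ l → L ^ k ≤ L ^ l := fun k l hkl => pow_le_pow_right₀ (by linarith) hkl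
  have hmpos : 0 < (n : ℝ) / L ^ V := by positivity
  -- 4 n / L ^ V ≤ n / L ^ k for k + 2 ≤ V
  have hfour : ∀ k : ℕ, k + 2 ≤ V → 4 * (n / L ^ V) ≤ (n : ℝ) / L ^ k := by
    intro k hk
    have h5 : 4 * L ^ k ≤ L ^ V := by
      calc 4 * L ^ k ≤ L ^ 2 * L ^ k := by
            refine mul_le_mul_of_nonneg_right ?_ (by positivity)
            nlinarith
        _ = L ^ (k + 2) := by ring
        _ ≤ L ^ V := hpow _ _ hk
    rw [← mul_div_assoc, div_le_div_iff₀ (by positivity) (by positivity)]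
    nlinarith
  refine ⟨E1 ∪ E2, union_subset hE1 hE2, ?_, ?_, ?_⟩
  · have h5 : ((E1 ∪ E2).card : ℝ) ≤ E1.card + E2.card := by exact_mod_cast card_union_le _ _
    have h6 := hfour U hVU
    linarith
  · intro X hX hdis hXc hdeg
    have hXc5 : ((Icc 1 n \ X).card : ℝ) ≤ n / L ^ 5 := by
      refine hXc.trans ?_
      exact div_le_div_of_nonneg_left hn0.le (by positivity) (hpow 5 6 (by norm_num))
    refine core hX hmpos (fun a ha S hS hSc hSm => ?_) (fun a ha => ?_) (fun a ha h3a => ?_)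
    · refine hE1p X hX hXc5 a (hX ha) ?_ S hS hSc hSm
      intro h7
      exact (disjoint_left.1 hdis ha) (mem_union_left _ h7)
    · have h7 := hdeg a ha
      have h8 : (dg X a : ℝ) ≤ (NX X a).card + 3 := by
        exact_mod_cast card_NX hX (mem_Icc.1 (hX ha)).1
      have h9 := hfour 3 (by omega)
      have h10 : 6 ≤ (n : ℝ) / L ^ 3 := by
        rw [le_div_iff₀ (by positivity)]
        rw [div_lt_div_iff₀ hn0 (by norm_num)] at hL3
        linarith
      linarith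
    · have h7 := hE2p a (hX ha) (fun h => (disjoint_left.1 hdis ha) (mem_union_right _ h)) h3a
      have h8 : ((Icc 1 n).filter (fun b => b + 3 ≤ n ∧ R a b ∧ (2 * b + 3).Prime)) ⊆
          (X.filter (fun b => b + 3 ∈ X ∧ R a b ∧ (2 * b + 3).Prime)) ∪ ((Icc 1 n \ X) ∪
            ((Icc 1 n \ X).image (fun y => y - 3))) := by
        intro b hb
        rw [mem_filter] at hb
        rw [mem_union, mem_union, mem_filter]
        by_cases h9 : b ∈ X
        · by_cases h10 : b + 3 ∈ X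
          · left
            exact ⟨h9, h10, hb.2.2⟩
          · right
            right
            rw [mem_image]
            refine ⟨b + 3, ?_, by omega⟩
            rw [mem_sdiff, mem_Icc]
            exact ⟨⟨by omega, hb.2.1⟩, h10⟩
        · right
          left
          rw [mem_sdiff]
          exact ⟨hb.1, h9⟩
      have h9 : ((((Icc 1 n).filter (fun b => b + 3 ≤ n ∧ R a b ∧ (2 * b + 3).Prime)).card : ℕ) : ℝ) ≤
          ((X.filter (fun b => b + 3 ∈ X ∧ R a b ∧ (2 * b + 3).Prime)).card : ℝ) + (((Icc 1 n \ X).card : ℝ) +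
            ((Icc 1 n \ X).card : ℝ)) := by
        have h10 := (card_le_card h8).trans ((card_union_le _ _).trans
          (add_le_add le_rfl ((card_union_le _ _).trans (add_le_add le_rfl card_image_le))))
        exact_mod_cast h10
      have h10 : 4 * ((n : ℝ) / L ^ 6) ≤ n / L ^ 4 := by
        rw [← mul_div_assoc, div_le_div_iff₀ (by positivity) (by positivity)]
        have h11 : 4 * L ^ 4 ≤ L ^ 6 := by
          calc 4 * L ^ 4 ≤ L ^ 2 * L ^ 4 := by
                refine mul_le_mul_of_nonneg_right ?_ (by positivity)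
                nlinarith
            _ = L ^ 6 := by ring
        nlinarith
      have h11 := hfour 4 (by omega)
      linarith
  · intro a ha haE S hS hSc hSm
    have h5 : ((Icc 1 n \ Icc 1 n).card : ℝ) ≤ n / L ^ 5 := by
      rw [sdiff_self]
      simp only [bot_eq_empty, card_empty, Nat.cast_zero]
      positivity
    refine hE1p (Icc 1 n) (Subset.refl _) h5 a ha (fun h => haE (mem_union_left _ h)) S hS hSc ?_
    refine le_trans ?_ hSm
    have h6 := hfour U hVU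
    linarith

end Pool.Agent.H76.GD
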