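import Mathlib

set_option autoImplicit false

/-!
# The predicted distances
-/

namespace Pool.Agent.H76.GD

/-- The distance predicted by the residues modulo thirty. -/
def D (x y : ℕ) : ℕ :=
  if x % 2 = y % 2 then (if (3 ∣ x ↔ 3 ∣ y) then 2 else 4)
  else if ¬ (3 ∣ x ↔ 3 ∣ y) then 3
  else if 3 ∣ x ∧ ¬ ((x % 5 = 2 ∨ x % 5 = 3) ∧ (y % 5 = 2 ∨ y % 5 = 3)) then 3
  else 5

/-- One of `x + 3`, `x - 3` might be a neighbour of `x`. -/
def SP (x : ℕ) : Prop := (2 * x + 3).Prime ∨ (2 * x - 3).Prime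

instance (x : ℕ) : Decidable (SP x) := by unfold SP; infer_instance

/-- Opposite parity, both not divisible by three, and one of the two has a special neighbour. -/
def Sht (x y : ℕ) : Prop := x % 2 ≠ y % 2 ∧ ¬ 3 ∣ x ∧ ¬ 3 ∣ y ∧ (SP x ∨ SP y)

instance (x y : ℕ) : Decidable (Sht x y) := by unfold Sht; infer_instance

/-- The refined prediction. -/
def D' (x y : ℕ) : ℕ := if Sht x y then 3 else D x y

end Pool.Agent.H76.GD
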