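import Pool.Agent.H76.GD.ShtC

set_option autoImplicit false

/-!
# The law of the distances for a graph on the halves
-/

namespace Pool.Agent.H76.GD

open Finset
open Pool.Agent.R521.GG (R dg)
open Pool.Agent.E8helper66.GB (Path S_TWO S_BR S_ESTW)

/-- a graph whose vertices are given by numbers up to `n`, with the edges of the relation `R` and at most those
of the relation `A` -/
structure Model {V : Type} (G : SimpleGraph V) (n : ℕ) (φ : ℕ → V) (h : V → ℕ) : Prop where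
  hφ : ∀ m ∈ Icc 1 n, h (φ m) = m
  hinj : Function.Injective h
  hbig : ∀ v, h v ≤ n
  hadj : ∀ a ∈ Icc 1 n, ∀ b ∈ Icc 1 n, R a b → G.Adj (φ a) (φ b)
  hG : ∀ u v, G.Adj u v → A (h u) (h v)

variable {V : Type} {G : SimpleGraph V} {n : ℕ} {φ : ℕ → V} {h : V → ℕ}

lemma Model.walk (M : Model G n φ h) (r : ℕ) : ∀ (a c : ℕ), a ∈ Icc 1 n → Path (Icc 1 n) r a c →
    ∃ w : G.Walk (φ a) (φ c), w.length ≤ r := by
  induction r with
  | zero =>
    intro a c ha hp
    have h1 : a = c := hp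
    subst h1
    exact ⟨SimpleGraph.Walk.nil, le_rfl⟩
  | succ r ih =>
    intro a c ha hp
    rcases hp with hp | ⟨v, hv, hR, hp⟩
    · obtain ⟨w, hw⟩ := ih a c ha hp
      exact ⟨w, by omega⟩
    · obtain ⟨w, hw⟩ := ih v c hv hp
      refine ⟨SimpleGraph.Walk.cons (M.hadj a ha v hv hR) w, ?_⟩
      rw [SimpleGraph.Walk.length_cons]
      omega

lemma Model.eq (M : Model G n φ h) {v : V} (hv : 1 ≤ h v) : φ (h v) = v :=
  M.hinj (M.hφ _ (mem_Icc.2 ⟨hv, M.hbig v⟩))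

lemma Model.upper (M : Model G n φ h) {a c : ℕ} (ha : a ∈ Icc 1 n) (hc : c ∈ Icc 1 n) (hb : (a, c) ∉ BadU n) :
    G.edist (φ a) (φ c) ≤ (D' a c : ℕ∞) := by
  have hp : Path (Icc 1 n) (D' a c) a c := by
    by_contra hcon
    exact hb (mem_FF.2 ⟨⟨ha, hc⟩, hcon⟩)
  obtain ⟨w, hw⟩ := M.walk _ a c ha hp
  refine (SimpleGraph.edist_le w).trans ?_
  exact_mod_cast hw

lemma Model.lower (M : Model G n φ h) {a c : ℕ} (ha : a ∈ Icc 1 n) (hc : c ∈ Icc 1 n) (hE : ¬ Ex a c) :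
    (D' a c : ℕ∞) ≤ G.edist (φ a) (φ c) := by
  have h1 := edist_lower G h M.hG (φ a) (φ c) (by rw [M.hφ a ha, M.hφ c hc]; exact hE)
  rwa [M.hφ a ha, M.hφ c hc] at h1

lemma zero_card (n : ℕ) : (({0} : Finset ℕ) ×ˢ (range (n + 1)) ∪ (range (n + 1)) ×ˢ ({0} : Finset ℕ)).card ≤ 2 * n + 2 := by
  refine (card_union_le _ _).trans ?_
  rw [card_product, card_product, card_range, card_singleton]
  omega

lemma Model.transfer_le (M : Model G n φ h) (P : ℕ∞ → ℕ → ℕ → Prop) :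
    ({p : V × V | P (G.edist p.1 p.2) (h p.1) (h p.2)}.ncard) ≤
      (FF n (fun p => P (D' p.1 p.2 : ℕ∞) p.1 p.2)).card + (BadU n).card + (FF n (fun p => Ex p.1 p.2)).card + (2 * n + 2) := by
  classical
  have hinj : Function.Injective (fun p : V × V => (h p.1, h p.2)) := by
    intro p q hpq
    simp only [Prod.mk.injEq] at hpq
    exact Prod.ext (M.hinj hpq.1) (M.hinj hpq.2)
  rw [← Set.ncard_image_of_injective _ hinj]
  have hsub : (fun p : V × V => (h p.1, h p.2)) '' {p : V × V | P (G.edist p.1 p.2) (h p.1) (h p.2)} ⊆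
      ((FF n (fun p => P (D' p.1 p.2 : ℕ∞) p.1 p.2) ∪ BadU n ∪ FF n (fun p => Ex p.1 p.2) ∪
        (({0} : Finset ℕ) ×ˢ (range (n + 1)) ∪ (range (n + 1)) ×ˢ ({0} : Finset ℕ)) : Finset (ℕ × ℕ)) : Set (ℕ × ℕ)) := by
    rintro q ⟨⟨u, v⟩, hp, rfl⟩
    have hp' : P (G.edist u v) (h u) (h v) := hp
    rw [mem_coe]
    simp only
    have hu := M.hbig u
    have hv := M.hbig v
    rcases Nat.eq_zero_or_pos (h u) with hu0 | hu0
    · apply mem_union_right
      apply mem_union_left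
      rw [mem_product, mem_singleton, mem_range]
      exact ⟨hu0, by simp only; omega⟩
    rcases Nat.eq_zero_or_pos (h v) with hv0 | hv0
    · apply mem_union_right
      apply mem_union_right
      rw [mem_product, mem_singleton, mem_range]
      exact ⟨by simp only; omega, hv0⟩
    have hu1 : h u ∈ Icc 1 n := mem_Icc.2 ⟨hu0, hu⟩
    have hv1 : h v ∈ Icc 1 n := mem_Icc.2 ⟨hv0, hv⟩
    apply mem_union_left
    by_cases hE : Ex (h u) (h v)
    · apply mem_union_right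
      exact mem_FF.2 ⟨⟨hu1, hv1⟩, hE⟩
    apply mem_union_left
    by_cases hB : (h u, h v) ∈ BadU n
    · exact mem_union_right _ hB
    apply mem_union_left
    refine mem_FF.2 ⟨⟨hu1, hv1⟩, ?_⟩
    have e := le_antisymm (M.upper hu1 hv1 hB) (M.lower hu1 hv1 hE)
    rw [M.eq hu0, M.eq hv0] at e
    show P (D' (h u) (h v) : ℕ∞) (h u) (h v)
    rw [← e]
    exact hp'
  refine (Set.ncard_le_ncard hsub (Finset.finite_toSet _)).trans ?_
  rw [Set.ncard_coe_finset]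
  refine (card_union_le _ _).trans (add_le_add ?_ (zero_card n))
  refine (card_union_le _ _).trans (add_le_add ?_ le_rfl)
  exact card_union_le _ _

lemma Model.transfer_ge (M : Model G n φ h) (P : ℕ∞ → ℕ → ℕ → Prop) :
    (FF n (fun p => P (D' p.1 p.2 : ℕ∞) p.1 p.2)).card ≤
    ({p : V × V | P (G.edist p.1 p.2) (h p.1) (h p.2)}.ncard) + (BadU n).card + (FF n (fun p => Ex p.1 p.2)).card := by
  classical
  have hfin : Finite V := Finite.of_injective (fun v => (⟨h v, Nat.lt_succ_of_le (M.hbig v)⟩ : Fin (n + 1))) (by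
    intro u v huv
    exact M.hinj (Fin.mk.inj_iff.1 huv))
  have hinj : Function.Injective (fun p : V × V => (h p.1, h p.2)) := by
    intro p q hpq
    simp only [Prod.mk.injEq] at hpq
    exact Prod.ext (M.hinj hpq.1) (M.hinj hpq.2)
  rw [← Set.ncard_image_of_injective _ hinj, ← Set.ncard_coe_finset, ← Set.ncard_coe_finset (BadU n),
    ← Set.ncard_coe_finset (FF n (fun p => Ex p.1 p.2))]
  have hsub : ((FF n (fun p => P (D' p.1 p.2 : ℕ∞) p.1 p.2) : Finset (ℕ × ℕ)) : Set (ℕ × ℕ)) ⊆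
      ((fun p : V × V => (h p.1, h p.2)) '' {p : V × V | P (G.edist p.1 p.2) (h p.1) (h p.2)} ∪ (BadU n : Set (ℕ × ℕ))) ∪
        (FF n (fun p => Ex p.1 p.2) : Set (ℕ × ℕ)) := by
    rintro ⟨a, c⟩ hp
    rw [mem_coe, mem_FF] at hp
    obtain ⟨⟨ha, hc⟩, hp⟩ := hp
    simp only at ha hc hp
    by_cases hE : Ex a c
    · right
      rw [mem_coe]
      exact mem_FF.2 ⟨⟨ha, hc⟩, hE⟩
    left
    by_cases hB : (a, c) ∈ BadU n
    · right
      exact mem_coe.2 hB
    left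
    refine ⟨(φ a, φ c), ?_, by simp only [M.hφ a ha, M.hφ c hc]⟩
    have e := le_antisymm (M.upper ha hc hB) (M.lower ha hc hE)
    show P (G.edist (φ a) (φ c)) (h (φ a)) (h (φ c))
    rw [e, M.hφ a ha, M.hφ c hc]
    exact hp
  refine (Set.ncard_le_ncard hsub (Set.toFinite _)).trans ?_
  refine (Set.ncard_union_le _ _).trans (add_le_add ?_ le_rfl)
  exact Set.ncard_union_le _ _

lemma Model.transfer (M : Model G n φ h) (P : ℕ∞ → ℕ → ℕ → Prop) :
    |({p : V × V | P (G.edist p.1 p.2) (h p.1) (h p.2)}.ncard : ℝ) -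
      ((FF n (fun p => P (D' p.1 p.2 : ℕ∞) p.1 p.2)).card : ℝ)| ≤
      (BadU n).card + (FF n (fun p => Ex p.1 p.2)).card + (2 * n + 2) := by
  have h1 : ({p : V × V | P (G.edist p.1 p.2) (h p.1) (h p.2)}.ncard : ℝ) ≤
      (FF n (fun p => P (D' p.1 p.2 : ℕ∞) p.1 p.2)).card + (BadU n).card + (FF n (fun p => Ex p.1 p.2)).card + (2 * n + 2) := by
    exact_mod_cast M.transfer_le P
  have h2 : ((FF n (fun p => P (D' p.1 p.2 : ℕ∞) p.1 p.2)).card : ℝ) ≤
      ({p : V × V | P (G.edist p.1 p.2) (h p.1) (h p.2)}.ncard : ℝ) + (BadU n).card + (FF n (fun p => Ex p.1 p.2)).card := by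
    exact_mod_cast M.transfer_ge P
  have h3 : (0 : ℝ) ≤ n := Nat.cast_nonneg n
  rw [abs_le]
  constructor <;> linarith

lemma D'_le_D (x y : ℕ) : D' x y ≤ D x y := by
  unfold D'
  split_ifs with hS
  · unfold D
    rw [if_neg hS.1]
    split_ifs <;> omega
  · exact le_rfl

lemma Model.long (M : Model G n φ h) :
    ({p : V × V | (D (h p.1) (h p.2) : ℕ∞) < G.edist p.1 p.2}.ncard) ≤ (BadU n).card + (2 * n + 2) := by
  classical
  have hinj : Function.Injective (fun p : V × V => (h p.1, h p.2)) := by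
    intro p q hpq
    simp only [Prod.mk.injEq] at hpq
    exact Prod.ext (M.hinj hpq.1) (M.hinj hpq.2)
  rw [← Set.ncard_image_of_injective _ hinj]
  have hsub : (fun p : V × V => (h p.1, h p.2)) '' {p : V × V | (D (h p.1) (h p.2) : ℕ∞) < G.edist p.1 p.2} ⊆
      ((BadU n ∪ (({0} : Finset ℕ) ×ˢ (range (n + 1)) ∪ (range (n + 1)) ×ˢ ({0} : Finset ℕ)) : Finset (ℕ × ℕ)) :
        Set (ℕ × ℕ)) := by
    rintro q ⟨⟨u, v⟩, hp, rfl⟩
    have hp' : (D (h u) (h v) : ℕ∞) < G.edist u v := hp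
    rw [mem_coe]
    simp only
    have hu := M.hbig u
    have hv := M.hbig v
    rcases Nat.eq_zero_or_pos (h u) with hu0 | hu0
    · apply mem_union_right
      apply mem_union_left
      rw [mem_product, mem_singleton, mem_range]
      exact ⟨hu0, by simp only; omega⟩
    rcases Nat.eq_zero_or_pos (h v) with hv0 | hv0
    · apply mem_union_right
      apply mem_union_right
      rw [mem_product, mem_singleton, mem_range]
      exact ⟨by simp only; omega, hv0⟩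
    have hu1 : h u ∈ Icc 1 n := mem_Icc.2 ⟨hu0, hu⟩
    have hv1 : h v ∈ Icc 1 n := mem_Icc.2 ⟨hv0, hv⟩
    apply mem_union_left
    by_contra hB
    have e := M.upper hu1 hv1 hB
    rw [M.eq hu0, M.eq hv0] at e
    have e2 : (D' (h u) (h v) : ℕ∞) ≤ (D (h u) (h v) : ℕ∞) := by exact_mod_cast D'_le_D _ _
    exact absurd hp' (not_lt.2 (e.trans e2))
  refine (Set.ncard_le_ncard hsub (Finset.finite_toSet _)).trans ?_
  rw [Set.ncard_coe_finset]
  exact (card_union_le _ _).trans (add_le_add le_rfl (zero_card n))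

/-- the properties of the distances -/
def LawH {V : Type} (G : SimpleGraph V) (h : V → ℕ) (C : ℝ) (U n : ℕ) : Prop :=
  ({p : V × V | (D (h p.1) (h p.2) : ℕ∞) < G.edist p.1 p.2}.ncard : ℝ) ≤ n ^ 2 / Real.log n ^ U ∧
  |({p : V × V | G.edist p.1 p.2 < (D (h p.1) (h p.2) : ℕ∞)}.ncard : ℝ) - 8 / 3 * (n ^ 2 / Real.log n)| ≤
    C * (n ^ 2 / Real.log n ^ 2) ∧
  |({p : V × V | G.edist p.1 p.2 = 2}.ncard : ℝ) - 5 / 18 * n ^ 2| ≤ C * (n ^ 2 / Real.log n ^ 2) ∧
  |({p : V × V | G.edist p.1 p.2 = 3}.ncard : ℝ) - (121 / 450 + 8 / 3 / Real.log n) * n ^ 2| ≤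
    C * (n ^ 2 / Real.log n ^ 2) ∧
  |({p : V × V | G.edist p.1 p.2 = 4}.ncard : ℝ) - 2 / 9 * n ^ 2| ≤ C * (n ^ 2 / Real.log n ^ 2) ∧
  |({p : V × V | G.edist p.1 p.2 = 5}.ncard : ℝ) - (52 / 225 - 8 / 3 / Real.log n) * n ^ 2| ≤
    C * (n ^ 2 / Real.log n ^ 2)

lemma FF_congr {n : ℕ} {P Q : ℕ × ℕ → Prop} (h : ∀ p, P p ↔ Q p) : FF n P = FF n Q := by
  ext p
  rw [mem_FF, mem_FF, h p]

lemma D_Sht {x y : ℕ} (h : Sht x y) : D x y = 5 := by
  unfold D
  obtain ⟨h1, h2, h3, -⟩ := h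
  rw [if_neg h1, if_neg (not_not.2 (by tauto)), if_neg (by tauto)]

lemma D'_Sht {x y : ℕ} (h : Sht x y) : D' x y = 3 := by
  unfold D'
  rw [if_pos h]

lemma D'_not {x y : ℕ} (h : ¬ Sht x y) : D' x y = D x y := by
  unfold D'
  rw [if_neg h]

lemma D'_lt (x y : ℕ) : D' x y < D x y ↔ Sht x y := by
  by_cases h : Sht x y
  · rw [D_Sht h, D'_Sht h]
    exact ⟨fun _ => h, fun _ => by norm_num⟩
  · rw [D'_not h]
    exact ⟨fun h' => absurd h' (lt_irrefl _), fun h' => absurd h' h⟩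

/-- the numbers of the pairs with given refined prediction -/
lemma D'_card (n d : ℕ) (h3 : d ≠ 3) (h5 : d ≠ 5) :
    (FF n (fun p => D' p.1 p.2 = d)).card = (FF n (fun p => D p.1 p.2 = d)).card := by
  congr 1
  apply FF_congr
  rintro ⟨x, y⟩
  simp only
  by_cases h : Sht x y
  · rw [D_Sht h, D'_Sht h]
    exact ⟨fun e => absurd e.symm h3, fun e => absurd e.symm h5⟩
  · rw [D'_not h]

lemma D'_card3 (n : ℕ) : (FF n (fun p => D' p.1 p.2 = 3)).card =
    (FF n (fun p => D p.1 p.2 = 3)).card + (FF n (fun p => Sht p.1 p.2)).card := by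
  classical
  rw [← card_union_of_disjoint]
  · congr 1
    ext ⟨x, y⟩
    rw [mem_union, mem_FF, mem_FF, mem_FF]
    simp only
    by_cases h : Sht x y
    · rw [D_Sht h, D'_Sht h]
      tauto
    · rw [D'_not h]
      tauto
  · rw [disjoint_left]
    rintro ⟨x, y⟩ h1 h2
    rw [mem_FF] at h1 h2
    have h3 := h1.2
    rw [D_Sht h2.2] at h3
    omega

lemma D'_card5 (n : ℕ) : (FF n (fun p => D' p.1 p.2 = 5)).card + (FF n (fun p => Sht p.1 p.2)).card =
    (FF n (fun p => D p.1 p.2 = 5)).card := by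
  classical
  rw [← card_union_of_disjoint]
  · congr 1
    ext ⟨x, y⟩
    rw [mem_union, mem_FF, mem_FF, mem_FF]
    simp only
    by_cases h : Sht x y
    · rw [D_Sht h, D'_Sht h]
      tauto
    · rw [D'_not h]
      tauto
  · rw [disjoint_left]
    rintro ⟨x, y⟩ h1 h2
    rw [mem_FF] at h1 h2
    have h3 := h1.2
    rw [D'_Sht h2.2] at h3
    omega

theorem law (hW : S_ESTW) (hT : S_TWO) (hB : S_BR)
    (hM : ∃ c : ℝ, 0 < c ∧ ∀ U : ℕ, ∃ n₀ : ℕ, ∀ n : ℕ, n₀ ≤ n → ∃ X ⊆ Icc 1 n,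
      ((Icc 1 n \ X).card : ℝ) ≤ n / Real.log n ^ U ∧ (∀ a ∈ X, c * (n / Real.log n ^ 2) ≤ dg X a)) :
    ∃ C : ℝ, 0 < C ∧ ∀ U : ℕ, ∃ N : ℕ, ∀ n : ℕ, N ≤ n → ∀ (V : Type) (G : SimpleGraph V) (φ : ℕ → V) (h : V → ℕ),
      Model G n φ h → LawH G h C U n := by
  obtain ⟨C₁, N₁, hC₁, h1⟩ := sht_card
  obtain ⟨C₂, N₂, hC₂, h2⟩ := ex_card
  refine ⟨C₁ + C₂ + 2705, by positivity, fun U => ?_⟩
  obtain ⟨N₃, h3⟩ := upper hW hT hB hM (U + 3)
  obtain ⟨N₄, h4⟩ := evLog 2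
  obtain ⟨N₅, h5⟩ := Pool.Agent.E8helper98.GB.ev_pow (U + 1)
  refine ⟨N₁ + N₂ + N₃ + N₄ + N₅ + 3, fun n hn V G φ h M => ?_⟩
  have a1 := h1 n (by omega)
  obtain ⟨a2, a2'⟩ := h2 n (by omega)
  have a3 := h3 n (by omega)
  have a4 := h4 n (by omega)
  have a5 := h5 n (by omega)
  set L := Real.log n with hL
  have hL0 : 0 < L := by linarith
  have hL1 : 1 ≤ L := by linarith
  have hn1 : (1 : ℝ) ≤ n := by exact_mod_cast (by omega : 1 ≤ n)
  have hn0 : (0 : ℝ) < n := by linarith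
  set E := (n : ℝ) ^ 2 / L ^ 2 with hE
  have hE0 : 0 < E := by positivity
  have hC1E : 0 < C₁ * E := mul_pos hC₁ hE0
  have hC2E : 0 < C₂ * E := mul_pos hC₂ hE0
  -- the exceptions
  have b1 : ((BadU n).card : ℝ) ≤ E := by
    refine a3.trans ?_
    apply div_le_div_of_nonneg_left (by positivity) (by positivity)
    exact pow_le_pow_right₀ hL1 (by omega)
  have b2 : ((BadU n).card : ℝ) + (FF n (fun p => Ex p.1 p.2)).card + (2 * n + 2) ≤ (C₂ + 5) * E := by
    linarith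
  have tr : ∀ P : ℕ∞ → ℕ → ℕ → Prop, |({p : V × V | P (G.edist p.1 p.2) (h p.1) (h p.2)}.ncard : ℝ) -
      ((FF n (fun p => P (D' p.1 p.2 : ℕ∞) p.1 p.2)).card : ℝ)| ≤ (C₂ + 5) * E := fun P => (M.transfer P).trans b2
  have hDd : ∀ d : ℕ, |((FF n (fun p => D p.1 p.2 = d)).card : ℝ) -
      ((((range 30) ×ˢ (range 30)).filter (fun q : ℕ × ℕ => D q.1 q.2 = d)).card : ℝ) / 900 * (n : ℝ) ^ 2| ≤ 2700 * E :=
    fun d => (D_card n d (by omega)).trans (by linarith)
  have trd : ∀ d : ℕ, |({p : V × V | G.edist p.1 p.2 = (d : ℕ∞)}.ncard : ℝ) -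
      ((FF n (fun p => D' p.1 p.2 = d)).card : ℝ)| ≤ (C₂ + 5) * E := by
    intro d
    have h6 := tr (fun e _ _ => e = (d : ℕ∞))
    have e : FF n (fun p => (D' p.1 p.2 : ℕ∞) = (d : ℕ∞)) = FF n (fun p => D' p.1 p.2 = d) := by
      apply FF_congr
      intro p
      exact Nat.cast_inj
    rw [e] at h6
    exact h6
  refine ⟨?_, ?_, ?_, ?_, ?_, ?_⟩
  · -- longer than predicted
    have c1 : ({p : V × V | (D (h p.1) (h p.2) : ℕ∞) < G.edist p.1 p.2}.ncard : ℝ) ≤ (BadU n).card + (2 * n + 2) := by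
      exact_mod_cast M.long
    refine c1.trans ?_
    have c2 : ((BadU n).card : ℝ) ≤ (n : ℝ) ^ 2 / L ^ U / 2 := by
      refine a3.trans ?_
      rw [div_div]
      apply div_le_div_of_nonneg_left (by positivity) (by positivity)
      rw [pow_add]
      apply mul_le_mul_of_nonneg_left _ (by positivity)
      nlinarith [sq_nonneg L]
    have c3 : (2 * (n : ℝ) + 2) ≤ (n : ℝ) ^ 2 / L ^ U / 2 := by
      rw [div_div, le_div_iff₀ (by positivity)]
      have hs : Real.sqrt n ≤ n := by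
        rw [Real.sqrt_le_left hn0.le]
        nlinarith
      have e1 : 42 * L ^ U ≤ n := by
        have f1 : L ^ U ≤ L ^ (U + 1) := pow_le_pow_right₀ hL1 (by omega)
        linarith
      have e2 : (2 * (n : ℝ) + 2) ≤ 4 * n := by linarith
      have e3 : (2 * (n : ℝ) + 2) * (L ^ U * 2) ≤ 4 * n * (L ^ U * 2) := mul_le_mul_of_nonneg_right e2 (by positivity)
      have e4 : (n : ℝ) * (42 * L ^ U) ≤ n * n := mul_le_mul_of_nonneg_left e1 hn0.le
      have e5 : (0 : ℝ) ≤ n * L ^ U := by positivity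
      nlinarith
    linarith
  · -- shorter than predicted
    have c1 := tr (fun e x y => e < (D x y : ℕ∞))
    have e : FF n (fun p => (D' p.1 p.2 : ℕ∞) < (D p.1 p.2 : ℕ∞)) = FF n (fun p => Sht p.1 p.2) := by
      apply FF_congr
      intro p
      rw [Nat.cast_lt, D'_lt]
    rw [e] at c1
    rw [abs_le] at c1 a1 ⊢
    constructor <;> linarith [c1.1, c1.2, a1.1, a1.2]
  · have c1 := trd 2
    have c2 := hDd 2
    rw [D2] at c2
    rw [D'_card n 2 (by norm_num) (by norm_num)] at c1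
    push_cast at c1 c2
    rw [abs_le] at c1 c2 ⊢
    constructor <;> linarith [c1.1, c1.2, c2.1, c2.2]
  · have c1 := trd 3
    have c2 := hDd 3
    have c3 := D'_card3 n
    rw [D3] at c2
    have c4 : ((FF n (fun p => D' p.1 p.2 = 3)).card : ℝ) =
      ((FF n (fun p => D p.1 p.2 = 3)).card : ℝ) + ((FF n (fun p => Sht p.1 p.2)).card : ℝ) := by exact_mod_cast c3
    rw [c4] at c1
    push_cast at c1 c2
    have e : (121 / 450 + 8 / 3 / L) * (n : ℝ) ^ 2 = 242 / 900 * (n : ℝ) ^ 2 + 8 / 3 * ((n : ℝ) ^ 2 / L) := by ring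
    rw [e]
    rw [abs_le] at c1 c2 a1 ⊢
    constructor <;> linarith [c1.1, c1.2, c2.1, c2.2, a1.1, a1.2]
  · have c1 := trd 4
    have c2 := hDd 4
    rw [D4] at c2
    rw [D'_card n 4 (by norm_num) (by norm_num)] at c1
    push_cast at c1 c2
    rw [abs_le] at c1 c2 ⊢
    constructor <;> linarith [c1.1, c1.2, c2.1, c2.2]
  · have c1 := trd 5
    have c2 := hDd 5
    have c3 := D'_card5 n
    rw [D5] at c2
    have c4 : ((FF n (fun p => D' p.1 p.2 = 5)).card : ℝ) + ((FF n (fun p => Sht p.1 p.2)).card : ℝ) =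
      ((FF n (fun p => D p.1 p.2 = 5)).card : ℝ) := by exact_mod_cast c3
    push_cast at c1 c2
    have e : (52 / 225 - 8 / 3 / L) * (n : ℝ) ^ 2 = 208 / 900 * (n : ℝ) ^ 2 - 8 / 3 * ((n : ℝ) ^ 2 / L) := by ring
    rw [e]
    rw [abs_le] at c1 c2 a1 ⊢
    constructor <;> linarith [c1.1, c1.2, c2.1, c2.2, a1.1, a1.2]

end Pool.Agent.H76.GD
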