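import Pool.Agent.H76.GD.Tup4Main
import Pool.Graph.R_pool_sql_team_seeded_b677cdb8.E8helper54.GB.Loc

set_option autoImplicit false
set_option maxHeartbeats 4000000

/-!
# Local densities for the paths `a, b, b + 3, c`
-/

namespace Pool.Agent.H76.GD
open Finset
open Pool.Agent.H373R2.T7
open Pool.Agent.E8helper66.GB (KZ)
open Pool.Agent.E8helper54.GB (Q1 cm cm_pos KZ_eq)

/-- the local condition for a path `a, b, b + 3, c` between multiples of three -/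
def Loc5 (a c : ℕ) : Prop := a % 2 ≠ c % 2 ∧ 3 ∣ a ∧ 3 ∣ c ∧ ¬ ((a % 5 = 2 ∨ a % 5 = 3) ∧ (c % 5 = 2 ∨ c % 5 = 3))

/-- the shifts -/
def sh (a c : ℕ) : Fin 4 → ℤ := ![2 * (a : ℤ) - 3, -(2 * (a : ℤ)) - 3, 2 * (c : ℤ) + 3, -(2 * (c : ℤ)) + 3]

lemma sh_ex (a c : ℕ) (P : ℤ → Prop) : (∃ i, P (sh a c i)) ↔
    P (2 * (a : ℤ) - 3) ∨ P (-(2 * (a : ℤ)) - 3) ∨ P (2 * (c : ℤ) + 3) ∨ P (-(2 * (c : ℤ)) + 3) := by
  unfold sh
  constructor
  · rintro ⟨i, hi⟩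
    fin_cases i
    · exact Or.inl hi
    · exact Or.inr (Or.inl hi)
    · exact Or.inr (Or.inr (Or.inl hi))
    · exact Or.inr (Or.inr (Or.inr hi))
  · rintro (h | h | h | h)
    · exact ⟨0, h⟩
    · exact ⟨1, h⟩
    · exact ⟨2, h⟩
    · exact ⟨3, h⟩

lemma rho_of {k : ℕ} (t : Fin k → ℤ) (p r : ℕ) (h1 : r < p) (h0 : ¬ p ∣ r) (h : ¬ ∃ i, (p : ℤ) ∣ (r : ℤ) + t i) :
    rhoP t p + 1 + 1 ≤ p := by
  unfold rhoP
  have hsub : (range p).filter (fun r => ¬ p ∣ r ∧ ∃ i, (p : ℤ) ∣ (r : ℤ) + t i) ⊆ ((range p).erase r).erase 0 := by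
    intro x hx
    rw [mem_filter] at hx
    rw [mem_erase, mem_erase]
    refine ⟨?_, ?_, hx.1⟩
    · rintro rfl
      exact hx.2.1 (dvd_zero _)
    · rintro rfl
      exact h hx.2.2
  have hr0 : r ≠ 0 := by
    rintro rfl
    exact h0 (dvd_zero _)
  have h2 := card_le_card hsub
  rw [card_erase_of_mem, card_erase_of_mem (mem_range.2 h1), card_range] at h2
  · omega
  · rw [mem_erase, mem_range]
    omega

lemma adm5 (a c : ℕ) (h : Loc5 a c) (p : ℕ) (hp : p.Prime) (hp2 : p ≠ 2) : rhoP (sh a c) p + 1 + 1 ≤ p := by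
  obtain ⟨h1, h2, h3, h4⟩ := h
  have htwo := hp.two_le
  by_cases h7 : 7 ≤ p
  · have := rhoP_le_k (sh a c) p
    omega
  have hp3 : p = 3 ∨ p = 5 := by
    have h44 : p ≠ 4 := by rintro rfl; revert hp; decide
    have h66 : p ≠ 6 := by rintro rfl; revert hp; decide
    omega
  rcases hp3 with rfl | rfl
  · apply rho_of _ 3 1 (by norm_num) (by norm_num)
    rw [sh_ex a c (fun t => ((3 : ℕ) : ℤ) ∣ ((1 : ℕ) : ℤ) + t)]
    push_cast
    omega
  · have hex : ∃ r : ℕ, 0 < r ∧ r < 5 ∧ ¬ ((5 : ℤ) ∣ (r : ℤ) + (2 * (a : ℤ) - 3) ∨ (5 : ℤ) ∣ (r : ℤ) + (-(2 * (a : ℤ)) - 3) ∨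
        (5 : ℤ) ∣ (r : ℤ) + (2 * (c : ℤ) + 3) ∨ (5 : ℤ) ∣ (r : ℤ) + (-(2 * (c : ℤ)) + 3)) := by
      have ha : a % 5 = 0 ∨ a % 5 = 1 ∨ a % 5 = 2 ∨ a % 5 = 3 ∨ a % 5 = 4 := by omega
      have hc : c % 5 = 0 ∨ c % 5 = 1 ∨ c % 5 = 2 ∨ c % 5 = 3 ∨ c % 5 = 4 := by omega
      rcases ha with ha | ha | ha | ha | ha <;> rcases hc with hc | hc | hc | hc | hc <;>
        first
        | (exfalso; omega)
        | (refine ⟨1, by norm_num, by norm_num, ?_⟩; push_cast; omega)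
        | (refine ⟨2, by norm_num, by norm_num, ?_⟩; push_cast; omega)
        | (refine ⟨3, by norm_num, by norm_num, ?_⟩; push_cast; omega)
    obtain ⟨r, hr0, hr5, hr⟩ := hex
    apply rho_of _ 5 r hr5 (by intro hd; have := Nat.le_of_dvd hr0 hd; omega)
    rw [sh_ex a c (fun t => ((5 : ℕ) : ℤ) ∣ ((r : ℕ) : ℤ) + t)]
    push_cast
    exact hr

/-- the main term is bounded below -/
lemma main5 (a c : ℕ) (h : Loc5 a c) (z : ℕ) :
    cm 5 ≤ ((Vz z)⁻¹) ^ 4 * ∏ p ∈ oz z, (1 - (rhoP (sh a c) p : ℝ) / (p - 1 : ℝ)) := by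
  obtain ⟨ν, hν⟩ : ∃ ν : ℕ → ℕ, ν = fun p => if p = 2 then 1 else rhoP (sh a c) p + 1 := ⟨_, rfl⟩
  have h1 := local_low 5 (by norm_num) ν z (by
    intro p hp
    rw [hν]
    simp only
    split_ifs
    · norm_num
    · have := rhoP_le_k (sh a c) p
      omega) (by
    intro p hp
    rw [hν]
    simp only
    split_ifs with h2
    · omega
    · exact adm5 a c h p (mem_pz.1 hp).2 h2)
  unfold cm
  refine le_trans (by push_cast at h1 ⊢; exact h1) (le_of_eq ?_)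
  obtain ⟨g, hg⟩ : ∃ g : ℕ → ℝ, g = fun p => if p = 2 then 1 else (1 - (rhoP (sh a c) p : ℝ) / (p - 1 : ℝ)) := ⟨_, rfl⟩
  have e1 : ∏ p ∈ oz z, (1 - (rhoP (sh a c) p : ℝ) / (p - 1 : ℝ)) = ∏ p ∈ pz z, g p := by
    have e2 : ∏ p ∈ oz z, (1 - (rhoP (sh a c) p : ℝ) / (p - 1 : ℝ)) = ∏ p ∈ oz z, g p := by
      apply prod_congr rfl
      intro p hp
      rw [hg]
      simp only
      rw [if_neg (mem_oz.1 hp).1]
    rw [e2]
    unfold oz
    apply prod_erase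
    rw [hg]
    simp
  rw [e1]
  unfold Vz
  rw [← prod_inv_distrib, ← prod_pow, ← prod_mul_distrib]
  apply prod_congr rfl
  intro p hp
  have hpp := (mem_pz.1 hp).2
  have hp2 : (2 : ℝ) ≤ p := by exact_mod_cast hpp.two_le
  have hp0 : (p : ℝ) ≠ 0 := by positivity
  have hp1 : (p : ℝ) - 1 ≠ 0 := by
    have : (0 : ℝ) < p - 1 := by linarith
    exact this.ne'
  have e3 : (1 : ℝ) - 1 / p = (p - 1) / p := by field_simp
  rw [hν, hg]
  simp only
  split_ifs with h2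
  · rw [h2]
    norm_num
  · rw [e3]
    push_cast
    field_simp
    ring

lemma log_three_le : Real.log ((3 : ℕ) : ℝ) ≤ 2 := by
  have := Real.log_le_sub_one_of_pos (show (0 : ℝ) < ((3 : ℕ) : ℝ) by norm_num)
  push_cast at this ⊢
  linarith

open Classical in
/-- many `b` such that `2 b + 3` is prime and `a ± b`, `c ± (b + 3)` have no small prime factor -/
theorem loc5 : ∃ c₀ : ℝ, 0 < c₀ ∧ ∀ K : ℕ, ∃ n₀ : ℕ, ∀ n : ℕ, n₀ ≤ n → ∀ z : ℕ, 1 ≤ z → (z : ℝ) ≤ Real.log n ^ K →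
    ∀ a c : ℕ, Loc5 a c →
    c₀ * n ≤ ∑ b ∈ Icc 1 n, (ArithmeticFunction.vonMangoldt (2 * b + 3) : ℝ) * (KZ z a b * KZ z c (b + 3)) := by
  have hcm := cm_pos 5 (by norm_num)
  refine ⟨cm 5 / 2, half_pos hcm, fun K => ?_⟩
  obtain ⟨m1, h1⟩ := tuple_main4 4 K 5 (by norm_num)
  obtain ⟨m2, h2⟩ := Vz_inv_small K
  obtain ⟨m3, h3⟩ := ev_L' (20 / cm 5 + 1)
  obtain ⟨m4, h4⟩ := ev_log' 5 1
  refine ⟨m1 + m2 + m3 + m4 + 4, fun n hn z hz hzK a c hac => ?_⟩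
  have hV := h2 n (by omega) z hz hzK
  have hL := h3 n (by omega)
  have hs := h4 n (by omega)
  obtain ⟨L, hLd⟩ : ∃ L, L = Real.log (n : ℝ) := ⟨_, rfl⟩
  rw [← hLd] at hV hL hs hzK
  have hdiv : 0 < 20 / cm 5 := by positivity
  have hL1 : 1 ≤ L := by linarith
  have hL0 : 0 < L := by linarith
  have hn4 : (4 : ℝ) ≤ n := by exact_mod_cast (by omega : 4 ≤ n)
  have hn0 : (0 : ℝ) < n := by linarith
  have hsn : √(n : ℝ) ≤ n := by
    rw [Real.sqrt_le_left hn0.le]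
    nlinarith
  obtain ⟨N, hN⟩ : ∃ N, N = 2 * n + 3 := ⟨_, rfl⟩
  have hNr : (N : ℝ) = 2 * n + 3 := by rw [hN]; push_cast; ring
  have hLN : L ≤ Real.log N := by
    rw [hLd]
    apply Real.log_le_log hn0
    rw [hNr]
    linarith
  have hLN0 : 0 < Real.log N := by linarith
  have hmain := h1 N (by omega) z hz (hzK.trans (pow_le_pow_left₀ hL0.le hLN K)) ((2 * a + 1) % 4) (by omega) (sh a c)
  obtain ⟨P1, hP1⟩ : ∃ P1, P1 = ∏ p ∈ oz z, (1 - (rhoP (sh a c) p : ℝ) / (p - 1 : ℝ)) := ⟨_, rfl⟩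
  have hm5 := main5 a c hac z
  rw [← hP1] at hmain hm5
  have hVp : 0 < (Vz z)⁻¹ := inv_pos.2 (Vz_pos z)
  have hV4 : ((Vz z)⁻¹) ^ 4 ≤ L ^ 4 := pow_le_pow_left₀ hVp.le hV 4
  have hV40 : 0 < ((Vz z)⁻¹) ^ 4 := by positivity
  set W0 : ℝ := ∑ m ∈ (Icc 1 N).filter (fun m : ℕ => m ≡ (2 * a + 1) % 4 [MOD 4] ∧
      ∀ p ∈ oz z, ¬ ∃ i, (p : ℤ) ∣ (m : ℤ) + sh a c i), ArithmeticFunction.vonMangoldt m with hW0
  -- comparison of the sum with `W0`
  have hcmp : ((Vz z)⁻¹) ^ 4 * (W0 - 2) ≤ ∑ b ∈ Icc 1 n, (ArithmeticFunction.vonMangoldt (2 * b + 3) : ℝ) * (KZ z a b * KZ z c (b + 3)) := by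
    have e1 : ∀ b ∈ Icc 1 n, (if (2 * b + 3) ≡ (2 * a + 1) % 4 [MOD 4] ∧
        ∀ p ∈ oz z, ¬ ∃ i, (p : ℤ) ∣ ((2 * b + 3 : ℕ) : ℤ) + sh a c i then
        (ArithmeticFunction.vonMangoldt (2 * b + 3) : ℝ) * ((Vz z)⁻¹) ^ 4 else 0) ≤
        (ArithmeticFunction.vonMangoldt (2 * b + 3) : ℝ) * (KZ z a b * KZ z c (b + 3)) := by
      intro b _
      have hΛ : (0 : ℝ) ≤ ArithmeticFunction.vonMangoldt (2 * b + 3) := ArithmeticFunction.vonMangoldt_nonneg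
      have hpos : 0 ≤ KZ z a b * KZ z c (b + 3) := by
        rw [KZ_eq, KZ_eq]
        split_ifs <;> positivity
      split_ifs with hcond
      · obtain ⟨hc1, hc2⟩ := hcond
        apply mul_le_mul_of_nonneg_left _ hΛ
        have hb2 : b % 2 ≠ a % 2 := by
          unfold Nat.ModEq at hc1
          omega
        have hq1 : ∀ p ∈ pz z, ¬ Q1 a p b := by
          intro p hp
          by_cases hp2 : p = 2
          · subst hp2
            unfold Q1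
            push_cast
            omega
          · have hh := hc2 p (mem_oz.2 ⟨hp2, (mem_pz.1 hp).1, (mem_pz.1 hp).2⟩)
            rw [sh_ex a c (fun t => ((p : ℕ) : ℤ) ∣ ((2 * b + 3 : ℕ) : ℤ) + t)] at hh
            push Not at hh
            unfold Q1
            rintro (h5 | h5)
            · apply hh.1
              have e : ((2 * b + 3 : ℕ) : ℤ) + (2 * (a : ℤ) - 3) = 2 * ((b : ℤ) + a) := by push_cast; ring
              rw [e]
              exact dvd_mul_of_dvd_right h5 2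
            · apply hh.2.1
              have e : ((2 * b + 3 : ℕ) : ℤ) + (-(2 * (a : ℤ)) - 3) = 2 * ((b : ℤ) + -a) := by push_cast; ring
              rw [e]
              exact dvd_mul_of_dvd_right h5 2
        have hq2 : ∀ p ∈ pz z, ¬ Q1 c p (b + 3) := by
          intro p hp
          by_cases hp2 : p = 2
          · subst hp2
            have := hac.1
            unfold Q1
            push_cast
            omega
          · have hh := hc2 p (mem_oz.2 ⟨hp2, (mem_pz.1 hp).1, (mem_pz.1 hp).2⟩)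
            rw [sh_ex a c (fun t => ((p : ℕ) : ℤ) ∣ ((2 * b + 3 : ℕ) : ℤ) + t)] at hh
            push Not at hh
            unfold Q1
            rintro (h5 | h5)
            · apply hh.2.2.1
              have e : ((2 * b + 3 : ℕ) : ℤ) + (2 * (c : ℤ) + 3) = 2 * (((b + 3 : ℕ) : ℤ) + c) := by push_cast; ring
              rw [e]
              exact dvd_mul_of_dvd_right h5 2
            · apply hh.2.2.2
              have e : ((2 * b + 3 : ℕ) : ℤ) + (-(2 * (c : ℤ)) + 3) = 2 * (((b + 3 : ℕ) : ℤ) + -c) := by push_cast; ring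
              rw [e]
              exact dvd_mul_of_dvd_right h5 2
        rw [KZ_eq, KZ_eq, if_pos hq1, if_pos hq2]
        apply le_of_eq
        ring
      · exact mul_nonneg hΛ hpos
    refine le_trans ?_ (sum_le_sum e1)
    have e2 : ∑ b ∈ Icc 1 n, (if (2 * b + 3) ≡ (2 * a + 1) % 4 [MOD 4] ∧
        ∀ p ∈ oz z, ¬ ∃ i, (p : ℤ) ∣ ((2 * b + 3 : ℕ) : ℤ) + sh a c i then
        (ArithmeticFunction.vonMangoldt (2 * b + 3) : ℝ) * ((Vz z)⁻¹) ^ 4 else 0) =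
        ((Vz z)⁻¹) ^ 4 * ∑ m ∈ ((Icc 1 n).image (fun b => 2 * b + 3)).filter (fun m : ℕ => m ≡ (2 * a + 1) % 4 [MOD 4] ∧
      ∀ p ∈ oz z, ¬ ∃ i, (p : ℤ) ∣ (m : ℤ) + sh a c i), ArithmeticFunction.vonMangoldt m := by
      rw [sum_filter, sum_image, mul_sum]
      · apply sum_congr rfl
        intro b _
        split_ifs <;> ring
      · intro x _ y _ hxy
        simp only at hxy
        omega
    rw [e2]
    apply mul_le_mul_of_nonneg_left _ hV40.le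
    have e3 : W0 ≤ ∑ m ∈ ((Icc 1 n).image (fun b => 2 * b + 3)).filter (fun m : ℕ => m ≡ (2 * a + 1) % 4 [MOD 4] ∧
      ∀ p ∈ oz z, ¬ ∃ i, (p : ℤ) ∣ (m : ℤ) + sh a c i), ArithmeticFunction.vonMangoldt m +
      ∑ m ∈ ({1, 3} : Finset ℕ), ArithmeticFunction.vonMangoldt m := by
      have hsub : (Icc 1 N).filter (fun m : ℕ => m ≡ (2 * a + 1) % 4 [MOD 4] ∧
          ∀ p ∈ oz z, ¬ ∃ i, (p : ℤ) ∣ (m : ℤ) + sh a c i) ⊆
          (((Icc 1 n).image (fun b => 2 * b + 3)).filter (fun m : ℕ => m ≡ (2 * a + 1) % 4 [MOD 4] ∧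
          ∀ p ∈ oz z, ¬ ∃ i, (p : ℤ) ∣ (m : ℤ) + sh a c i)) ∪ ({1, 3} : Finset ℕ) := by
        intro m hm
        rw [mem_filter, mem_Icc] at hm
        obtain ⟨⟨hm1, hm2⟩, hm3, hm4⟩ := hm
        rw [mem_union, mem_filter, mem_image]
        have hodd : m % 2 = 1 := by
          unfold Nat.ModEq at hm3
          omega
        by_cases h5 : 5 ≤ m
        · left
          refine ⟨⟨(m - 3) / 2, ?_, ?_⟩, hm3, hm4⟩
          · rw [mem_Icc]
            omega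
          · omega
        · right
          rw [mem_insert, mem_singleton]
          omega
      refine (sum_le_sum_of_subset_of_nonneg hsub (fun m _ _ => ArithmeticFunction.vonMangoldt_nonneg)).trans ?_
      rw [← sum_union_inter]
      have : 0 ≤ ∑ m ∈ (((Icc 1 n).image (fun b => 2 * b + 3)).filter (fun m : ℕ => m ≡ (2 * a + 1) % 4 [MOD 4] ∧
          ∀ p ∈ oz z, ¬ ∃ i, (p : ℤ) ∣ (m : ℤ) + sh a c i)) ∩ ({1, 3} : Finset ℕ), (ArithmeticFunction.vonMangoldt m : ℝ) :=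
        sum_nonneg fun m _ => ArithmeticFunction.vonMangoldt_nonneg
      linarith
    have e4 : ∑ m ∈ ({1, 3} : Finset ℕ), (ArithmeticFunction.vonMangoldt m : ℝ) ≤ 2 := by
      rw [sum_pair (by norm_num), ArithmeticFunction.vonMangoldt_apply_one, zero_add]
      exact ArithmeticFunction.vonMangoldt_le_log.trans log_three_le
    linarith
  refine le_trans ?_ hcmp
  have a4 := (abs_le.1 hmain).1
  have e5 : (N : ℝ) / 2 * P1 - N / Real.log N ^ 5 ≤ W0 := by linarith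
  have e6 : (N : ℝ) / Real.log N ^ 5 ≤ 5 * n / L ^ 5 := by
    apply div_le_div₀ (by positivity) (by rw [hNr]; linarith) (by positivity)
    exact pow_le_pow_left₀ hL0.le hLN 5
  have e7 : ((Vz z)⁻¹) ^ 4 * ((N : ℝ) / 2 * P1 - 5 * n / L ^ 5 - 2) ≤ ((Vz z)⁻¹) ^ 4 * (W0 - 2) := by
    apply mul_le_mul_of_nonneg_left _ hV40.le
    linarith
  refine le_trans ?_ e7
  have e8 : ((Vz z)⁻¹) ^ 4 * ((N : ℝ) / 2 * P1 - 5 * n / L ^ 5 - 2) =
      (((Vz z)⁻¹) ^ 4 * P1) * (N / 2) - ((Vz z)⁻¹) ^ 4 * (5 * n / L ^ 5 + 2) := by ring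
  rw [e8]
  have e9 : cm 5 * n ≤ (((Vz z)⁻¹) ^ 4 * P1) * (N / 2) := by
    apply mul_le_mul hm5 _ hn0.le (hcm.le.trans hm5)
    rw [hNr]
    linarith
  have e10 : ((Vz z)⁻¹) ^ 4 * (5 * n / L ^ 5 + 2) ≤ L ^ 4 * (5 * n / L ^ 5 + 2) :=
    mul_le_mul_of_nonneg_right hV4 (by positivity)
  have e11 : L ^ 4 * (5 * n / L ^ 5 + 2) = 5 * n / L + 2 * L ^ 4 := by
    field_simp
  have e12 : 2 * L ^ 4 ≤ 2 * n / L := by
    rw [le_div_iff₀ hL0]
    have : 1 * L ^ 5 ≤ n := hs.trans hsn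
    nlinarith
  have e13 : 5 * (n : ℝ) / L + 2 * n / L ≤ cm 5 / 2 * n := by
    rw [← add_div, div_le_iff₀ hL0]
    have h5 : 20 / cm 5 * cm 5 = 20 := by field_simp
    have h6 : 20 ≤ L * cm 5 := by
      have := mul_le_mul_of_nonneg_right (show 20 / cm 5 ≤ L by linarith) hcm.le
      linarith
    nlinarith
  linarith

end Pool.Agent.H76.GD
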