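import Pool.Agent.H76.GD.Cnt

set_option autoImplicit false

/-!
# The number of the pairs which are closer than predicted by the residues
-/

namespace Pool.Agent.H76.GD

open Finset

/-- the vertices with a possible special neighbour -/
def SS (n : ℕ) : Finset ℕ := (Icc 1 n).filter (fun x => ¬ 3 ∣ x ∧ SP x)

/-- the opposite class -/
def OO (n x : ℕ) : Finset ℕ := (Icc 1 n).filter (fun y => x % 2 ≠ y % 2 ∧ ¬ 3 ∣ y)

lemma OO_card (n x : ℕ) : |((OO n x).card : ℝ) - n / 3| ≤ 2 := by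
  have key : ∀ u v : ℕ, u < 6 → v < 6 → u ≠ v → (∀ y, (x % 2 ≠ y % 2 ∧ ¬ 3 ∣ y) ↔ (y % 6 = u ∨ y % 6 = v)) →
      |((OO n x).card : ℝ) - n / 3| ≤ 2 := by
    intro u v hu hv huv h
    have e : OO n x = (Icc 1 n).filter (fun y => y % 6 = u) ∪ (Icc 1 n).filter (fun y => y % 6 = v) := by
      unfold OO
      ext y
      rw [mem_union, mem_filter, mem_filter, mem_filter, h y]
      tauto
    have hd : Disjoint ((Icc 1 n).filter (fun y => y % 6 = u)) ((Icc 1 n).filter (fun y => y % 6 = v)) := by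
      rw [disjoint_left]
      intro y h1 h2
      rw [mem_filter] at h1 h2
      omega
    rw [e, card_union_of_disjoint hd]
    have a1 := abs_le.1 (cls n 6 u (by norm_num) hu)
    have a2 := abs_le.1 (cls n 6 v (by norm_num) hv)
    push_cast at a1 a2 ⊢
    rw [abs_le]
    constructor <;> linarith [a1.1, a1.2, a2.1, a2.2]
  rcases Nat.mod_two_eq_zero_or_one x with hx | hx
  · exact key 1 5 (by norm_num) (by norm_num) (by norm_num) (fun y => by omega)
  · exact key 2 4 (by norm_num) (by norm_num) (by norm_num) (fun y => by omega)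

lemma T1_card (n : ℕ) : (FF n (fun p => p.1 ∈ SS n ∧ p.2 ∈ OO n p.1)).card = ∑ x ∈ SS n, (OO n x).card := by
  classical
  rw [card_eq_sum_card_fiberwise (f := fun p : ℕ × ℕ => p.1) (t := SS n)]
  · apply sum_congr rfl
    intro x hx
    have e : (FF n (fun p => p.1 ∈ SS n ∧ p.2 ∈ OO n p.1)).filter (fun p => p.1 = x) = ({x} : Finset ℕ) ×ˢ (OO n x) := by
      ext ⟨a, b⟩
      rw [mem_filter, mem_FF, mem_product, mem_singleton]
      simp only
      constructor
      · rintro ⟨⟨-, -, h1⟩, rfl⟩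
        exact ⟨rfl, h1⟩
      · rintro ⟨rfl, h1⟩
        exact ⟨⟨⟨(mem_filter.1 hx).1, (mem_filter.1 h1).1⟩, hx, h1⟩, rfl⟩
    rw [e, card_product, card_singleton, one_mul]
  · intro p hp
    exact (mem_FF.1 (mem_coe.1 hp)).2.1

lemma T2_card (n : ℕ) : (FF n (fun p => p.2 ∈ SS n ∧ p.1 ∈ OO n p.2)).card =
    (FF n (fun p => p.1 ∈ SS n ∧ p.2 ∈ OO n p.1)).card := by
  apply card_bij (fun p _ => (p.2, p.1))
  · intro p hp
    rw [mem_FF] at hp ⊢
    exact ⟨⟨hp.1.2, hp.1.1⟩, hp.2⟩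
  · rintro ⟨a, b⟩ _ ⟨c, d⟩ _ h
    simp only [Prod.mk.injEq] at h ⊢
    exact ⟨h.2, h.1⟩
  · rintro ⟨a, b⟩ hp
    rw [mem_FF] at hp
    refine ⟨(b, a), ?_, rfl⟩
    rw [mem_FF]
    exact ⟨⟨hp.1.2, hp.1.1⟩, hp.2⟩

lemma T_eq (n : ℕ) : FF n (fun p => Sht p.1 p.2) =
    FF n (fun p => p.1 ∈ SS n ∧ p.2 ∈ OO n p.1) ∪ FF n (fun p => p.2 ∈ SS n ∧ p.1 ∈ OO n p.2) := by
  classical
  ext ⟨x, y⟩
  rw [mem_union, mem_FF, mem_FF, mem_FF]
  simp only [SS, OO, mem_filter, Sht]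
  constructor
  · rintro ⟨⟨hx, hy⟩, h1, h2, h3, h4 | h4⟩
    · left
      exact ⟨⟨hx, hy⟩, ⟨hx, h2, h4⟩, hy, h1, h3⟩
    · right
      exact ⟨⟨hx, hy⟩, ⟨hy, h3, h4⟩, hx, Ne.symm h1, h2⟩
  · rintro (⟨⟨hx, hy⟩, ⟨-, h2, h4⟩, -, h1, h3⟩ | ⟨⟨hx, hy⟩, ⟨-, h3, h4⟩, -, h1, h2⟩)
    · exact ⟨⟨hx, hy⟩, h1, h2, h3, Or.inl h4⟩
    · exact ⟨⟨hx, hy⟩, Ne.symm h1, h2, h3, Or.inr h4⟩

lemma T_card (n : ℕ) : |((FF n (fun p => Sht p.1 p.2)).card : ℝ) - 2 * ((SS n).card * (n / 3))| ≤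
    4 * (SS n).card + ((SS n).card : ℝ) ^ 2 := by
  classical
  have h1 := card_union_add_card_inter (FF n (fun p => p.1 ∈ SS n ∧ p.2 ∈ OO n p.1))
    (FF n (fun p => p.2 ∈ SS n ∧ p.1 ∈ OO n p.2))
  rw [← T_eq, T2_card, T1_card] at h1
  have h2 : (FF n (fun p => p.1 ∈ SS n ∧ p.2 ∈ OO n p.1) ∩ FF n (fun p => p.2 ∈ SS n ∧ p.1 ∈ OO n p.2)).card ≤
      (SS n).card ^ 2 := by
    rw [sq, ← card_product]
    apply card_le_card
    intro p hp
    rw [mem_inter, mem_FF, mem_FF] at hp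
    exact mem_product.2 ⟨hp.1.2.1, hp.2.2.1⟩
  have h3 : |((∑ x ∈ SS n, (OO n x).card : ℕ) : ℝ) - (SS n).card * (n / 3)| ≤ (SS n).card * 2 := by
    push_cast
    have e : ((SS n).card : ℝ) * (n / 3) = ∑ x ∈ SS n, ((n : ℝ) / 3) := by rw [sum_const, nsmul_eq_mul]
    rw [e, ← sum_sub_distrib]
    refine (abs_sum_le_sum_abs _ _).trans ?_
    refine (sum_le_sum (fun x _ => OO_card n x)).trans ?_
    rw [sum_const, nsmul_eq_mul]
  have h1' : ((FF n (fun p => Sht p.1 p.2)).card : ℝ) +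
      ((FF n (fun p => p.1 ∈ SS n ∧ p.2 ∈ OO n p.1) ∩ FF n (fun p => p.2 ∈ SS n ∧ p.1 ∈ OO n p.2)).card : ℝ) =
      ((∑ x ∈ SS n, (OO n x).card : ℕ) : ℝ) + ((∑ x ∈ SS n, (OO n x).card : ℕ) : ℝ) := by exact_mod_cast h1
  have h2' : ((FF n (fun p => p.1 ∈ SS n ∧ p.2 ∈ OO n p.1) ∩ FF n (fun p => p.2 ∈ SS n ∧ p.1 ∈ OO n p.2)).card : ℝ) ≤
      ((SS n).card : ℝ) ^ 2 := by exact_mod_cast h2
  have h4 : (0 : ℝ) ≤ ((FF n (fun p => p.1 ∈ SS n ∧ p.2 ∈ OO n p.1) ∩
    FF n (fun p => p.2 ∈ SS n ∧ p.1 ∈ OO n p.2)).card : ℝ) := Nat.cast_nonneg _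
  rw [abs_le] at h3 ⊢
  constructor <;> nlinarith [h3.1, h3.2, sq_nonneg ((SS n).card : ℝ)]

lemma SS_card (n : ℕ) (hn : 3 ≤ n) : |((SS n).card : ℝ) - (Nat.primeCounting (2 * n + 3) + Nat.primeCounting (2 * n - 3))| ≤
    6 + (((Icc 1 n).filter (fun x => (2 * x + 3).Prime ∧ (2 * x - 3).Prime)).card : ℝ) := by
  classical
  -- `2 x + 3`
  have a1 : ((Icc 1 n).filter (fun x => (2 * x + 3).Prime)).card ≤ Nat.primeCounting (2 * n + 3) := by
    rw [← card_primes]
    apply card_le_card_of_injOn (fun x => 2 * x + 3)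
    · intro x hx
      rw [mem_coe, mem_filter, mem_Icc] at hx
      rw [mem_coe, mem_filter, mem_range]
      exact ⟨show 2 * x + 3 < 2 * n + 3 + 1 by omega, hx.2⟩
    · intro x _ y _ h
      simp only at h
      omega
  have a2 : Nat.primeCounting (2 * n + 3) ≤ ((Icc 1 n).filter (fun x => (2 * x + 3).Prime)).card + 2 := by
    rw [← card_primes]
    have e : (range (2 * n + 3 + 1)).filter Nat.Prime ⊆
        ((Icc 1 n).filter (fun x => (2 * x + 3).Prime)).image (fun x => 2 * x + 3) ∪ {2, 3} := by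
      intro p hp
      rw [mem_filter, mem_range] at hp
      rw [mem_union, mem_image, mem_insert, mem_singleton]
      rcases hp.2.eq_two_or_odd with h | h
      · right; left; exact h
      · rcases Nat.lt_or_ge 3 p with h3 | h3
        · left
          refine ⟨(p - 3) / 2, ?_, by omega⟩
          rw [mem_filter, mem_Icc]
          have e : 2 * ((p - 3) / 2) + 3 = p := by omega
          rw [e]
          exact ⟨by omega, hp.2⟩
        · right; right
          have := hp.2.two_le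
          omega
    refine (card_le_card e).trans ((card_union_le _ _).trans ?_)
    have e2 : ({2, 3} : Finset ℕ).card ≤ 2 := card_le_two
    have e3 := card_image_le (s := (Icc 1 n).filter (fun x => (2 * x + 3).Prime)) (f := fun x => 2 * x + 3)
    omega
  have b1 : ((Icc 1 n).filter (fun x => (2 * x - 3).Prime)).card ≤ Nat.primeCounting (2 * n - 3) := by
    rw [← card_primes]
    apply card_le_card_of_injOn (fun x => 2 * x - 3)
    · intro x hx
      rw [mem_coe, mem_filter, mem_Icc] at hx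
      rw [mem_coe, mem_filter, mem_range]
      exact ⟨show 2 * x - 3 < 2 * n - 3 + 1 by omega, hx.2⟩
    · intro x hx y hy h
      have h1 := (mem_filter.1 (mem_coe.1 hx)).2.two_le
      have h2 := (mem_filter.1 (mem_coe.1 hy)).2.two_le
      simp only at h
      omega
  have b2 : Nat.primeCounting (2 * n - 3) ≤ ((Icc 1 n).filter (fun x => (2 * x - 3).Prime)).card + 1 := by
    rw [← card_primes]
    have e : (range (2 * n - 3 + 1)).filter Nat.Prime ⊆
        ((Icc 1 n).filter (fun x => (2 * x - 3).Prime)).image (fun x => 2 * x - 3) ∪ {2} := by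
      intro p hp
      rw [mem_filter, mem_range] at hp
      rw [mem_union, mem_image, mem_singleton]
      rcases hp.2.eq_two_or_odd with h | h
      · right; exact h
      · left
        refine ⟨(p + 3) / 2, ?_, by omega⟩
        rw [mem_filter, mem_Icc]
        have e : 2 * ((p + 3) / 2) - 3 = p := by omega
        rw [e]
        exact ⟨by omega, hp.2⟩
    refine (card_le_card e).trans ((card_union_le _ _).trans ?_)
    have e3 := card_image_le (s := (Icc 1 n).filter (fun x => (2 * x - 3).Prime)) (f := fun x => 2 * x - 3)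
    rw [card_singleton]
    omega
  have c1 := card_union_add_card_inter ((Icc 1 n).filter (fun x => (2 * x + 3).Prime))
    ((Icc 1 n).filter (fun x => (2 * x - 3).Prime))
  rw [← filter_and, ← filter_or] at c1
  have c2 : (SS n).card ≤ ((Icc 1 n).filter (fun x => (2 * x + 3).Prime ∨ (2 * x - 3).Prime)).card := by
    apply card_le_card
    intro x hx
    unfold SS at hx
    rw [mem_filter] at hx ⊢
    exact ⟨hx.1, hx.2.2⟩
  have c3 : ((Icc 1 n).filter (fun x => (2 * x + 3).Prime ∨ (2 * x - 3).Prime)).card ≤ (SS n).card + 1 := by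
    have e : (Icc 1 n).filter (fun x => (2 * x + 3).Prime ∨ (2 * x - 3).Prime) ⊆ SS n ∪ {3} := by
      intro x hx
      rw [mem_filter] at hx
      rw [mem_union, mem_singleton]
      unfold SS
      rw [mem_filter]
      by_cases h3 : 3 ∣ x
      · right
        obtain ⟨k, rfl⟩ := h3
        have hk := (mem_Icc.1 hx.1).1
        rcases hx.2 with h | h
        · have e1 : 3 ∣ 2 * (3 * k) + 3 := ⟨2 * k + 1, by ring⟩
          have := (Nat.prime_dvd_prime_iff_eq Nat.prime_three h).1 e1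
          omega
        · have e1 : 3 ∣ 2 * (3 * k) - 3 := ⟨2 * k - 1, by omega⟩
          have := (Nat.prime_dvd_prime_iff_eq Nat.prime_three h).1 e1
          omega
      · left
        exact ⟨hx.1, h3, hx.2⟩
    refine (card_le_card e).trans ((card_union_le _ _).trans ?_)
    rw [card_singleton]
  set s := (SS n).card
  set a := ((Icc 1 n).filter (fun x => (2 * x + 3).Prime)).card
  set b := ((Icc 1 n).filter (fun x => (2 * x - 3).Prime)).card
  set c := ((Icc 1 n).filter (fun x => (2 * x + 3).Prime ∧ (2 * x - 3).Prime)).card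
  set d := ((Icc 1 n).filter (fun x => (2 * x + 3).Prime ∨ (2 * x - 3).Prime)).card
  set p := Nat.primeCounting (2 * n + 3)
  set q := Nat.primeCounting (2 * n - 3)
  have f1 : s ≤ p + q + (6 + c) := by omega
  have f2 : p + q ≤ s + (6 + c) := by omega
  have g1 : (s : ℝ) ≤ p + q + (6 + c) := by exact_mod_cast f1
  have g2 : (p : ℝ) + q ≤ s + (6 + c) := by exact_mod_cast f2
  rw [abs_le]
  constructor <;> linarith

/-- the count of the pairs which are closer than predicted by the residues -/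
theorem sht_card : ∃ (C : ℝ) (N : ℕ), 0 < C ∧ ∀ n : ℕ, N ≤ n →
    |((FF n (fun p => Sht p.1 p.2)).card : ℝ) - 8 / 3 * (n ^ 2 / Real.log n)| ≤ C * (n ^ 2 / Real.log n ^ 2) := by
  obtain ⟨C₁, N₁, hC₁, h1⟩ := pi_two
  obtain ⟨C₂, N₂, hC₂, h2⟩ := pairs_six
  obtain ⟨N₃, h3⟩ := evLog 1
  have hbig : ∃ N : ℕ, ∀ n : ℕ, N ≤ n → Real.log n ^ 2 ≤ n := by
    have h3 := (Real.isLittleO_pow_log_id_atTop (n := 2)).bound (c := 1) (by norm_num)
    obtain ⟨n₀, h0⟩ := evN _ ((tendsto_natCast_atTop_atTop (R := ℝ)).eventually h3)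
    refine ⟨n₀ + 3, fun n hn => ?_⟩
    have h6 := h0 n (by omega)
    rw [Real.norm_of_nonneg (by positivity), id, Real.norm_of_nonneg (by positivity), one_mul] at h6
    exact h6
  obtain ⟨N₄, h4⟩ := hbig
  obtain ⟨K, hK⟩ : ∃ K : ℝ, K = 2 * C₁ + C₂ + 6 := ⟨_, rfl⟩
  have hK0 : 0 < K := by rw [hK]; positivity
  refine ⟨K + 4 * (4 + K) + (4 + K) ^ 2, N₁ + N₂ + N₃ + N₄ + 3, by positivity, fun n hn => ?_⟩
  have a1 := h1 n (by omega) (2 * n + 3) (by omega) (by omega)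
  have a1' := h1 n (by omega) (2 * n - 3) (by omega) (by omega)
  have a2 := h2 n (by omega)
  have hl := h3 n (by omega)
  have hl2 := h4 n (by omega)
  have a5 := SS_card n (by omega)
  have a6 := T_card n
  set L := Real.log n with hL
  have hL0 : 0 < L := by linarith
  have hn0 : (0 : ℝ) < n := by exact_mod_cast (by omega : 0 < n)
  have u1 : 1 ≤ (n : ℝ) / L ^ 2 := by
    rw [le_div_iff₀ (by positivity), one_mul]
    exact hl2
  -- the size of `SS n`
  have a7 : |((SS n).card : ℝ) - 4 * (n / L)| ≤ K * (n / L ^ 2) := by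
    rw [abs_le] at a1 a1' a5 ⊢
    rw [hK]
    constructor <;> nlinarith [a1.1, a1.2, a1'.1, a1'.2, a5.1, a5.2]
  have a8 : ((SS n).card : ℝ) ≤ (4 + K) * (n / L) := by
    have e1 : (n : ℝ) / L ^ 2 ≤ n / L := by
      apply div_le_div_of_nonneg_left hn0.le hL0
      nlinarith
    have := (abs_le.1 a7).2
    nlinarith [mul_le_mul_of_nonneg_left e1 hK0.le]
  have s0 : (0 : ℝ) ≤ ((SS n).card : ℝ) := Nat.cast_nonneg _
  have a9 : ((SS n).card : ℝ) ^ 2 ≤ (4 + K) ^ 2 * (n ^ 2 / L ^ 2) := by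
    have e1 := pow_le_pow_left₀ s0 a8 2
    refine e1.trans (le_of_eq ?_)
    ring
  have a10 : 4 * ((SS n).card : ℝ) ≤ 4 * (4 + K) * (n ^ 2 / L ^ 2) := by
    have e1 : (n : ℝ) / L ≤ n ^ 2 / L ^ 2 := by
      rw [div_le_div_iff₀ hL0 (by positivity)]
      have hLn : L ≤ n := by nlinarith
      have : (0 : ℝ) ≤ n * L := by positivity
      nlinarith [mul_le_mul_of_nonneg_left hLn this]
    nlinarith [mul_le_mul_of_nonneg_left e1 (by positivity : (0 : ℝ) ≤ 4 + K)]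
  have a11 : |2 * (((SS n).card : ℝ) * (n / 3)) - 8 / 3 * (n ^ 2 / L)| ≤ K * (n ^ 2 / L ^ 2) := by
    have e1 : 2 * (((SS n).card : ℝ) * (n / 3)) - 8 / 3 * (n ^ 2 / L) = (2 / 3 * n) * (((SS n).card : ℝ) - 4 * (n / L)) := by
      ring
    rw [e1, abs_mul, abs_of_pos (by positivity : (0 : ℝ) < 2 / 3 * n)]
    have e2 := mul_le_mul_of_nonneg_left a7 (by positivity : (0 : ℝ) ≤ 2 / 3 * n)
    refine e2.trans ?_
    have e3 : 2 / 3 * (n : ℝ) * (K * (n / L ^ 2)) = 2 / 3 * (K * (n ^ 2 / L ^ 2)) := by ring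
    rw [e3]
    have : 0 ≤ K * ((n : ℝ) ^ 2 / L ^ 2) := by positivity
    linarith
  have e : ((FF n (fun p => Sht p.1 p.2)).card : ℝ) - 8 / 3 * (n ^ 2 / L) =
      (((FF n (fun p => Sht p.1 p.2)).card : ℝ) - 2 * ((SS n).card * (n / 3))) +
      (2 * (((SS n).card : ℝ) * (n / 3)) - 8 / 3 * (n ^ 2 / L)) := by ring
  rw [e]
  refine (abs_add_le _ _).trans ?_
  linarith

/-- the number of the exceptional pairs and the size of the trivial terms -/
theorem ex_card : ∃ (C : ℝ) (N : ℕ), 0 < C ∧ ∀ n : ℕ, N ≤ n →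
    ((FF n (fun p => Ex p.1 p.2)).card : ℝ) ≤ C * (n ^ 2 / Real.log n ^ 2) ∧ (n : ℝ) ≤ n ^ 2 / Real.log n ^ 2 := by
  obtain ⟨C₁, N₁, hC₁, h1⟩ := pi_two
  obtain ⟨N₃, h3⟩ := evLog 1
  have hbig : ∃ N : ℕ, ∀ n : ℕ, N ≤ n → Real.log n ^ 2 ≤ n := by
    have h3 := (Real.isLittleO_pow_log_id_atTop (n := 2)).bound (c := 1) (by norm_num)
    obtain ⟨n₀, h0⟩ := evN _ ((tendsto_natCast_atTop_atTop (R := ℝ)).eventually h3)
    refine ⟨n₀ + 3, fun n hn => ?_⟩
    have h6 := h0 n (by omega)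
    rw [Real.norm_of_nonneg (by positivity), id, Real.norm_of_nonneg (by positivity), one_mul] at h6
    exact h6
  obtain ⟨N₄, h4⟩ := hbig
  refine ⟨81 + 38 * (2 + C₁) ^ 2, N₁ + N₃ + N₄ + 3, by positivity, fun n hn => ?_⟩
  have a1 := h1 n (by omega) (2 * n + 8) (by omega) (by omega)
  have hl := h3 n (by omega)
  have hl2 := h4 n (by omega)
  have a2 := Ex_card n
  set L := Real.log n with hL
  have hL0 : 0 < L := by linarith
  have hn0 : (0 : ℝ) < n := by exact_mod_cast (by omega : 0 < n)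
  have u1 : (n : ℝ) ≤ n ^ 2 / L ^ 2 := by
    rw [le_div_iff₀ (by positivity)]
    nlinarith
  refine ⟨?_, u1⟩
  have a3 : ((FF n (fun p => Ex p.1 p.2)).card : ℝ) ≤ 81 * n + 38 * (Nat.primeCounting (2 * n + 8) : ℝ) ^ 2 := by
    exact_mod_cast a2
  have e1 : (n : ℝ) / L ^ 2 ≤ n / L := by
    apply div_le_div_of_nonneg_left hn0.le hL0
    nlinarith
  have a4 : (Nat.primeCounting (2 * n + 8) : ℝ) ≤ (2 + C₁) * (n / L) := by
    have := (abs_le.1 a1).2
    nlinarith [mul_le_mul_of_nonneg_left e1 hC₁.le]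
  have a5 : (Nat.primeCounting (2 * n + 8) : ℝ) ^ 2 ≤ (2 + C₁) ^ 2 * (n ^ 2 / L ^ 2) := by
    have e1 := pow_le_pow_left₀ (Nat.cast_nonneg _) a4 2
    refine e1.trans (le_of_eq ?_)
    ring
  linarith

end Pool.Agent.H76.GD
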