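import Pool.Agent.H76.GD.Loc5
import Pool.Graph.R_pool_sql_team_seeded_b677cdb8.E8helper98.GB.Br

set_option autoImplicit false
set_option maxHeartbeats 4000000

/-!
# Paths of length three between multiples of three, for almost all pairs
-/

namespace Pool.Agent.H76.GD
open Finset
open Pool.Agent.H373R2.T7 (Vz Vz_pos Vz_inv_small pz)
open Pool.Agent.E8helper66.GB (KZ KL S_ESTW)
open Pool.Agent.E8helper98.GB (gg gg_nonneg gg_sum vm_le sum_gg_add sum_gg_dist sum_gg_three ev_log ev)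
open Pool.Agent.R521.GG (R)

lemma gg_eq {m : ℕ} (h : ¬ (m.Prime ∧ Odd m)) : gg m = ArithmeticFunction.vonMangoldt m := by
  unfold gg
  rw [if_neg h]

lemma ev_pow5 (C : ℝ) : ∃ N0 : ℕ, ∀ N : ℕ, N0 ≤ N → C * Real.log N ^ 5 ≤ Real.sqrt N := by
  apply ev
  have h1 : (fun x : ℝ => Real.log x ^ 5) =o[Filter.atTop] (fun x : ℝ => x ^ (1 / 2 : ℝ)) := by
    have := isLittleO_log_rpow_rpow_atTop (s := 1 / 2) ((5 : ℕ) : ℝ) (by norm_num : (0 : ℝ) < 1 / 2)
    simpa only [Real.rpow_natCast] using this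
  have h2 : (fun x : ℝ => C * Real.log x ^ 5) =o[Filter.atTop] (fun x : ℝ => x ^ (1 / 2 : ℝ)) := h1.const_mul_left C
  have h3 := h2.bound (c := 1) one_pos
  have h4 := (tendsto_natCast_atTop_atTop (R := ℝ)).eventually h3
  filter_upwards [h4] with N h5
  rw [one_mul, Real.norm_eq_abs, Real.norm_eq_abs, ← Real.sqrt_eq_rpow, abs_of_nonneg (Real.sqrt_nonneg _)] at h5
  exact (le_abs_self _).trans h5

/-- the weight of a path -/
noncomputable def TT (a c b : ℕ) : ℝ := (ArithmeticFunction.vonMangoldt (2 * b + 3) : ℝ) * (KL a b * KL c (b + 3))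

lemma TT_pt (n m a c b : ℕ) (hm : m = n + 3) (hn : 2 ≤ n) (ha : a ≤ n) (hc : c ≤ n) (hb1 : 1 ≤ b) (hb : b ≤ n)
    (hbad : ¬ (b + 3 ≤ n ∧ R a b ∧ (2 * b + 3).Prime ∧ R c (b + 3))) :
    TT a c b ≤ (if n < b + 3 then 32 * Real.log m ^ 5 else 0) + 16 * Real.log m ^ 4 *
      (gg (a + b) + gg (Nat.dist a b) + gg (2 * b + 3) + gg (c + (b + 3)) + gg (Nat.dist c (b + 3))) := by
  have hm2 : 2 ≤ m := by omega
  obtain ⟨L, hL⟩ : ∃ L, L = Real.log (m : ℝ) := ⟨_, rfl⟩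
  rw [← hL]
  have hL0 : 0 ≤ L := by rw [hL]; exact Real.log_natCast_nonneg m
  have v1 : (ArithmeticFunction.vonMangoldt (a + b) : ℝ) ≤ 2 * L := by rw [hL]; exact vm_le m _ hm2 (by omega)
  have v2 : (ArithmeticFunction.vonMangoldt (Nat.dist a b) : ℝ) ≤ 2 * L := by
    rw [hL]; exact vm_le m _ hm2 (by unfold Nat.dist; omega)
  have v3 : (ArithmeticFunction.vonMangoldt (2 * b + 3) : ℝ) ≤ 2 * L := by rw [hL]; exact vm_le m _ hm2 (by omega)
  have v4 : (ArithmeticFunction.vonMangoldt (c + (b + 3)) : ℝ) ≤ 2 * L := by rw [hL]; exact vm_le m _ hm2 (by omega)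
  have v5 : (ArithmeticFunction.vonMangoldt (Nat.dist c (b + 3)) : ℝ) ≤ 2 * L := by
    rw [hL]; exact vm_le m _ hm2 (by unfold Nat.dist; omega)
  have w1 : (0 : ℝ) ≤ ArithmeticFunction.vonMangoldt (a + b) := ArithmeticFunction.vonMangoldt_nonneg
  have w2 : (0 : ℝ) ≤ ArithmeticFunction.vonMangoldt (Nat.dist a b) := ArithmeticFunction.vonMangoldt_nonneg
  have w3 : (0 : ℝ) ≤ ArithmeticFunction.vonMangoldt (2 * b + 3) := ArithmeticFunction.vonMangoldt_nonneg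
  have w4 : (0 : ℝ) ≤ ArithmeticFunction.vonMangoldt (c + (b + 3)) := ArithmeticFunction.vonMangoldt_nonneg
  have w5 : (0 : ℝ) ≤ ArithmeticFunction.vonMangoldt (Nat.dist c (b + 3)) := ArithmeticFunction.vonMangoldt_nonneg
  have g1 := gg_nonneg (a + b)
  have g2 := gg_nonneg (Nat.dist a b)
  have g3 := gg_nonneg (2 * b + 3)
  have g4 := gg_nonneg (c + (b + 3))
  have g5 := gg_nonneg (Nat.dist c (b + 3))
  have hT : TT a c b = ArithmeticFunction.vonMangoldt (2 * b + 3) *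
      ((ArithmeticFunction.vonMangoldt (a + b) * ArithmeticFunction.vonMangoldt (Nat.dist a b)) *
      (ArithmeticFunction.vonMangoldt (c + (b + 3)) * ArithmeticFunction.vonMangoldt (Nat.dist c (b + 3)))) := rfl
  rw [hT]
  have key : ∀ x y u v w : ℝ, 0 ≤ x → 0 ≤ y → 0 ≤ u → 0 ≤ v → 0 ≤ w → x ≤ 2 * L → y ≤ 2 * L → u ≤ 2 * L → v ≤ 2 * L →
      x * y * u * v * w ≤ 16 * L ^ 4 * w := by
    intro x y u v w hx hy hu hv hw hx' hy' hu' hv'
    have h1 : x * y ≤ (2 * L) * (2 * L) := mul_le_mul hx' hy' hy (by positivity)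
    have h2 : x * y * u ≤ (2 * L) * (2 * L) * (2 * L) := mul_le_mul h1 hu' hu (by positivity)
    have h3 : x * y * u * v ≤ (2 * L) * (2 * L) * (2 * L) * (2 * L) := mul_le_mul h2 hv' hv (by positivity)
    have h4 := mul_le_mul_of_nonneg_right h3 hw
    refine h4.trans (le_of_eq ?_)
    ring
  have hL4 : 0 ≤ 16 * L ^ 4 := by positivity
  have hL5 : 0 ≤ 32 * L ^ 5 := by positivity
  have hfin : ∀ w : ℝ, w ≤ gg (a + b) + gg (Nat.dist a b) + gg (2 * b + 3) + gg (c + (b + 3)) + gg (Nat.dist c (b + 3)) →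
      16 * L ^ 4 * w ≤ (if n < b + 3 then 32 * L ^ 5 else 0) + 16 * L ^ 4 *
      (gg (a + b) + gg (Nat.dist a b) + gg (2 * b + 3) + gg (c + (b + 3)) + gg (Nat.dist c (b + 3))) := by
    intro w hw
    have h1 := mul_le_mul_of_nonneg_left hw hL4
    have h2 : (0 : ℝ) ≤ if n < b + 3 then 32 * L ^ 5 else 0 := by split_ifs <;> positivity
    linarith
  by_cases h1 : n < b + 3
  · rw [if_pos h1]
    have h2 := key _ _ _ _ _ w1 w2 w3 w4 w5 v1 v2 v3 v4
    have h3 := mul_le_mul_of_nonneg_left v5 hL4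
    have h4 : 0 ≤ 16 * L ^ 4 * (gg (a + b) + gg (Nat.dist a b) + gg (2 * b + 3) + gg (c + (b + 3)) + gg (Nat.dist c (b + 3))) := by
      positivity
    have h5 : 16 * L ^ 4 * (2 * L) = 32 * L ^ 5 := by ring
    calc _ = ArithmeticFunction.vonMangoldt (a + b) * ArithmeticFunction.vonMangoldt (Nat.dist a b) *
          ArithmeticFunction.vonMangoldt (2 * b + 3) * ArithmeticFunction.vonMangoldt (c + (b + 3)) *
          ArithmeticFunction.vonMangoldt (Nat.dist c (b + 3)) := by ring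
      _ ≤ _ := by linarith
  · rcases Classical.not_and_iff_not_or_not.1 hbad with h2 | h2
    · omega
    rcases Classical.not_and_iff_not_or_not.1 h2 with h3 | h2
    · rcases Classical.not_and_iff_not_or_not.1 h3 with h4 | h4
      · have e := gg_eq h4
        refine le_trans ?_ (hfin _ (show gg (a + b) ≤ _ by linarith))
        rw [e]
        refine le_trans (le_of_eq ?_) (key _ _ _ _ _ w2 w3 w4 w5 w1 v2 v3 v4 v5)
        ring
      · have e := gg_eq h4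
        refine le_trans ?_ (hfin _ (show gg (Nat.dist a b) ≤ _ by linarith))
        rw [e]
        refine le_trans (le_of_eq ?_) (key _ _ _ _ _ w1 w3 w4 w5 w2 v1 v3 v4 v5)
        ring
    rcases Classical.not_and_iff_not_or_not.1 h2 with h3 | h3
    · have e := gg_eq (m := 2 * b + 3) (fun h => h3 h.1)
      refine le_trans ?_ (hfin _ (show gg (2 * b + 3) ≤ _ by linarith))
      rw [e]
      refine le_trans (le_of_eq ?_) (key _ _ _ _ _ w1 w2 w4 w5 w3 v1 v2 v4 v5)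
      ring
    · rcases Classical.not_and_iff_not_or_not.1 h3 with h4 | h4
      · have e := gg_eq h4
        refine le_trans ?_ (hfin _ (show gg (c + (b + 3)) ≤ _ by linarith))
        rw [e]
        refine le_trans (le_of_eq ?_) (key _ _ _ _ _ w1 w2 w3 w5 w4 v1 v2 v3 v5)
        ring
      · have e := gg_eq h4
        refine le_trans ?_ (hfin _ (show gg (Nat.dist c (b + 3)) ≤ _ by linarith))
        rw [e]
        refine le_trans (le_of_eq ?_) (key _ _ _ _ _ w1 w2 w3 w4 w5 v1 v2 v3 v4)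
        ring

/-- the weights of the paths of a pair without good paths are small -/
lemma TT_sum (n m a c : ℕ) (hm : m = n + 3) (hn : 2 ≤ n) (ha : a ≤ n) (hc : c ≤ n) (hL1 : 1 ≤ Real.log m)
    (hbad : ¬ ∃ b ∈ Icc 1 n, b + 3 ≤ n ∧ R a b ∧ (2 * b + 3).Prime ∧ R c (b + 3)) :
    ∑ b ∈ Icc 1 n, TT a c b ≤ 1200 * (Real.sqrt m * Real.log m ^ 5) := by
  have hm2 : 2 ≤ m := by omega
  have h1 : ∑ b ∈ Icc 1 n, TT a c b ≤ ∑ b ∈ Icc 1 n, ((if n < b + 3 then 32 * Real.log m ^ 5 else 0) + 16 * Real.log m ^ 4 *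
      (gg (a + b) + gg (Nat.dist a b) + gg (2 * b + 3) + gg (c + (b + 3)) + gg (Nat.dist c (b + 3)))) := by
    apply sum_le_sum
    intro b hb
    rw [mem_Icc] at hb
    exact TT_pt n m a c b hm hn ha hc hb.1 hb.2 (fun h => hbad ⟨b, mem_Icc.2 hb, h⟩)
  refine h1.trans ?_
  have hG := gg_sum m hm2
  have hmr : (5 : ℝ) ≤ m := by exact_mod_cast (by omega : 5 ≤ m)
  obtain ⟨L, hL⟩ : ∃ L, L = Real.log (m : ℝ) := ⟨_, rfl⟩
  rw [← hL] at hL1 hG ⊢
  have hs0 : 0 ≤ Real.sqrt m := Real.sqrt_nonneg _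
  have hs1 : 1 ≤ Real.sqrt m := by
    rw [Real.one_le_sqrt]
    linarith
  rw [sum_add_distrib, ← mul_sum, sum_add_distrib, sum_add_distrib, sum_add_distrib, sum_add_distrib]
  have s1 := sum_gg_add m a (by omega) (Icc 1 n) (Icc_subset_Icc_right (by omega))
  have s2 := sum_gg_dist m a (by omega) (Icc 1 n) (Icc_subset_Icc_right (by omega))
  have s3 : ∑ b ∈ Icc 1 n, gg (2 * b + 3) ≤ 21 * (Real.sqrt m * L) := by
    rw [hL]
    refine le_trans ?_ (sum_gg_three m hm2)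
    exact sum_le_sum_of_subset_of_nonneg (Icc_subset_Icc_right (by omega)) (fun i _ _ => gg_nonneg _)
  have himg : (Icc 1 n).image (fun b => b + 3) ⊆ Icc 1 m := by
    intro x hx
    rw [mem_image] at hx
    obtain ⟨b, hb, rfl⟩ := hx
    rw [mem_Icc] at hb ⊢
    omega
  have s4 : ∑ b ∈ Icc 1 n, gg (c + (b + 3)) ≤ ∑ x ∈ Icc 1 (2 * m), gg x := by
    have e : ∑ b ∈ Icc 1 n, gg (c + (b + 3)) = ∑ x ∈ (Icc 1 n).image (fun b => b + 3), gg (c + x) := by
      rw [sum_image]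
      intro x _ y _ h
      simp only at h
      omega
    rw [e]
    exact sum_gg_add m c (by omega) _ himg
  have s5 : ∑ b ∈ Icc 1 n, gg (Nat.dist c (b + 3)) ≤ 2 * ∑ x ∈ Icc 1 (2 * m), gg x := by
    have e : ∑ b ∈ Icc 1 n, gg (Nat.dist c (b + 3)) = ∑ x ∈ (Icc 1 n).image (fun b => b + 3), gg (Nat.dist c x) := by
      rw [sum_image]
      intro x _ y _ h
      simp only at h
      omega
    rw [e]
    exact sum_gg_dist m c (by omega) _ himg
  have s6 : ∑ b ∈ Icc 1 n, (if n < b + 3 then 32 * L ^ 5 else 0) ≤ 96 * L ^ 5 := by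
    rw [← sum_filter, sum_const, nsmul_eq_mul]
    have hcd : ((Icc 1 n).filter (fun b => n < b + 3)).card ≤ 3 := by
      have : (Icc 1 n).filter (fun b => n < b + 3) ⊆ Ioc (n - 3) n := by
        intro b hb
        rw [mem_filter, mem_Icc] at hb
        rw [mem_Ioc]
        omega
      refine (card_le_card this).trans ?_
      rw [Nat.card_Ioc]
      omega
    have hc' : (((Icc 1 n).filter (fun b => n < b + 3)).card : ℝ) ≤ 3 := by exact_mod_cast hcd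
    have := mul_le_mul_of_nonneg_right hc' (show 0 ≤ 32 * L ^ 5 by positivity)
    linarith
  have s7 : 16 * L ^ 4 * (∑ b ∈ Icc 1 n, gg (a + b) + ∑ b ∈ Icc 1 n, gg (Nat.dist a b) + ∑ b ∈ Icc 1 n, gg (2 * b + 3) +
      ∑ b ∈ Icc 1 n, gg (c + (b + 3)) + ∑ b ∈ Icc 1 n, gg (Nat.dist c (b + 3))) ≤ 16 * L ^ 4 * (63 * (Real.sqrt m * L)) := by
    apply mul_le_mul_of_nonneg_left _ (by positivity)
    linarith
  have s8 : 16 * L ^ 4 * (63 * (Real.sqrt m * L)) = 1008 * (Real.sqrt m * L ^ 5) := by ring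
  have s9 : 96 * L ^ 5 ≤ 96 * (Real.sqrt m * L ^ 5) := by
    have : 0 ≤ L ^ 5 := by positivity
    nlinarith
  have s10 : 0 ≤ Real.sqrt m * L ^ 5 := by positivity
  linarith

open Classical in
lemma est_w (m z : ℕ) (K : ℝ) (h : ∀ f g : ℕ → ℝ, (∀ a, 0 ≤ f a ∧ f a ≤ 1) → (∀ b, 0 ≤ g b ∧ g b ≤ 1) →
    |∑ a ∈ Icc 1 m, ∑ b ∈ Icc 1 m, f a * g b * (KL a b - KZ z a b)| ≤ K) (A Bs : Finset ℕ) (hA : A ⊆ Icc 1 m)
    (hB : Bs ⊆ Icc 1 m) (w : ℕ → ℝ) (M : ℝ) (hM : 0 < M) (hw : ∀ b ∈ Bs, 0 ≤ w b ∧ w b ≤ M) :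
    |∑ a ∈ A, ∑ b ∈ Bs, w b * (KL a b - KZ z a b)| ≤ M * K := by
  have h1 := h (fun a => if a ∈ A then 1 else 0) (fun b => if b ∈ Bs then w b / M else 0)
    (fun a => by split_ifs <;> norm_num) (fun b => by
      split_ifs with hb
      · have := hw b hb
        refine ⟨div_nonneg this.1 hM.le, ?_⟩
        rw [div_le_one hM]
        exact this.2
      · norm_num)
  have e : ∑ a ∈ Icc 1 m, ∑ b ∈ Icc 1 m, (if a ∈ A then (1 : ℝ) else 0) * (if b ∈ Bs then w b / M else 0) * (KL a b - KZ z a b) =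
      (∑ a ∈ A, ∑ b ∈ Bs, w b * (KL a b - KZ z a b)) / M := by
    have e1 : ∀ a ∈ Icc 1 m, ∑ b ∈ Icc 1 m, (if a ∈ A then (1 : ℝ) else 0) * (if b ∈ Bs then w b / M else 0) * (KL a b - KZ z a b) =
        if a ∈ A then (∑ b ∈ Bs, w b * (KL a b - KZ z a b)) / M else 0 := by
      intro a _
      split_ifs with haA
      · rw [sum_div]
        have e2 : ∑ b ∈ Icc 1 m, 1 * (if b ∈ Bs then w b / M else 0) * (KL a b - KZ z a b) =
            ∑ b ∈ Icc 1 m, if b ∈ Bs then (w b * (KL a b - KZ z a b)) / M else 0 := by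
          apply sum_congr rfl
          intro b _
          split_ifs <;> ring
        rw [e2, sum_ite_mem, inter_eq_right.2 hB]
      · simp
    rw [sum_congr rfl e1, sum_ite_mem, inter_eq_right.2 hA, sum_div]
  rw [e, abs_div, abs_of_pos hM, div_le_iff₀ hM] at h1
  rw [mul_comm]
  exact h1

open Classical in
/-- For almost all pairs with the local condition there is a path of length three. -/
theorem three (hW : S_ESTW) (U : ℕ) : ∃ n₀ : ℕ, ∀ n : ℕ, n₀ ≤ n →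
    ((((Icc 1 n) ×ˢ (Icc 1 n)).filter (fun x : ℕ × ℕ => Loc5 x.1 x.2 ∧
      ¬ ∃ b ∈ Icc 1 n, b + 3 ≤ n ∧ R x.1 b ∧ (2 * b + 3).Prime ∧ R x.2 (b + 3))).card : ℝ) ≤ (n : ℝ) ^ 2 / Real.log n ^ U := by
  obtain ⟨c₀, hc₀, hloc⟩ := loc5
  obtain ⟨B, hB⟩ := hW (U + 4)
  obtain ⟨m1, h1⟩ := hB (B + 2)
  obtain ⟨m2, h2⟩ := hloc (B + 2)
  obtain ⟨m3, h3⟩ := ev_pow5 (4800 / c₀)
  obtain ⟨m4, h4⟩ := ev_log (max (2 ^ (B + 1)) (max 8 (320 / c₀)))
  obtain ⟨m5, h5⟩ := Vz_inv_small (B + 2)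
  refine ⟨m1 + m2 + m3 + m4 + m5 + 4, fun n hn => ?_⟩
  obtain ⟨m, hm⟩ : ∃ m, m = n + 3 := ⟨_, rfl⟩
  have hln := h4 n (by omega)
  have hP := h3 m (by omega)
  have hn4 : (4 : ℝ) ≤ n := by exact_mod_cast (by omega : 4 ≤ n)
  have hn0 : (0 : ℝ) < n := by linarith
  have hmr : (m : ℝ) = n + 3 := by rw [hm]; push_cast; ring
  have hm0 : (0 : ℝ) < m := by rw [hmr]; linarith
  have hm2n : (m : ℝ) ≤ 2 * n := by rw [hmr]; linarith
  obtain ⟨l, hl⟩ : ∃ l, l = Real.log (n : ℝ) := ⟨_, rfl⟩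
  obtain ⟨L, hL⟩ : ∃ L, L = Real.log (m : ℝ) := ⟨_, rfl⟩
  have hlL : l ≤ L := by
    rw [hl, hL]
    apply Real.log_le_log hn0
    rw [hmr]
    linarith
  have hL2l : L ≤ 2 * l := by
    rw [hl, hL]
    calc Real.log (m : ℝ) ≤ Real.log ((n : ℝ) ^ 2) := by
          apply Real.log_le_log hm0
          nlinarith
      _ = 2 * Real.log n := by rw [Real.log_pow]; norm_num
  rw [← hl] at hln
  have hl8 : 8 ≤ l := (le_max_left _ _).trans ((le_max_right _ _).trans hln)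
  have hlc : 320 / c₀ ≤ l := (le_max_right _ _).trans ((le_max_right _ _).trans hln)
  have hlB : (2 : ℝ) ^ (B + 1) ≤ l := (le_max_left _ _).trans hln
  have hl0 : 0 < l := by linarith
  have hL0 : 0 < L := by linarith
  have hL1 : 1 ≤ L := by linarith
  obtain ⟨z, hz⟩ : ∃ z : ℕ, z = ⌈L ^ B⌉₊ := ⟨_, rfl⟩
  have hLB1 : 1 ≤ L ^ B := one_le_pow₀ hL1
  have hz1 : L ^ B ≤ (z : ℝ) := by rw [hz]; exact Nat.le_ceil _
  have hz2 : (z : ℝ) ≤ l ^ (B + 2) := by
    have e1 : (z : ℝ) ≤ L ^ B + 1 := by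
      rw [hz]
      exact (Nat.ceil_lt_add_one (by linarith)).le
    have e2 : L ^ B ≤ (2 * l) ^ B := pow_le_pow_left₀ hL0.le hL2l B
    have e3 : (2 * l) ^ B = 2 ^ B * l ^ B := mul_pow _ _ _
    have e4 : 2 * (2 : ℝ) ^ B ≤ l := by
      have : (2 : ℝ) ^ (B + 1) = 2 * 2 ^ B := by ring
      linarith
    have e5 : 0 < l ^ B := by positivity
    calc (z : ℝ) ≤ 2 * L ^ B := by linarith
      _ ≤ 2 * (2 ^ B * l ^ B) := by linarith
      _ = (2 * 2 ^ B) * l ^ B := by ring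
      _ ≤ l * l ^ B := mul_le_mul_of_nonneg_right e4 e5.le
      _ ≤ (l * l) * l ^ B := by
          apply mul_le_mul_of_nonneg_right _ e5.le
          nlinarith
      _ = l ^ (B + 2) := by ring
  have hz2' : (z : ℝ) ≤ L ^ (B + 2) := hz2.trans (pow_le_pow_left₀ hl0.le hlL _)
  have hz0 : 1 ≤ z := by
    have : (1 : ℝ) ≤ z := hLB1.trans hz1
    exact_mod_cast this
  have hV := h5 m (by omega) z hz0 (by rw [← hL]; exact hz2')
  rw [← hL] at hV hP
  obtain ⟨S, hS⟩ : ∃ S : Finset (ℕ × ℕ), S = ((Icc 1 n) ×ˢ (Icc 1 n)).filter (fun x : ℕ × ℕ => Loc5 x.1 x.2 ∧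
      ¬ ∃ b ∈ Icc 1 n, b + 3 ≤ n ∧ R x.1 b ∧ (2 * b + 3).Prime ∧ R x.2 (b + 3)) := ⟨_, rfl⟩
  rw [← hS, ← hl]
  have hSm : ∀ x ∈ S, (1 ≤ x.1 ∧ x.1 ≤ n) ∧ (1 ≤ x.2 ∧ x.2 ≤ n) ∧ Loc5 x.1 x.2 ∧
      ¬ ∃ b ∈ Icc 1 n, b + 3 ≤ n ∧ R x.1 b ∧ (2 * b + 3).Prime ∧ R x.2 (b + 3) := by
    intro x hx
    rw [hS, mem_filter, mem_product, mem_Icc, mem_Icc] at hx
    exact ⟨hx.1.1, hx.1.2, hx.2.1, hx.2.2⟩
  -- the upper bound
  have hup : ∑ x ∈ S, ∑ b ∈ Icc 1 n, TT x.1 x.2 b ≤ S.card * (1200 * (Real.sqrt m * L ^ 5)) := by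
    rw [← nsmul_eq_mul, ← sum_const]
    apply sum_le_sum
    intro x hx
    obtain ⟨q1, q2, q3, q4⟩ := hSm x hx
    rw [hL]
    exact TT_sum n m x.1 x.2 hm (by omega) q1.2 q2.2 (by rw [← hL]; exact hL1) q4
  -- the estimate
  have hest := h1 m (by omega) z (by rw [← hL]; exact (pow_le_pow_left₀ hL0.le le_rfl B).trans hz1)
    (by rw [← hL]; exact hz2')
  rw [← hL] at hest
  obtain ⟨K, hK⟩ : ∃ K, K = (m : ℝ) ^ 2 / L ^ (U + 4) := ⟨_, rfl⟩
  rw [← hK] at hest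
  have hK0 : 0 ≤ K := by rw [hK]; positivity
  have hΛ : ∀ b, b ≤ n → (0 : ℝ) ≤ ArithmeticFunction.vonMangoldt (2 * b + 3) ∧
      (ArithmeticFunction.vonMangoldt (2 * b + 3) : ℝ) ≤ 2 * L := by
    intro b hb
    refine ⟨ArithmeticFunction.vonMangoldt_nonneg, ?_⟩
    rw [hL]
    exact vm_le m _ (by omega) (by omega)
  have hKZ : ∀ a b, 0 ≤ KZ z a b ∧ KZ z a b ≤ L ^ 2 := by
    intro a b
    rw [Pool.Agent.E8helper54.GB.KZ_eq]
    have hVp : 0 < (Vz z)⁻¹ := inv_pos.2 (Vz_pos z)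
    split_ifs
    · exact ⟨by positivity, pow_le_pow_left₀ hVp.le hV 2⟩
    · exact ⟨le_rfl, by positivity⟩
  -- first error
  have hE1 : |∑ x ∈ S, ∑ b ∈ Icc 1 n, (ArithmeticFunction.vonMangoldt (2 * b + 3) * KL x.2 (b + 3)) * (KL x.1 b - KZ z x.1 b)| ≤
      n * (8 * L ^ 3 * K) := by
    rw [sum_finset_product_right S (Icc 1 n) (fun c => (Icc 1 n).filter (fun a => (a, c) ∈ S)) (fun x => by
      rw [mem_filter]
      constructor
      · intro hx
        obtain ⟨q1, q2, -⟩ := hSm x hx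
        exact ⟨mem_Icc.2 q2, mem_Icc.2 q1, hx⟩
      · rintro ⟨-, -, hx⟩
        exact hx)]
    refine (abs_sum_le_sum_abs _ _).trans ?_
    have e1 : ∀ c ∈ Icc 1 n, |∑ a ∈ (Icc 1 n).filter (fun a => (a, c) ∈ S), ∑ b ∈ Icc 1 n,
        (ArithmeticFunction.vonMangoldt (2 * b + 3) * KL c (b + 3)) * (KL a b - KZ z a b)| ≤ 8 * L ^ 3 * K := by
      intro c hc
      rw [mem_Icc] at hc
      apply est_w m z K hest
      · exact (filter_subset _ _).trans (Icc_subset_Icc_right (by omega))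
      · exact Icc_subset_Icc_right (by omega)
      · positivity
      · intro b hb
        rw [mem_Icc] at hb
        have k1 := Pool.Agent.E8helper98.GB.KL_le m c (b + 3) (by omega) (by omega) (by omega)
        rw [← hL] at k1
        obtain ⟨k2, k3⟩ := hΛ b hb.2
        refine ⟨mul_nonneg k2 k1.1, ?_⟩
        calc (ArithmeticFunction.vonMangoldt (2 * b + 3) : ℝ) * KL c (b + 3) ≤ (2 * L) * (4 * L ^ 2) :=
              mul_le_mul k3 k1.2 k1.1 (by positivity)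
          _ = 8 * L ^ 3 := by ring
    refine (sum_le_sum e1).trans ?_
    rw [sum_const, Nat.card_Icc, nsmul_eq_mul]
    push_cast
    simp
  -- second error
  have hE2 : |∑ x ∈ S, ∑ b ∈ Icc 1 n, (ArithmeticFunction.vonMangoldt (2 * b + 3) * KZ z x.1 b) * (KL x.2 (b + 3) - KZ z x.2 (b + 3))| ≤
      n * (8 * L ^ 3 * K) := by
    rw [sum_finset_product S (Icc 1 n) (fun a => (Icc 1 n).filter (fun c => (a, c) ∈ S)) (fun x => by
      rw [mem_filter]
      constructor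
      · intro hx
        obtain ⟨q1, q2, -⟩ := hSm x hx
        exact ⟨mem_Icc.2 q1, mem_Icc.2 q2, hx⟩
      · rintro ⟨-, -, hx⟩
        exact hx)]
    refine (abs_sum_le_sum_abs _ _).trans ?_
    have e1 : ∀ a ∈ Icc 1 n, |∑ c ∈ (Icc 1 n).filter (fun c => (a, c) ∈ S), ∑ b ∈ Icc 1 n,
        (ArithmeticFunction.vonMangoldt (2 * b + 3) * KZ z a b) * (KL c (b + 3) - KZ z c (b + 3))| ≤ 8 * L ^ 3 * K := by
      intro a ha
      rw [mem_Icc] at ha
      have e2 : ∀ c, ∑ b ∈ Icc 1 n, (ArithmeticFunction.vonMangoldt (2 * b + 3) * KZ z a b) * (KL c (b + 3) - KZ z c (b + 3)) =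
          ∑ x ∈ (Icc 1 n).image (fun b => b + 3), (ArithmeticFunction.vonMangoldt (2 * (x - 3) + 3) * KZ z a (x - 3)) * (KL c x - KZ z c x) := by
        intro c
        rw [sum_image]
        · apply sum_congr rfl
          intro b _
          rw [Nat.add_sub_cancel]
        · intro x _ y _ h
          simp only at h
          omega
      rw [sum_congr rfl (fun c _ => e2 c)]
      apply est_w m z K hest
      · exact (filter_subset _ _).trans (Icc_subset_Icc_right (by omega))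
      · intro x hx
        rw [mem_image] at hx
        obtain ⟨b, hb, rfl⟩ := hx
        rw [mem_Icc] at hb ⊢
        omega
      · positivity
      · intro x hx
        rw [mem_image] at hx
        obtain ⟨b, hb, rfl⟩ := hx
        rw [mem_Icc] at hb
        rw [Nat.add_sub_cancel]
        have k1 := hKZ a b
        obtain ⟨k2, k3⟩ := hΛ b hb.2
        refine ⟨mul_nonneg k2 k1.1, ?_⟩
        calc (ArithmeticFunction.vonMangoldt (2 * b + 3) : ℝ) * KZ z a b ≤ (2 * L) * (L ^ 2) :=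
              mul_le_mul k3 k1.2 k1.1 (by positivity)
          _ ≤ 8 * L ^ 3 := by
              have : 0 ≤ L ^ 3 := by positivity
              nlinarith
    refine (sum_le_sum e1).trans ?_
    rw [sum_const, Nat.card_Icc, nsmul_eq_mul]
    push_cast
    simp
  -- the main term
  have hE3 : S.card * (c₀ * n) ≤ ∑ x ∈ S, ∑ b ∈ Icc 1 n, (ArithmeticFunction.vonMangoldt (2 * b + 3) : ℝ) * (KZ z x.1 b * KZ z x.2 (b + 3)) := by
    rw [← nsmul_eq_mul, ← sum_const]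
    apply sum_le_sum
    intro x hx
    obtain ⟨q1, q2, q3, q4⟩ := hSm x hx
    exact h2 n (by omega) z hz0 (by rw [← hl]; exact hz2) x.1 x.2 q3
  have hsplit : ∑ x ∈ S, ∑ b ∈ Icc 1 n, TT x.1 x.2 b =
      ∑ x ∈ S, ∑ b ∈ Icc 1 n, (ArithmeticFunction.vonMangoldt (2 * b + 3) * KL x.2 (b + 3)) * (KL x.1 b - KZ z x.1 b) +
      ∑ x ∈ S, ∑ b ∈ Icc 1 n, (ArithmeticFunction.vonMangoldt (2 * b + 3) * KZ z x.1 b) * (KL x.2 (b + 3) - KZ z x.2 (b + 3)) +
      ∑ x ∈ S, ∑ b ∈ Icc 1 n, (ArithmeticFunction.vonMangoldt (2 * b + 3) : ℝ) * (KZ z x.1 b * KZ z x.2 (b + 3)) := by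
    rw [← sum_add_distrib, ← sum_add_distrib]
    apply sum_congr rfl
    intro x _
    rw [← sum_add_distrib, ← sum_add_distrib]
    apply sum_congr rfl
    intro b _
    unfold TT
    ring
  have t1 := (abs_le.1 hE1).1
  have t2 := (abs_le.1 hE2).1
  have t3 : (S.card : ℝ) * (c₀ * n) ≤ S.card * (1200 * (Real.sqrt m * L ^ 5)) + 2 * (n * (8 * L ^ 3 * K)) := by linarith
  -- `1200 √m L ^ 5 ≤ c₀ n / 2`
  have t4 : 1200 * (Real.sqrt m * L ^ 5) ≤ c₀ * n / 2 := by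
    have hs : Real.sqrt m * Real.sqrt m = m := Real.mul_self_sqrt hm0.le
    have e1 := mul_le_mul_of_nonneg_left hP (Real.sqrt_nonneg (m : ℝ))
    rw [hs] at e1
    have e2 : 4800 / c₀ * L ^ 5 * c₀ = 4800 * L ^ 5 := by field_simp
    have e3 : Real.sqrt m * (4800 / c₀ * L ^ 5) * c₀ ≤ m * c₀ := mul_le_mul_of_nonneg_right e1 hc₀.le
    have e4 : Real.sqrt m * (4800 / c₀ * L ^ 5) * c₀ = 4800 * (Real.sqrt m * L ^ 5) := by
      field_simp
    rw [e4] at e3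
    have e5 : (m : ℝ) * c₀ ≤ (2 * n) * c₀ := mul_le_mul_of_nonneg_right hm2n hc₀.le
    linarith
  have t5 : (S.card : ℝ) * (1200 * (Real.sqrt m * L ^ 5)) ≤ S.card * (c₀ * n / 2) :=
    mul_le_mul_of_nonneg_left t4 (Nat.cast_nonneg _)
  have t6 : (S.card : ℝ) * (c₀ * n / 2) ≤ 16 * (n * (L ^ 3 * K)) := by linarith
  have t7 : L ^ 3 * K ≤ 4 * (n : ℝ) ^ 2 / l ^ (U + 1) := by
    have e1 : L ^ 3 * K = (m : ℝ) ^ 2 / L ^ (U + 1) := by
      rw [hK, show U + 4 = U + 1 + 3 by ring, pow_add L (U + 1) 3]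
      field_simp
    rw [e1]
    apply div_le_div₀ (by positivity) _ (by positivity) (pow_le_pow_left₀ hl0.le hlL _)
    calc (m : ℝ) ^ 2 ≤ (2 * n) ^ 2 := pow_le_pow_left₀ hm0.le hm2n 2
      _ = 4 * (n : ℝ) ^ 2 := by ring
  have t8 : (S.card : ℝ) * c₀ ≤ 128 * (n : ℝ) ^ 2 / l ^ (U + 1) := by
    have e1 : (S.card : ℝ) * c₀ * n ≤ (32 * (L ^ 3 * K)) * n := by linarith
    have e2 := le_of_mul_le_mul_right e1 hn0
    refine e2.trans ?_
    have e3 : 128 * (n : ℝ) ^ 2 / l ^ (U + 1) = 32 * (4 * (n : ℝ) ^ 2 / l ^ (U + 1)) := by ring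
    rw [e3]
    linarith
  have t9 : 128 * (n : ℝ) ^ 2 / l ^ (U + 1) = (128 / l) * ((n : ℝ) ^ 2 / l ^ U) := by
    rw [pow_succ]
    field_simp
    ring
  rw [t9] at t8
  have t10 : 128 / l ≤ c₀ := by
    rw [div_le_iff₀ hl0]
    rw [div_le_iff₀ hc₀] at hlc
    linarith
  have t11 : (S.card : ℝ) * c₀ ≤ c₀ * ((n : ℝ) ^ 2 / l ^ U) :=
    t8.trans (mul_le_mul_of_nonneg_right t10 (by positivity))
  rw [mul_comm] at t11
  exact le_of_mul_le_mul_left t11 hc₀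

end Pool.Agent.H76.GD
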