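import Pool.Graph.R_seed8.H373R2.T7.TupleMain2

set_option autoImplicit false
set_option maxHeartbeats 4000000

/-!
# Primes in a residue class modulo `4` such that `n + a_i` has no small odd prime factor

The argument is the one of `H373R2/T7/TupleMain.lean` and `TupleMain2.lean`, with the additional condition
`n ≡ s (mod 4)` and the sieve restricted to the odd primes.
-/

namespace Pool.Agent.H76.GD
open Finset
open Pool.Agent.H373R2.T7

/-- the odd primes up to `z` -/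
def oz (z : ℕ) : Finset ℕ := (pz z).erase 2

lemma mem_oz {z p : ℕ} : p ∈ oz z ↔ p ≠ 2 ∧ p ≤ z ∧ p.Prime := by
  unfold oz
  rw [mem_erase, mem_pz]

lemma oz_sub (z : ℕ) : oz z ⊆ pz z := erase_subset _ _

lemma oz_coprime {z p : ℕ} (hp : p ∈ oz z) : ¬ p ∣ 4 := by
  intro h
  have hpp := (mem_oz.1 hp).2.2
  have h2 : p ∣ 2 ^ 2 := by norm_num; exact h
  have := (Nat.prime_dvd_prime_iff_eq hpp Nat.prime_two).1 (hpp.dvd_of_dvd_pow h2)
  exact (mem_oz.1 hp).1 this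

/-- the family of classes -/
noncomputable def LS4 {k : ℕ} (a : Fin k → ℤ) (s z r d : ℕ) : Finset ℕ := by
  classical exact if ∃ S ⊆ oz z, S.card ≤ r ∧ 4 * ∏ p ∈ S, p = d then
    (range d).filter (fun b => b ≡ s [MOD 4] ∧ ∀ p ∈ d.primeFactors.erase 2, ¬ p ∣ b ∧ ∃ i, (p : ℤ) ∣ (b : ℤ) + a i) else ∅

lemma primeFactors4 (S : Finset ℕ) (hS : ∀ p ∈ S, p.Prime) (h2 : 2 ∉ S) :
    (4 * ∏ p ∈ S, p).primeFactors.erase 2 = S := by
  have h0 : ∏ p ∈ S, p ≠ 0 := prod_ne_zero_iff.2 fun p hp => (hS p hp).ne_zero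
  rw [Nat.primeFactors_mul (by norm_num) h0, primeFactors_prod' S hS]
  have h4 : (4 : ℕ).primeFactors = {2} := by
    rw [show (4 : ℕ) = 2 ^ 2 by norm_num, Nat.primeFactors_prime_pow (by norm_num) Nat.prime_two]
  rw [h4]
  ext p
  simp only [mem_erase, mem_union, mem_singleton]
  constructor
  · rintro ⟨h1, h3 | h3⟩
    · exact absurd h3 h1
    · exact h3
  · intro h
    exact ⟨fun e => h2 (e ▸ h), Or.inr h⟩

lemma LS4_eq {k : ℕ} (a : Fin k → ℤ) (s z r : ℕ) (S : Finset ℕ) (hS : S ⊆ oz z) (hr : S.card ≤ r) :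
    LS4 a s z r (4 * ∏ p ∈ S, p) = (range (4 * ∏ p ∈ S, p)).filter
      (fun b => b ≡ s [MOD 4] ∧ ∀ p ∈ S, ¬ p ∣ b ∧ ∃ i, (p : ℤ) ∣ (b : ℤ) + a i) := by
  classical
  unfold LS4
  rw [if_pos ⟨S, hS, hr, rfl⟩]
  apply filter_congr
  intro b _
  rw [primeFactors4 S (fun p hp => (mem_oz.1 (hS hp)).2.2) (fun h => (mem_oz.1 (hS h)).1 rfl)]

lemma LS4_card {k : ℕ} (a : Fin k → ℤ) (s z r : ℕ) (S : Finset ℕ) (hS : S ⊆ oz z) (hr : S.card ≤ r) :
    (LS4 a s z r (4 * ∏ p ∈ S, p)).card = ∏ p ∈ S, rhoP a p := by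
  rw [LS4_eq a s z r S hS hr]
  classical
  have h := crt_aux (fun p b => ¬ p ∣ b ∧ ∃ i, (p : ℤ) ∣ (b : ℤ) + a i) S (fun p hp => (mem_oz.1 (hS hp)).2.2) 4
    (by norm_num) (fun p hp => oz_coprime (hS hp)) s
  have e : ∏ p ∈ S, rhoP a p = ∏ p ∈ S, ((range p).filter (fun b => ¬ p ∣ b ∧ ∃ i, (p : ℤ) ∣ (b : ℤ) + a i)).card := by
    apply prod_congr rfl
    intro p _
    unfold rhoP
    congr 1
  rw [e, ← h]
  congr 1
  apply filter_congr
  intro b _
  have h1 : ∀ p : ℕ, (p ∣ b ↔ p ∣ b % p) := by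
    intro p
    rw [Nat.dvd_iff_mod_eq_zero, Nat.dvd_iff_mod_eq_zero, Nat.mod_mod]
  have h2 : ∀ (p : ℕ) (i : Fin k), ((p : ℤ) ∣ (b : ℤ) + a i ↔ (p : ℤ) ∣ ((b % p : ℕ) : ℤ) + a i) := by
    intro p i
    have e : (b : ℤ) + a i = (((b % p : ℕ) : ℤ) + a i) + p * ((b / p : ℕ) : ℤ) := by
      have := Nat.mod_add_div b p
      have h3 : (b : ℤ) = ((b % p : ℕ) : ℤ) + p * ((b / p : ℕ) : ℤ) := by exact_mod_cast this.symm
      rw [h3]
      ring
    rw [e]
    exact (Int.dvd_add_left (dvd_mul_right _ _))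
  apply and_congr Iff.rfl
  constructor
  · intro h p hp
    obtain ⟨h3, i, hi⟩ := h p hp
    exact ⟨fun h4 => h3 ((h1 p).2 h4), i, (h2 p i).1 hi⟩
  · intro h p hp
    obtain ⟨h3, i, hi⟩ := h p hp
    exact ⟨fun h4 => h3 ((h1 p).1 h4), i, (h2 p i).2 hi⟩

lemma LS4_fam {k : ℕ} (hk : 1 ≤ k) (a : Fin k → ℤ) (s z r : ℕ) (hs : s % 2 = 1) (A : ℝ) (hA : (k : ℝ) ^ r ≤ A) :
    H343E.Fam A (LS4 a s z r) := by
  classical
  constructor
  · intro q b hb
    unfold LS4 at hb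
    split_ifs at hb with h
    · rw [mem_filter, mem_range] at hb
      refine ⟨hb.1, ?_⟩
      rw [Nat.coprime_iff_gcd_eq_one]
      by_contra hne
      obtain ⟨p, hp, hpb, hpq⟩ := Nat.Prime.not_coprime_iff_dvd.1 hne
      have hq0 : q ≠ 0 := by omega
      by_cases hp2 : p = 2
      · subst hp2
        have h4 := hb.2.1
        unfold Nat.ModEq at h4
        omega
      · exact (hb.2.2 p (mem_erase.2 ⟨hp2, Nat.mem_primeFactors.2 ⟨hp, hpq, hq0⟩⟩)).1 hpb
    · simp at hb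
  · intro q
    by_cases h : ∃ S ⊆ oz z, S.card ≤ r ∧ 4 * ∏ p ∈ S, p = q
    · obtain ⟨S, hS, hr, rfl⟩ := h
      rw [LS4_card a s z r S hS hr]
      refine le_trans ?_ hA
      push_cast
      calc ∏ p ∈ S, (rhoP a p : ℝ) ≤ ∏ _p ∈ S, (k : ℝ) := prod_le_prod (fun _ _ => Nat.cast_nonneg _)
            (fun p _ => by exact_mod_cast rhoP_le_k a p)
        _ = (k : ℝ) ^ S.card := by rw [prod_const]
        _ ≤ (k : ℝ) ^ r := pow_le_pow_right₀ (by exact_mod_cast hk) hr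
    · have : LS4 a s z r q = ∅ := by
        unfold LS4
        rw [if_neg h]
      rw [this, card_empty, Nat.cast_zero]
      exact (pow_nonneg (Nat.cast_nonneg _) _).trans hA

/-- the error term in progressions -/
noncomputable def Ef4 {k : ℕ} (a : Fin k → ℤ) (N s z r d : ℕ) : ℝ :=
  ∑ b ∈ LS4 a s z r d, |lamAP N d b - lam1 N / (Nat.totient d : ℝ)|

lemma Ef4_nonneg {k : ℕ} (a : Fin k → ℤ) (N s z r d : ℕ) : 0 ≤ Ef4 a N s z r d := sum_nonneg fun _ _ => abs_nonneg _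

lemma totient4 (S : Finset ℕ) (hS : ∀ p ∈ S, p.Prime) (h2 : 2 ∉ S) :
    Nat.totient (4 * ∏ p ∈ S, p) = 2 * ∏ p ∈ S, (p - 1) := by
  rw [Nat.totient_mul, totient_prod S hS]
  · rfl
  · apply Nat.Coprime.prod_right
    intro p hp
    rw [Nat.coprime_comm]
    refine (Nat.Prime.coprime_iff_not_dvd (hS p hp)).2 ?_
    intro h
    have h3 : p ∣ 2 ^ 2 := by norm_num; exact h
    have := (Nat.prime_dvd_prime_iff_eq (hS p hp) Nat.prime_two).1 ((hS p hp).dvd_of_dvd_pow h3)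
    exact h2 (this ▸ hp)

theorem tuple_sieve4 {k : ℕ} (a : Fin k → ℤ) (N s z r : ℕ) :
    |∑ n ∈ ((Icc 1 N).filter (fun n : ℕ => n ≡ s [MOD 4] ∧ ∀ p ∈ oz z, ¬ p ∣ n)).filter
        (fun n : ℕ => ∀ p ∈ oz z, ¬ ∃ i, (p : ℤ) ∣ (n : ℤ) + a i), ArithmeticFunction.vonMangoldt n -
        lam1 N / 2 * ∏ p ∈ oz z, (1 - (rhoP a p : ℝ) / (p - 1 : ℝ))| ≤
      ((z : ℝ) + 1) ^ r * (z * ((Nat.log 2 N + 1 : ℝ) * Real.log N)) + ∑ d ∈ Icc 1 ((z + 1) ^ r), Ef4 a N s z r (4 * d) +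
      2 * (lam1 N / 2) * Real.exp (3 * ((2 * k : ℕ) * (1 + Real.log z)) - r) := by
  have hpp : ∀ S ⊆ oz z, ∀ p ∈ S, p.Prime := fun S hS p hp => (mem_oz.1 (hS hp)).2.2
  have hp2' : ∀ S ⊆ oz z, 2 ∉ S := fun S hS h => (mem_oz.1 (hS h)).1 rfl
  have hlN : 0 ≤ (Nat.log 2 N + 1 : ℝ) * Real.log N := by
    have := Real.log_natCast_nonneg N
    positivity
  have hψ : 0 ≤ lam1 N := sum_nonneg fun _ _ => ArithmeticFunction.vonMangoldt_nonneg
  have key := sieve_gen' ((Icc 1 N).filter (fun n => n ≡ s [MOD 4] ∧ ∀ p ∈ oz z, ¬ p ∣ n)) (fun n => ArithmeticFunction.vonMangoldt n)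
    (fun _ _ => ArithmeticFunction.vonMangoldt_nonneg) (fun p n => ∃ i, (p : ℤ) ∣ (n : ℤ) + a i) (oz z)
    (fun p => (rhoP a p : ℝ) / (p - 1 : ℝ)) (fun p hp => by
      have hp2 : (2 : ℝ) ≤ p := by exact_mod_cast (mem_oz.1 hp).2.2.two_le
      constructor
      · apply div_nonneg (Nat.cast_nonneg _); linarith
      · rw [div_le_one (by linarith)]
        have h1 := rhoP_le a p
        have h2 : (rhoP a p : ℝ) ≤ ((p - 1 : ℕ) : ℝ) := by exact_mod_cast h1
        rw [Nat.cast_sub (mem_oz.1 hp).2.2.one_le] at h2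
        push_cast at h2
        exact h2) (lam1 N / 2) (by positivity)
    (fun S => z * ((Nat.log 2 N + 1 : ℝ) * Real.log N) + Ef4 a N s z r (4 * ∏ p ∈ S, p)) r (by
      intro S hS hr
      have hSp := hpp S hS
      have hS2 := hp2' S hS
      obtain ⟨d, hd⟩ : ∃ d, d = 4 * ∏ p ∈ S, p := ⟨_, rfl⟩
      have hd1 : 1 ≤ d := by
        rw [hd]
        exact Nat.pos_of_ne_zero (mul_ne_zero (by norm_num) (prod_ne_zero_iff.2 fun p hp => (hSp p hp).ne_zero))
      have hpd : ∀ p ∈ S, p ∣ d := fun p hp => by rw [hd]; exact dvd_mul_of_dvd_right (dvd_prod_of_mem _ hp) 4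
      have h4d : 4 ∣ d := by rw [hd]; exact dvd_mul_right _ _
      set W' : ℝ := ∑ n ∈ (Icc 1 N).filter (fun n : ℕ => n ≡ s [MOD 4] ∧ ∀ p ∈ S, ¬ p ∣ n ∧ ∃ i, (p : ℤ) ∣ (n : ℤ) + a i),
        ArithmeticFunction.vonMangoldt n with hW'
      have h1 : W' = ∑ b ∈ LS4 a s z r d, lamAP N d b := by
        rw [hW', ← sum_fiberwise_of_maps_to (t := LS4 a s z r d) (g := fun n => n % d)]
        · apply sum_congr rfl
          intro b hb
          rw [hd, LS4_eq a s z r S hS hr, ← hd, mem_filter, mem_range] at hb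
          unfold lamAP
          apply sum_congr _ (fun _ _ => rfl)
          ext n
          rw [mem_filter, mem_filter, mem_filter]
          constructor
          · rintro ⟨⟨h1, h2⟩, h3⟩
            refine ⟨h1, ?_⟩
            unfold Nat.ModEq
            rw [h3, Nat.mod_eq_of_lt hb.1]
          · rintro ⟨h1, h2⟩
            have h2' : n ≡ b [MOD 4] := h2.of_dvd h4d
            unfold Nat.ModEq at h2
            rw [Nat.mod_eq_of_lt hb.1] at h2
            refine ⟨⟨h1, h2'.trans hb.2.1, fun p hp => ?_⟩, h2⟩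
            obtain ⟨h3, i, hi⟩ := hb.2.2 p hp
            rw [← h2] at h3 hi
            exact ⟨fun h4 => h3 ((dvd_mod_iff n d p (hpd p hp)).2 h4), i, (dvd_add_mod_iff n d p (a i) (hpd p hp)).1 hi⟩
        · intro n hn
          rw [mem_filter] at hn
          rw [hd, LS4_eq a s z r S hS hr, ← hd, mem_filter, mem_range]
          refine ⟨Nat.mod_lt _ hd1, ?_, fun p hp => ?_⟩
          · exact ((Nat.mod_modEq n d).of_dvd h4d).trans hn.2.1
          · obtain ⟨h3, i, hi⟩ := hn.2.2 p hp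
            exact ⟨fun h4 => h3 ((dvd_mod_iff n d p (hpd p hp)).1 h4), i, (dvd_add_mod_iff n d p (a i) (hpd p hp)).2 hi⟩
      have h2 : lam1 N / 2 * ∏ p ∈ S, ((rhoP a p : ℝ) / (p - 1 : ℝ)) = ∑ b ∈ LS4 a s z r d, lam1 N / (Nat.totient d : ℝ) := by
        rw [sum_const, nsmul_eq_mul, hd, LS4_card a s z r S hS hr, totient4 S hSp hS2, prod_div_distrib]
        push_cast
        have h3 : ∏ p ∈ S, ((p - 1 : ℕ) : ℝ) = ∏ p ∈ S, ((p : ℝ) - 1) := by
          apply prod_congr rfl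
          intro p hp
          rw [Nat.cast_sub (hSp p hp).one_le]
          push_cast
          ring
        rw [h3]
        ring
      have h3 : |W' - lam1 N / 2 * ∏ p ∈ S, ((rhoP a p : ℝ) / (p - 1 : ℝ))| ≤ Ef4 a N s z r d := by
        rw [h1, h2, ← sum_sub_distrib]
        exact abs_sum_le_sum_abs _ _
      -- comparison of W and W'
      set W : ℝ := ∑ n ∈ ((Icc 1 N).filter (fun n : ℕ => n ≡ s [MOD 4] ∧ ∀ p ∈ oz z, ¬ p ∣ n)).filter
        (fun n : ℕ => ∀ p ∈ S, ∃ i, (p : ℤ) ∣ (n : ℤ) + a i), ArithmeticFunction.vonMangoldt n with hW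
      have h4 : |W - W'| ≤ z * ((Nat.log 2 N + 1 : ℝ) * Real.log N) := by
        have h5 : W = ∑ n ∈ Icc 1 N, if (n ≡ s [MOD 4] ∧ ∀ p ∈ oz z, ¬ p ∣ n) ∧ (∀ p ∈ S, ∃ i, (p : ℤ) ∣ (n : ℤ) + a i) then
            ArithmeticFunction.vonMangoldt n else 0 := by
          rw [hW, filter_filter, sum_filter]
        have h6 : W' = ∑ n ∈ Icc 1 N, if (n ≡ s [MOD 4] ∧ ∀ p ∈ S, ¬ p ∣ n ∧ ∃ i, (p : ℤ) ∣ (n : ℤ) + a i) then
            ArithmeticFunction.vonMangoldt n else 0 := by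
          rw [hW', sum_filter]
        rw [h5, h6, ← sum_sub_distrib]
        refine (abs_sum_le_sum_abs _ _).trans ?_
        have h7 : ∀ n ∈ Icc 1 N, |(if (n ≡ s [MOD 4] ∧ ∀ p ∈ oz z, ¬ p ∣ n) ∧ (∀ p ∈ S, ∃ i, (p : ℤ) ∣ (n : ℤ) + a i) then
            ArithmeticFunction.vonMangoldt n else 0) - (if (n ≡ s [MOD 4] ∧ ∀ p ∈ S, ¬ p ∣ n ∧ ∃ i, (p : ℤ) ∣ (n : ℤ) + a i) then
            ArithmeticFunction.vonMangoldt n else 0)| ≤ ∑ p ∈ pz z, if p ∣ n then ArithmeticFunction.vonMangoldt n else 0 := by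
          intro n _
          have h8 : (0 : ℝ) ≤ ArithmeticFunction.vonMangoldt n := ArithmeticFunction.vonMangoldt_nonneg
          have h9 : 0 ≤ ∑ p ∈ pz z, if p ∣ n then ArithmeticFunction.vonMangoldt n else 0 :=
            sum_nonneg fun p _ => by split_ifs <;> simp [h8]
          by_cases h12 : n ≡ s [MOD 4]
          swap
          · rw [if_neg (fun h => h12 h.1.1), if_neg (fun h => h12 h.1), sub_self, abs_zero]
            exact h9
          by_cases h10 : ∀ p ∈ oz z, ¬ p ∣ n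
          · by_cases h11 : ∀ p ∈ S, ∃ i, (p : ℤ) ∣ (n : ℤ) + a i
            · rw [if_pos ⟨⟨h12, h10⟩, h11⟩, if_pos ⟨h12, (fun p hp => ⟨h10 p (hS hp), h11 p hp⟩)⟩, sub_self, abs_zero]
              exact h9
            · rw [if_neg (fun h => h11 h.2), if_neg (fun h => h11 (fun p hp => (h.2 p hp).2)), sub_self, abs_zero]
              exact h9
          · rw [if_neg (c := (n ≡ s [MOD 4] ∧ ∀ p ∈ oz z, ¬ p ∣ n) ∧ (∀ p ∈ S, ∃ i, (p : ℤ) ∣ (n : ℤ) + a i))
              (fun h => h10 h.1.2), zero_sub, abs_neg]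
            push Not at h10
            obtain ⟨p, hp, hpn⟩ := h10
            have h11 : |(if (n ≡ s [MOD 4] ∧ ∀ p ∈ S, ¬ p ∣ n ∧ ∃ i, (p : ℤ) ∣ (n : ℤ) + a i) then
              ArithmeticFunction.vonMangoldt n else 0)| ≤ ArithmeticFunction.vonMangoldt n := by
              split_ifs
              · rw [abs_of_nonneg h8]
              · rw [abs_zero]; exact h8
            refine h11.trans ?_
            have h12 := single_le_sum (f := fun p => if p ∣ n then ArithmeticFunction.vonMangoldt n else (0 : ℝ))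
              (s := pz z) (fun p _ => by split_ifs <;> simp [h8]) (oz_sub z hp)
            simp only [if_pos hpn] at h12
            exact h12
        refine (sum_le_sum h7).trans ?_
        rw [sum_comm]
        have h8 : ∀ p ∈ pz z, ∑ n ∈ Icc 1 N, (if p ∣ n then ArithmeticFunction.vonMangoldt n else 0) ≤
            (Nat.log 2 N + 1 : ℝ) * Real.log N := by
          intro p hp
          rw [← sum_filter]
          exact lam_mult_prime N p (mem_pz.1 hp).2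
        refine (sum_le_sum h8).trans ?_
        rw [sum_const, nsmul_eq_mul]
        apply mul_le_mul_of_nonneg_right _ hlN
        exact_mod_cast card_pz_le z
      rw [← hd]
      have h5 : W - lam1 N / 2 * ∏ p ∈ S, ((rhoP a p : ℝ) / (p - 1 : ℝ)) = (W - W') + (W' - lam1 N / 2 * ∏ p ∈ S, ((rhoP a p : ℝ) / (p - 1 : ℝ))) := by ring
      rw [h5]
      exact (abs_add_le _ _).trans (add_le_add h4 h3))
  refine key.trans ?_
  have hsub : ∀ (F : Finset ℕ → ℝ), (∀ S, 0 ≤ F S) → ∑ j ∈ range (r + 1), ∑ S ∈ (oz z).powersetCard j, F S ≤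
      ∑ j ∈ range (r + 1), ∑ S ∈ (pz z).powersetCard j, F S := by
    intro F hF
    apply sum_le_sum
    intro j _
    exact sum_le_sum_of_subset_of_nonneg (powersetCard_mono (oz_sub z)) (fun S _ _ => hF S)
  have e1 : ∑ j ∈ range (r + 1), ∑ S ∈ (oz z).powersetCard j, (z * ((Nat.log 2 N + 1 : ℝ) * Real.log N) + Ef4 a N s z r (4 * ∏ p ∈ S, p)) ≤
      ((∑ j ∈ range (r + 1), ((pz z).powersetCard j).card : ℕ) : ℝ) * (z * ((Nat.log 2 N + 1 : ℝ) * Real.log N)) +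
      ∑ j ∈ range (r + 1), ∑ S ∈ (pz z).powersetCard j, Ef4 a N s z r (4 * ∏ p ∈ S, p) := by
    refine (hsub _ (fun S => add_nonneg (by positivity) (Ef4_nonneg _ _ _ _ _ _))).trans (le_of_eq ?_)
    push_cast
    rw [sum_mul, ← sum_add_distrib]
    apply sum_congr rfl
    intro j _
    rw [sum_add_distrib, sum_const, nsmul_eq_mul]
  have h1 := card_small (pz z) r
  have h2 : (((pz z).card : ℝ) + 1) ^ r ≤ ((z : ℝ) + 1) ^ r := by
    have : ((pz z).card : ℝ) ≤ z := by exact_mod_cast card_pz_le z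
    gcongr
  have h3 : ((∑ j ∈ range (r + 1), ((pz z).powersetCard j).card : ℕ) : ℝ) * (z * ((Nat.log 2 N + 1 : ℝ) * Real.log N)) ≤
      ((z : ℝ) + 1) ^ r * (z * ((Nat.log 2 N + 1 : ℝ) * Real.log N)) :=
    mul_le_mul_of_nonneg_right (h1.trans h2) (by positivity)
  have h4 := sum_small_le z r (fun d => Ef4 a N s z r (4 * d)) (fun d => Ef4_nonneg a N s z r (4 * d))
  have h5 : es (fun p => (rhoP a p : ℝ) / (p - 1 : ℝ)) (oz z) r ≤ Real.exp (3 * ((2 * k : ℕ) * (1 + Real.log z)) - r) := by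
    have hg : ∀ p ∈ oz z, (rhoP a p : ℝ) / (p - 1 : ℝ) ≤ (2 * k : ℕ) * (1 / (p : ℝ)) := by
      intro p hp
      have hp2 : (2 : ℝ) ≤ p := by exact_mod_cast (mem_oz.1 hp).2.2.two_le
      have h6 : (rhoP a p : ℝ) ≤ k := by exact_mod_cast rhoP_le_k a p
      have hk : (0 : ℝ) ≤ k := Nat.cast_nonneg _
      rw [mul_one_div, div_le_div_iff₀ (by linarith) (by linarith)]
      push_cast
      nlinarith
    refine (es_le (fun p hp => by
      have hp2 : (2 : ℝ) ≤ p := by exact_mod_cast (mem_oz.1 hp).2.2.two_le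
      apply div_nonneg (Nat.cast_nonneg _); linarith) r).trans ?_
    apply Real.exp_le_exp.2
    have h6 := sum_le_sum hg
    rw [← mul_sum] at h6
    have h7 := sum_pz_le z
    have h7' : ∑ p ∈ oz z, 1 / (p : ℝ) ≤ ∑ p ∈ pz z, 1 / (p : ℝ) :=
      sum_le_sum_of_subset_of_nonneg (oz_sub z) (fun p _ _ => by positivity)
    have h8 : ((2 * k : ℕ) : ℝ) * ∑ p ∈ oz z, 1 / (p : ℝ) ≤ ((2 * k : ℕ) : ℝ) * (1 + Real.log z) :=
      mul_le_mul_of_nonneg_left (h7'.trans h7) (Nat.cast_nonneg _)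
    linarith
  have h6 : 2 * (lam1 N / 2) * es (fun p => (rhoP a p : ℝ) / (p - 1 : ℝ)) (oz z) r ≤
      2 * (lam1 N / 2) * Real.exp (3 * ((2 * k : ℕ) * (1 + Real.log z)) - r) :=
    mul_le_mul_of_nonneg_left h5 (by positivity)
  linarith

end Pool.Agent.H76.GD
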