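import Pool.Agent.H76.GD.Defs
import Pool.Agent.H76.GD.Core
import Pool.Agent.H76.GD.Three

set_option autoImplicit false

/-!
# Upper bounds for the distances of almost all pairs
-/

namespace Pool.Agent.H76.GD

open Finset
open Pool.Agent.R521.GG (R dg)
open Pool.Agent.E8helper66.GB (Same Path S_TWO S_BR S_ESTW)
open Pool.Agent.E8helper28.GB
open Pool.Agent.E8helper98.GB (ev_log ev_pow)

lemma R_add_three {b : ℕ} (h : (2 * b + 3).Prime) : R b (b + 3) := by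
  have h8 : b + (b + 3) = 2 * b + 3 := by ring
  have h9 : Nat.dist b (b + 3) = 3 := by
    rw [Nat.dist_eq_sub_of_le (by omega)]
    omega
  unfold R
  rw [h8, h9]
  exact ⟨⟨h, ⟨b + 1, by ring⟩⟩, Nat.prime_three, by decide⟩

lemma R_sub_three {b : ℕ} (hb : 3 ≤ b) (h : (2 * b - 3).Prime) : R b (b - 3) := by
  obtain ⟨c, rfl⟩ : ∃ c, b = c + 3 := ⟨b - 3, by omega⟩
  rw [Nat.add_sub_cancel]
  apply R_symm
  apply R_add_three
  have : 2 * (c + 3) - 3 = 2 * c + 3 := by omega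
  rwa [this] at h

open Classical in
/-- the pairs of `{1, …, n}` with the property `P` -/
noncomputable def FF (n : ℕ) (P : ℕ × ℕ → Prop) : Finset (ℕ × ℕ) := ((Icc 1 n) ×ˢ (Icc 1 n)).filter P

lemma mem_FF {n : ℕ} {P : ℕ × ℕ → Prop} {p : ℕ × ℕ} : p ∈ FF n P ↔ (p.1 ∈ Icc 1 n ∧ p.2 ∈ Icc 1 n) ∧ P p := by
  classical
  unfold FF
  rw [mem_filter, mem_product]

lemma FF_sub {n : ℕ} {P : ℕ × ℕ → Prop} : FF n P ⊆ (Icc 1 n) ×ˢ (Icc 1 n) := by
  intro p hp
  rw [mem_FF] at hp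
  exact mem_product.2 hp.1

/-- the pairs in the same class without a common neighbour -/
noncomputable def B2 (n : ℕ) : Finset (ℕ × ℕ) := FF n (fun p => Same p.1 p.2 ∧ ¬ ∃ b ∈ Icc 1 n, R p.1 b ∧ R p.2 b)

/-- counting over the fibres -/
lemma fibre_le (n : ℕ) (P : Finset (ℕ × ℕ)) (hP : P ⊆ (Icc 1 n) ×ˢ (Icc 1 n)) (E : Finset ℕ) (M : ℝ) (hM : 0 ≤ M)
    (h : ∀ a ∈ Icc 1 n, a ∉ E → ((P.filter (fun p => p.1 = a)).card : ℝ) ≤ M) :
    (P.card : ℝ) ≤ n * E.card + n * M := by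
  have h1 : P.card = ∑ a ∈ Icc 1 n, (P.filter (fun p => p.1 = a)).card :=
    card_eq_sum_card_fiberwise (fun p hp => (mem_product.1 (hP hp)).1)
  rw [h1]
  push_cast
  have h2 : ∀ a ∈ Icc 1 n, ((P.filter (fun p => p.1 = a)).card : ℝ) ≤ (if a ∈ E then (n : ℝ) else 0) + M := by
    intro a ha
    split_ifs with hE
    · have h3 : (P.filter (fun p => p.1 = a)).card ≤ (Icc 1 n).card := by
        apply card_le_card_of_injOn (fun p => p.2)
        · intro p hp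
          have hp' := mem_filter.1 (mem_coe.1 hp)
          exact (mem_product.1 (hP hp'.1)).2
        · intro p hp q hq hpq
          have hp' := mem_filter.1 (mem_coe.1 hp)
          have hq' := mem_filter.1 (mem_coe.1 hq)
          exact Prod.ext (hp'.2.trans hq'.2.symm) hpq
      rw [Nat.card_Icc, Nat.add_sub_cancel] at h3
      have h4 : ((P.filter (fun p => p.1 = a)).card : ℝ) ≤ n := by exact_mod_cast h3
      linarith
    · rw [zero_add]
      exact h a ha hE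
  refine (sum_le_sum h2).trans ?_
  rw [sum_add_distrib, sum_const, Nat.card_Icc, Nat.add_sub_cancel, nsmul_eq_mul, ← sum_filter, sum_const, nsmul_eq_mul]
  have h3 : (((Icc 1 n).filter (fun a => a ∈ E)).card : ℝ) ≤ E.card := by
    have : (Icc 1 n).filter (fun a => a ∈ E) ⊆ E := fun a ha => (mem_filter.1 ha).2
    exact_mod_cast card_le_card this
  have h4 : (0 : ℝ) ≤ n := Nat.cast_nonneg n
  nlinarith

lemma B2_le (n : ℕ) (E : Finset ℕ) (M : ℝ) (hM : 0 ≤ M)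
    (h : ∀ a ∈ Icc 1 n, a ∉ E → ∀ S ⊆ Icc 1 n, (∀ x ∈ S, Same a x) → M ≤ S.card →
      ∃ x ∈ S, ∃ b ∈ Icc 1 n, R a b ∧ R x b) : ((B2 n).card : ℝ) ≤ n * E.card + n * M := by
  classical
  apply fibre_le n _ FF_sub E M hM
  intro a ha haE
  by_contra hcon
  have hcon : M < ((B2 n).filter (fun p => p.1 = a)).card := not_le.1 hcon
  obtain ⟨S, hS⟩ : ∃ S, S = (Icc 1 n).filter (fun x => (a, x) ∈ B2 n) := ⟨_, rfl⟩
  have hmem : ∀ x ∈ S, (a, x) ∈ B2 n := by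
    intro x hx
    rw [hS, mem_filter] at hx
    exact hx.2
  have h1 : ((B2 n).filter (fun p => p.1 = a)).card ≤ S.card := by
    apply card_le_card_of_injOn (fun p => p.2)
    · intro p hp
      have hp' := mem_filter.1 (mem_coe.1 hp)
      rw [hS, mem_coe, mem_filter, ← hp'.2]
      exact ⟨(mem_FF.1 hp'.1).1.2, hp'.1⟩
    · intro p hp q hq hpq
      have hp' := mem_filter.1 (mem_coe.1 hp)
      have hq' := mem_filter.1 (mem_coe.1 hq)
      exact Prod.ext (hp'.2.trans hq'.2.symm) hpq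
  have h2 : M ≤ S.card := hcon.le.trans (Nat.cast_le.2 h1)
  have h3 : S ⊆ Icc 1 n := fun x hx => (mem_FF.1 (hmem x hx)).1.2
  have h4 : ∀ x ∈ S, Same a x := fun x hx => (mem_FF.1 (hmem x hx)).2.1
  obtain ⟨x, hx, b, hb, hab, hxb⟩ := h a ha haE S h3 h4 h2
  exact (mem_FF.1 (hmem x hx)).2.2 ⟨b, hb, hab, hxb⟩

lemma two_of {n x y : ℕ} (hx : x ∈ Icc 1 n) (hy : y ∈ Icc 1 n) (hs : Same x y) (h : (x, y) ∉ B2 n) :
    ∃ b ∈ Icc 1 n, R x b ∧ R y b := by
  by_contra hcon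
  exact h (mem_FF.2 ⟨⟨hx, hy⟩, hs, hcon⟩)

/-- the exceptions for the upper bound -/
noncomputable def BadU (n : ℕ) : Finset (ℕ × ℕ) := FF n (fun p => ¬ Path (Icc 1 n) (D' p.1 p.2) p.1 p.2)

noncomputable def B3 (n : ℕ) : Finset (ℕ × ℕ) := FF n (fun x : ℕ × ℕ => Loc5 x.1 x.2 ∧
      ¬ ∃ b ∈ Icc 1 n, b + 3 ≤ n ∧ R x.1 b ∧ (2 * b + 3).Prime ∧ R x.2 (b + 3))

/-- the exceptions coming from the shifts -/
noncomputable def SH (n : ℕ) (h g : ℕ × ℕ → Prop) (f : ℕ × ℕ → ℕ × ℕ) : Finset (ℕ × ℕ) :=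
  FF n (fun p => h p ∨ (g p ∧ f p ∈ B2 n))

lemma not_mem_SH {n : ℕ} {h g : ℕ × ℕ → Prop} {f : ℕ × ℕ → ℕ × ℕ} {x y : ℕ} (hx : x ∈ Icc 1 n) (hy : y ∈ Icc 1 n)
    (hm : (x, y) ∉ SH n h g f) : ¬ h (x, y) ∧ (g (x, y) → f (x, y) ∉ B2 n) := by
  constructor
  · intro h1
    exact hm (mem_FF.2 ⟨⟨hx, hy⟩, Or.inl h1⟩)
  · intro h1 h2
    exact hm (mem_FF.2 ⟨⟨hx, hy⟩, Or.inr ⟨h1, h2⟩⟩)

lemma badU_sub (n : ℕ) (X : Finset ℕ) (hX : X ⊆ Icc 1 n)
    (h3 : ∀ a ∈ X, ∀ c ∈ X, a % 2 ≠ c % 2 → ¬ (3 ∣ a ↔ 3 ∣ c) → Path X 3 a c)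
    (h4 : ∀ a ∈ X, ∀ c ∈ X, a % 2 = c % 2 → ¬ (3 ∣ a ↔ 3 ∣ c) → Path X 4 a c)
    (h5 : ∀ a ∈ X, ∀ c ∈ X, Path X 5 a c) :
    BadU n ⊆ ((Icc 1 n \ X) ×ˢ (Icc 1 n)) ∪ ((Icc 1 n) ×ˢ (Icc 1 n \ X)) ∪ B2 n ∪ B3 n ∪
      SH n (fun p => n < p.2 + 3) (fun _ => True) (fun p => (p.1, p.2 + 3)) ∪
      SH n (fun p => p.2 < 4) (fun p => 4 ≤ p.2) (fun p => (p.1, p.2 - 3)) ∪
      SH n (fun p => n < p.1 + 3) (fun _ => True) (fun p => (p.1 + 3, p.2)) ∪
      SH n (fun p => p.1 < 4) (fun p => 4 ≤ p.1) (fun p => (p.1 - 3, p.2)) := by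
  intro p hp
  obtain ⟨x, y⟩ := p
  unfold BadU at hp
  rw [mem_FF] at hp
  obtain ⟨⟨hx, hy⟩, hbad⟩ := hp
  simp only at hx hy hbad
  by_contra hcon
  have d8 := notMem_union.1 hcon
  have d7 := notMem_union.1 d8.1
  have d6 := notMem_union.1 d7.1
  have d5 := notMem_union.1 d6.1
  have d4 := notMem_union.1 d5.1
  have d3 := notMem_union.1 d4.1
  have d2 := notMem_union.1 d3.1
  have c1 := d2.1
  have c2 := d2.2
  have c3 := d3.2
  have c4 := d4.2
  have c5 := d5.2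
  have c6 := d6.2
  have c7 := d7.2
  have c8 := d8.2
  have hxX : x ∈ X := by
    by_contra h
    exact c1 (mk_mem_product (mem_sdiff.2 ⟨hx, h⟩) hy)
  have hyX : y ∈ X := by
    by_contra h
    exact c2 (mk_mem_product hx (mem_sdiff.2 ⟨hy, h⟩))
  obtain ⟨c5, c5'⟩ := not_mem_SH hx hy c5
  obtain ⟨c6, c6'⟩ := not_mem_SH hx hy c6
  obtain ⟨c7, c7'⟩ := not_mem_SH hx hy c7
  obtain ⟨c8, c8'⟩ := not_mem_SH hx hy c8
  simp only [not_lt, forall_true_left] at c5 c5' c6 c6' c7 c7' c8 c8'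
  have hxI := mem_Icc.1 hx
  have hyI := mem_Icc.1 hy
  apply hbad
  unfold D'
  split_ifs with hS
  · obtain ⟨s1, s2, s3, s4⟩ := hS
    rcases s4 with (s4 | s4) | (s4 | s4)
    · obtain ⟨b, hb, hb1, hb2⟩ := two_of (n := n) (x := x + 3) (y := y) (mem_Icc.2 ⟨by omega, by omega⟩) hy
        ⟨by omega, by omega⟩ c7'
      exact path_cons (mem_Icc.2 ⟨by omega, by omega⟩) (R_add_three s4) (path_cons hb hb1 (path_one hy (R_symm hb2)))
    · obtain ⟨b, hb, hb1, hb2⟩ := two_of (n := n) (x := x - 3) (y := y) (mem_Icc.2 ⟨by omega, by omega⟩) hy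
        ⟨by omega, by omega⟩ (c8' (by omega))
      exact path_cons (mem_Icc.2 ⟨by omega, by omega⟩) (R_sub_three (by omega) s4) (path_cons hb hb1 (path_one hy (R_symm hb2)))
    · obtain ⟨b, hb, hb1, hb2⟩ := two_of (n := n) (x := x) (y := y + 3) hx (mem_Icc.2 ⟨by omega, by omega⟩)
        ⟨by omega, by omega⟩ c5'
      exact path_cons hb hb1 (path_cons (mem_Icc.2 ⟨by omega, by omega⟩) (R_symm hb2) (path_one hy (R_symm (R_add_three s4))))
    · obtain ⟨b, hb, hb1, hb2⟩ := two_of (n := n) (x := x) (y := y - 3) hx (mem_Icc.2 ⟨by omega, by omega⟩)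
        ⟨by omega, by omega⟩ (c6' (by omega))
      exact path_cons hb hb1 (path_cons (mem_Icc.2 ⟨by omega, by omega⟩) (R_symm hb2) (path_one hy
        (R_symm (R_sub_three (by omega) s4))))
  · by_cases d1 : x % 2 = y % 2
    · by_cases d2 : (3 ∣ x ↔ 3 ∣ y)
      · have e : D x y = 2 := by unfold D; rw [if_pos d1, if_pos d2]
        rw [e]
        obtain ⟨b, hb, hb1, hb2⟩ := two_of (n := n) hx hy ⟨d1, d2⟩ c3
        exact path_cons hb hb1 (path_one hy (R_symm hb2))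
      · have e : D x y = 4 := by unfold D; rw [if_pos d1, if_neg d2]
        rw [e]
        exact path_sub hX (h4 x hxX y hyX d1 d2)
    · by_cases d3 : (3 ∣ x ↔ 3 ∣ y)
      · by_cases d4 : 3 ∣ x ∧ ¬ ((x % 5 = 2 ∨ x % 5 = 3) ∧ (y % 5 = 2 ∨ y % 5 = 3))
        · have e : D x y = 3 := by unfold D; rw [if_neg d1, if_neg (not_not.2 d3), if_pos d4]
          rw [e]
          have hL : Loc5 x y := ⟨d1, d4.1, d3.1 d4.1, d4.2⟩
          have h6 : ∃ b ∈ Icc 1 n, b + 3 ≤ n ∧ R x b ∧ (2 * b + 3).Prime ∧ R y (b + 3) := by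
            by_contra hc
            exact c4 (mem_FF.2 ⟨⟨hx, hy⟩, hL, hc⟩)
          obtain ⟨b, hb, hb0, hb1, hb2, hb3⟩ := h6
          exact path_cons hb hb1 (path_cons (mem_Icc.2 ⟨by omega, hb0⟩) (R_add_three hb2) (path_one hy (R_symm hb3)))
        · have e : D x y = 5 := by unfold D; rw [if_neg d1, if_neg (not_not.2 d3), if_neg d4]
          rw [e]
          exact path_sub hX (h5 x hxX y hyX)
      · have e : D x y = 3 := by unfold D; rw [if_neg d1, if_pos d3]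
        rw [e]
        exact path_sub hX (h3 x hxX y hyX d1 d3)

lemma shift_le (n : ℕ) (f : ℕ × ℕ → ℕ × ℕ) (g : ℕ × ℕ → Prop) (hinj : ∀ p q, g p → g q → f p = f q → p = q)
    (h : ℕ × ℕ → Prop) (T : Finset (ℕ × ℕ)) (hT : ∀ p ∈ (Icc 1 n) ×ˢ (Icc 1 n), h p → p ∈ T) :
    (SH n h g f).card ≤ T.card + (B2 n).card := by
  classical
  have h1 : SH n h g f ⊆ T ∪ FF n (fun p => g p ∧ f p ∈ B2 n) := by
    intro p hp
    unfold SH at hp
    rw [mem_FF] at hp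
    rw [mem_union, mem_FF]
    rcases hp.2 with h2 | h2
    · exact Or.inl (hT p (mem_product.2 hp.1) h2)
    · exact Or.inr ⟨hp.1, h2⟩
  refine (card_le_card h1).trans ((card_union_le _ _).trans ?_)
  apply Nat.add_le_add_left
  apply card_le_card_of_injOn f
  · intro p hp
    exact (mem_FF.1 (mem_coe.1 hp)).2.2
  · intro p hp q hq hpq
    exact hinj p q (mem_FF.1 (mem_coe.1 hp)).2.1 (mem_FF.1 (mem_coe.1 hq)).2.1 hpq

lemma badU_card (n : ℕ) (X : Finset ℕ) (hX : X ⊆ Icc 1 n)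
    (h3 : ∀ a ∈ X, ∀ c ∈ X, a % 2 ≠ c % 2 → ¬ (3 ∣ a ↔ 3 ∣ c) → Path X 3 a c)
    (h4 : ∀ a ∈ X, ∀ c ∈ X, a % 2 = c % 2 → ¬ (3 ∣ a ↔ 3 ∣ c) → Path X 4 a c)
    (h5 : ∀ a ∈ X, ∀ c ∈ X, Path X 5 a c) :
    (BadU n).card ≤ 2 * (n * (Icc 1 n \ X).card) + 5 * (B2 n).card + (B3 n).card + 12 * n := by
  classical
  have hcI : (Icc 1 n).card = n := by rw [Nat.card_Icc, Nat.add_sub_cancel]
  have hlow : ((Icc 1 n).filter (fun y => y < 4)).card ≤ 3 := by
    have : (Icc 1 n).filter (fun y => y < 4) ⊆ Icc 1 3 := by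
      intro y hy
      rw [mem_filter, mem_Icc] at hy
      rw [mem_Icc]
      omega
    exact (card_le_card this).trans (by rw [Nat.card_Icc])
  have hhigh : ((Icc 1 n).filter (fun y => n < y + 3)).card ≤ 3 := by
    have : (Icc 1 n).filter (fun y => n < y + 3) ⊆ Icc (n - 2) n := by
      intro y hy
      rw [mem_filter, mem_Icc] at hy
      rw [mem_Icc]
      omega
    exact (card_le_card this).trans (by rw [Nat.card_Icc]; omega)
  refine (card_le_card (badU_sub n X hX h3 h4 h5)).trans ?_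
  have e1 := shift_le n (fun p => (p.1, p.2 + 3)) (fun _ => True) (by
    rintro ⟨a, b⟩ ⟨c, d⟩ _ _ h
    simp only [Prod.mk.injEq] at h ⊢
    omega) (fun p => n < p.2 + 3) ((Icc 1 n) ×ˢ ((Icc 1 n).filter (fun y => n < y + 3))) (by
    intro p hp h
    rw [mem_product] at hp
    rw [mem_product, mem_filter]
    exact ⟨hp.1, hp.2, h⟩)
  have e2 := shift_le n (fun p => (p.1, p.2 - 3)) (fun p => 4 ≤ p.2) (by
    rintro ⟨a, b⟩ ⟨c, d⟩ h1 h2 h
    simp only [Prod.mk.injEq] at h1 h2 h ⊢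
    omega) (fun p => p.2 < 4) ((Icc 1 n) ×ˢ ((Icc 1 n).filter (fun y => y < 4))) (by
    intro p hp h
    rw [mem_product] at hp
    rw [mem_product, mem_filter]
    exact ⟨hp.1, hp.2, h⟩)
  have e3 := shift_le n (fun p => (p.1 + 3, p.2)) (fun _ => True) (by
    rintro ⟨a, b⟩ ⟨c, d⟩ _ _ h
    simp only [Prod.mk.injEq] at h ⊢
    omega) (fun p => n < p.1 + 3) (((Icc 1 n).filter (fun y => n < y + 3)) ×ˢ (Icc 1 n)) (by
    intro p hp h
    rw [mem_product] at hp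
    rw [mem_product, mem_filter]
    exact ⟨⟨hp.1, h⟩, hp.2⟩)
  have e4 := shift_le n (fun p => (p.1 - 3, p.2)) (fun p => 4 ≤ p.1) (by
    rintro ⟨a, b⟩ ⟨c, d⟩ h1 h2 h
    simp only [Prod.mk.injEq] at h1 h2 h ⊢
    omega) (fun p => p.1 < 4) (((Icc 1 n).filter (fun y => y < 4)) ×ˢ (Icc 1 n)) (by
    intro p hp h
    rw [mem_product] at hp
    rw [mem_product, mem_filter]
    exact ⟨⟨hp.1, h⟩, hp.2⟩)
  rw [card_product, hcI] at e1 e2 e3 e4
  have f1 := card_product (Icc 1 n \ X) (Icc 1 n)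
  have f2 := card_product (Icc 1 n) (Icc 1 n \ X)
  rw [hcI] at f1 f2
  have g1 : n * ((Icc 1 n).filter (fun y => n < y + 3)).card ≤ n * 3 := Nat.mul_le_mul_left n hhigh
  have g2 : n * ((Icc 1 n).filter (fun y => y < 4)).card ≤ n * 3 := Nat.mul_le_mul_left n hlow
  have g3 : ((Icc 1 n).filter (fun y => n < y + 3)).card * n ≤ 3 * n := Nat.mul_le_mul_right n hhigh
  have g4 : ((Icc 1 n).filter (fun y => y < 4)).card * n ≤ 3 * n := Nat.mul_le_mul_right n hlow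
  have f3 : (Icc 1 n \ X).card * n = n * (Icc 1 n \ X).card := mul_comm _ _
  refine (card_union_le _ _).trans ?_
  refine (add_le_add ((card_union_le _ _).trans (add_le_add ((card_union_le _ _).trans (add_le_add
    ((card_union_le _ _).trans (add_le_add ((card_union_le _ _).trans (add_le_add ((card_union_le _ _).trans
    (add_le_add (card_union_le _ _) le_rfl)) le_rfl)) e1)) e2)) e3)) e4).trans ?_
  rw [f1, f2, f3]
  omega

/-- the upper bound for the distances -/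
theorem upper (hW : S_ESTW) (hT : S_TWO) (hB : S_BR)
    (hM : ∃ c : ℝ, 0 < c ∧ ∀ U : ℕ, ∃ n₀ : ℕ, ∀ n : ℕ, n₀ ≤ n → ∃ X ⊆ Icc 1 n,
      ((Icc 1 n \ X).card : ℝ) ≤ n / Real.log n ^ U ∧ (∀ a ∈ X, c * (n / Real.log n ^ 2) ≤ dg X a)) (U : ℕ) :
    ∃ n₀ : ℕ, ∀ n : ℕ, n₀ ≤ n → ((BadU n).card : ℝ) ≤ (n : ℝ) ^ 2 / Real.log n ^ U := by
  obtain ⟨c, hc0, hmain⟩ := hM
  obtain ⟨n₁, h1⟩ := hmain (U + 8)
  obtain ⟨n₂, h2⟩ := core_of hT hB (U + 8)
  obtain ⟨n₃, h3⟩ := three hW (U + 8)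
  obtain ⟨n₄, h4⟩ := ev_log (max 100 (2 / c))
  obtain ⟨n₅, h5⟩ := ev_pow (U + 8)
  refine ⟨n₁ + n₂ + n₃ + n₄ + n₅ + 2, fun n hn => ?_⟩
  obtain ⟨X₀, hX₀, hX₀c, hX₀d⟩ := h1 n (by omega)
  obtain ⟨E, hE, hEc, hEp, hEs⟩ := h2 n (by omega)
  have a3 := h3 n (by omega)
  have a4 := h4 n (by omega)
  have a5 := h5 n (by omega)
  have hL : 100 ≤ Real.log n := (le_max_left _ _).trans a4
  have hLc : 2 / c ≤ Real.log n := (le_max_right _ _).trans a4
  have hL0 : 0 < Real.log n := by linarith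
  have hL1 : 1 ≤ Real.log n := by linarith
  set L := Real.log n with hLd
  have hn1 : (1 : ℝ) ≤ n := by exact_mod_cast (by omega : 1 ≤ n)
  have hn0 : (0 : ℝ) < n := by linarith
  obtain ⟨X, hXd⟩ : ∃ X, X = X₀ \ E := ⟨_, rfl⟩
  have hXI : X ⊆ Icc 1 n := by rw [hXd]; exact sdiff_subset.trans hX₀
  have hcd : ((Icc 1 n \ X).card : ℝ) ≤ 2 * (n / L ^ (U + 8)) := by
    have e1 : Icc 1 n \ X ⊆ (Icc 1 n \ X₀) ∪ E := by
      intro x hx
      rw [hXd, mem_sdiff, mem_sdiff] at hx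
      rw [mem_union, mem_sdiff]
      tauto
    have e2 := (card_le_card e1).trans (card_union_le _ _)
    have e3 : ((Icc 1 n \ X).card : ℝ) ≤ (Icc 1 n \ X₀).card + E.card := by exact_mod_cast e2
    linarith
  have hV : ∀ k : ℕ, k ≤ U + 7 → 2 * (n / L ^ (U + 8)) ≤ (1 / 50) * (n / L ^ k) := by
    intro k hk
    have e1 : L ^ (U + 8) = L ^ k * L ^ (U + 7 - k) * L := by
      rw [← pow_add, ← pow_succ]
      congr 1
      omega
    have e2 : (1 : ℝ) ≤ L ^ (U + 7 - k) := one_le_pow₀ hL1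
    have e3 : (n : ℝ) / L ^ (U + 8) ≤ (n / L ^ k) / L := by
      rw [e1, div_div]
      apply div_le_div_of_nonneg_left hn0.le (by positivity)
      apply mul_le_mul_of_nonneg_right _ hL0.le
      exact le_mul_of_one_le_right (by positivity) e2
    have e4 : (n / L ^ k) / L ≤ (n / L ^ k) / 100 := by
      apply div_le_div_of_nonneg_left (by positivity) (by norm_num) hL
    linarith
  have hc6 : ((Icc 1 n \ X).card : ℝ) ≤ n / L ^ 6 := by
    have e1 := hV 6 (by omega)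
    have e2 : 0 < (n : ℝ) / L ^ 6 := by positivity
    linarith
  have hdegX : ∀ a ∈ X, c / 2 * (n / L ^ 2) ≤ dg X a := by
    intro a ha
    rw [hXd, mem_sdiff] at ha
    have e1 := hX₀d a ha.1
    have e2 : X₀.filter (fun b => R a b) ⊆ (X.filter (fun b => R a b)) ∪ E := by
      intro x hx
      rw [mem_filter] at hx
      rw [mem_union, mem_filter, hXd, mem_sdiff]
      tauto
    have e3 := (card_le_card e2).trans (card_union_le _ _)
    have e4 : (dg X₀ a : ℝ) ≤ dg X a + E.card := by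
      unfold dg
      exact_mod_cast e3
    have e5 : (n : ℝ) / L ^ (U + 8) ≤ c / 2 * (n / L ^ 2) := by
      have e6 : (n : ℝ) / L ^ (U + 8) ≤ n / L ^ 3 := by
        apply div_le_div_of_nonneg_left hn0.le (by positivity)
        exact pow_le_pow_right₀ hL1 (by omega)
      have e7 : (n : ℝ) / L ^ 3 = (1 / L) * (n / L ^ 2) := by
        field_simp
      have e8 : 1 / L ≤ c / 2 := by
        rw [div_le_iff₀ hL0]
        rw [div_le_iff₀ hc0] at hLc
        linarith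
      have e9 : (1 / L) * ((n : ℝ) / L ^ 2) ≤ c / 2 * (n / L ^ 2) :=
        mul_le_mul_of_nonneg_right e8 (by positivity)
      linarith
    linarith
  have hdeg3 : ∀ a ∈ X, (n : ℝ) / L ^ 3 ≤ dg X a := by
    intro a ha
    refine le_trans ?_ (hdegX a ha)
    have e7 : (n : ℝ) / L ^ 3 = (1 / L) * (n / L ^ 2) := by
      field_simp
    have e8 : 1 / L ≤ c / 2 := by
      rw [div_le_iff₀ hL0]
      rw [div_le_iff₀ hc0] at hLc
      linarith
    rw [e7]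
    exact mul_le_mul_of_nonneg_right e8 (by positivity)
  have hdisj : Disjoint X E := by
    rw [hXd]
    exact sdiff_disjoint
  obtain ⟨p3, p4, p5⟩ := hEp X hXI hdisj hc6 hdeg3
  have hcount := badU_card n X hXI p3 p4 p5
  have hB2 := B2_le n E (n / L ^ (U + 8)) (by positivity) hEs
  have hB3 : ((B3 n).card : ℝ) ≤ (n : ℝ) ^ 2 / L ^ (U + 8) := by
    unfold B3 FF
    convert a3
  have hc1 : ((BadU n).card : ℝ) ≤ 2 * (n * (Icc 1 n \ X).card) + 5 * (B2 n).card + (B3 n).card + 12 * n := by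
    exact_mod_cast hcount
  -- everything is at most `n ^ 2 / L ^ (U + 8)` times a constant
  have q0 : (n : ℝ) ^ 2 / L ^ (U + 8) = n * (n / L ^ (U + 8)) := by ring
  have q1 : (n : ℝ) * (Icc 1 n \ X).card ≤ 2 * (n ^ 2 / L ^ (U + 8)) := by
    have := mul_le_mul_of_nonneg_left hcd hn0.le
    rw [q0]
    linarith
  have q2 : ((B2 n).card : ℝ) ≤ 2 * (n ^ 2 / L ^ (U + 8)) := by
    have := mul_le_mul_of_nonneg_left hEc hn0.le
    rw [q0]
    linarith
  have q3 : (12 : ℝ) * n ≤ n ^ 2 / L ^ (U + 8) := by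
    rw [le_div_iff₀ (by positivity)]
    have hs : Real.sqrt n ≤ n := by
      rw [Real.sqrt_le_left hn0.le]
      nlinarith
    have : 12 * L ^ (U + 8) ≤ n := by
      have h0 : 0 ≤ L ^ (U + 8) := by positivity
      linarith
    nlinarith
  have q4 : ((BadU n).card : ℝ) ≤ 16 * (n ^ 2 / L ^ (U + 8)) := by linarith
  refine q4.trans ?_
  have q5 := hV U (by omega)
  have q6 : (16 : ℝ) * (n / L ^ (U + 8)) ≤ n / L ^ U := by
    have : 0 ≤ (n : ℝ) / L ^ U := by positivity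
    linarith
  have q7 := mul_le_mul_of_nonneg_left q6 hn0.le
  have q8 : (n : ℝ) ^ 2 / L ^ U = n * (n / L ^ U) := by ring
  rw [q0, q8]
  linarith

end Pool.Agent.H76.GD
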